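import Pool.Agent.Lib.MP_3240be_co.N49.Defs

/-!
# MP_3240be_co, board THN: row CRN (the final form)
-/

set_option autoImplicit false

namespace MP3240N

open Finset MP3240T MP3240W
open Pool.Agent.Lib.MP_3240be_co.H36 (LocCol Blow)

theorem connected_of_noCut {n : ℕ} {H : SimpleGraph (Fin n)} (h3 : 3 ≤ n) (h1 : NoCut H) :
    H.Connected := by
  have hne : Nonempty (Fin n) := ⟨⟨0, by omega⟩⟩
  refine SimpleGraph.Connected.mk (fun u v => ?_)
  obtain ⟨w, hwu, hwv⟩ : ∃ z : Fin n, z ≠ u ∧ z ≠ v := by
    by_contra hcon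
    push Not at hcon
    have h4 : (univ : Finset (Fin n)) ⊆ {u, v} := by
      intro z _
      rw [mem_insert, mem_singleton]
      by_cases hz : z = u
      · exact Or.inl hz
      · exact Or.inr (hcon z hz)
    have h5 := card_le_card h4
    rw [card_univ, Fintype.card_fin] at h5
    have h6 := card_le_two (a := u) (b := v)
    omega
  obtain ⟨p⟩ := (h1 w).preconnected ⟨u, hwu.symm⟩ ⟨v, hwv.symm⟩
  have main : ∀ (a b : {x : Fin n | x ≠ w})
      (_ : (H.induce {x | x ≠ w}).Walk a b), H.Reachable a.1 b.1 := by
    intro a b p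
    induction p with
    | nil => exact SimpleGraph.Reachable.refl _
    | cons hadj _ ih =>
      rename_i u1 u2 u3 _
      have h4 : H.Adj u1.1 u2.1 := hadj
      exact h4.reachable.trans ih
  exact main _ _ p

theorem crn_proof (h1 : MnnStatement) (h2 : TwoStatement) : CrnStatement := by
  classical
  intro n n' k H H' κ α h3 hk hcut hprop _ hmin htri hH' hemb hnemb
  obtain ⟨r, rfl⟩ : ∃ r, k = r + 1 := ⟨k - 1, by omega⟩
  have hconn := connected_of_noCut h3 hcut
  have htwo := h2 n H h3 hconn hcut
  set τ : Fin (r + 1) ≃ Option (Fin r) := finSuccEquiv' (κ α) with hτ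
  have hτα : τ (κ α) = none := by rw [hτ]; exact finSuccEquiv'_at _
  have hcl : ∀ x, τ (κ x) = none ↔ κ x = κ α := by
    intro x
    rw [← hτα]
    exact τ.apply_eq_iff_eq
  have hpos : 0 < (univ.filter (fun x => κ x = κ α)).card :=
    card_pos.mpr ⟨α, by simp⟩
  obtain ⟨h, hh⟩ : ∃ h, (univ.filter (fun x => κ x = κ α)).card = h + 1 :=
    ⟨(univ.filter (fun x => κ x = κ α)).card - 1, by omega⟩
  have D : NData H r h :=
    { κ := fun x => τ (κ x)
      prop := fun i j hij heq => hprop i j hij (τ.injective heq)
      cardA := by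
        rw [← hh]
        congr 1
        ext x
        simp only [mem_filter, mem_univ, true_and]
        exact hcl x
      α := α
      hα := hτα
      tri := htri }
  have hsig : Sig H r h := by
    intro κ' hκ'
    have h4 := hmin (fun x => τ.symm (κ' x)) (fun i j hij heq => hκ' i j hij
      (τ.symm.injective heq)) (κ α)
    have h5 : (univ.filter (fun x => τ.symm (κ' x) = κ α)) = univ.filter (fun x => κ' x = none) := by
      ext x
      simp only [mem_filter, mem_univ, true_and]
      rw [← hτα]
      exact τ.symm_apply_eq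
    rw [h5, hh] at h4
    omega
  exact h1 n n' r h H H' D (by omega) hsig hconn htwo hH' hemb hnemb

end MP3240N
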