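import Pool.Agent.Lib.MP_3240be_co.N49.Defs

/-!
# MP_3240be_co, board THN: rows KEC and KEY (helper30)
-/

set_option autoImplicit false

namespace MP3240N

open Finset MP3240T MP3240W
open Pool.Agent.Lib.MP_3240be_co.H36 (LocCol Blow)

/-- `r` sets of `n` vertices and `h + 1` further vertices, completely joined, contain `H`. -/
theorem kec_join {n r h : ℕ} {H : SimpleGraph (Fin n)} (D : NData H r h) {V : Type}
    (G : SimpleGraph V) (F : Fin r → Fin n → V) (hF : ∀ i, Function.Injective (F i))
    (hFF : ∀ i j, i ≠ j → ∀ u w, G.Adj (F i u) (F j w)) (T : Finset V) (hT : h < T.card)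
    (hTF : ∀ s ∈ T, ∀ i u, G.Adj s (F i u)) : Emb H G := by
  classical
  have hne : T.Nonempty := Finset.card_pos.1 (by omega)
  obtain ⟨v₀, hv₀⟩ := hne
  have ht : ∃ t : Fin n → V, (∀ x, D.κ x = none → t x ∈ T) ∧
      ∀ x y, D.κ x = none → D.κ y = none → t x = t y → x = y := by
    set B : Finset (Fin n) := univ.filter (fun x => D.κ x = none) with hB
    have hBc : B.card ≤ T.card := by
      rw [hB, D.cardA]
      exact hT
    have hBm : ∀ x, D.κ x = none → x ∈ B := fun x hx => by simp [hB, hx]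
    obtain ⟨t, ht1, ht2⟩ := Pool.Agent.Lib.MP_3240be_co.H36.exists_inj T B.card hBc
    refine ⟨fun x => if hx : x ∈ B then t (B.equivFin ⟨x, hx⟩) else v₀, ?_, ?_⟩
    · intro x hx
      simp only [dif_pos (hBm x hx)]
      exact ht2 _
    · intro x y hx hy hxy
      simp only [dif_pos (hBm x hx), dif_pos (hBm y hy)] at hxy
      exact congrArg Subtype.val (B.equivFin.injective (ht1 hxy))
  obtain ⟨t, ht1, ht2⟩ := ht
  let f : Fin n → V := fun x => match D.κ x with
    | none => t x
    | some j => F j x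
  have hf : ∀ x, (D.κ x = none ∧ f x = t x) ∨ ∃ j, D.κ x = some j ∧ f x = F j x := by
    intro x
    rcases hκ : D.κ x with _ | j
    · left
      refine ⟨rfl, ?_⟩
      simp only [f, hκ]
    · right
      refine ⟨j, rfl, ?_⟩
      simp only [f, hκ]
  refine ⟨f, ?_, ?_⟩
  · intro x y hxy
    rcases hf x with ⟨hx0, hx⟩ | ⟨j, hj, hx⟩ <;> rcases hf y with ⟨hy0, hy⟩ | ⟨l, hl, hy⟩
    · exact ht2 x y hx0 hy0 (hx.symm.trans (hxy.trans hy))
    · exact absurd (hx.symm.trans (hxy.trans hy)) (hTF _ (ht1 x hx0) _ _).ne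
    · exact absurd (hy.symm.trans (hxy.symm.trans hx)) (hTF _ (ht1 y hy0) _ _).ne
    · have h1 : F j x = F l y := hx.symm.trans (hxy.trans hy)
      by_cases hjl : j = l
      · subst hjl
        exact hF j h1
      · exact absurd h1 (hFF j l hjl _ _).ne
  · intro x y hxy
    have hκ := D.prop x y hxy
    rcases hf x with ⟨hx0, hx⟩ | ⟨j, hj, hx⟩ <;> rcases hf y with ⟨hy0, hy⟩ | ⟨l, hl, hy⟩
    · exact absurd (hx0.trans hy0.symm) hκ
    · rw [hx, hy]
      exact hTF _ (ht1 x hx0) _ _
    · rw [hx, hy]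
      exact (hTF _ (ht1 y hy0) _ _).symm
    · have hjl : j ≠ l := by
        intro h0
        rw [hj, hl, h0] at hκ
        exact hκ rfl
      rw [hx, hy]
      exact hFF j l hjl _ _

/-- Counting: sets `A₀`, `A_j` of at most `h` elements which cover a set with `(r + 1) h`
elements are disjoint and have exactly `h` elements. -/
theorem kec_count {r h : ℕ} {A : Type} [Fintype A] (θ : A → Fin r → Bool) (b : Bool)
    (hA : (r + 1) * h ≤ Fintype.card A)
    (h0 : (univ.filter (fun a => ∀ j, θ a j = b)).card ≤ h)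
    (h1 : ∀ j, (univ.filter (fun a => θ a j = !b)).card ≤ h) :
    (∀ a j j', θ a j = !b → θ a j' = !b → j = j') ∧
      ∀ j, (univ.filter (fun a => θ a j = !b)).card = h := by
  classical
  -- double counting
  have hsum : ∑ j, (univ.filter (fun a => θ a j = !b)).card =
      ∑ a : A, (univ.filter (fun j => θ a j = !b)).card := by
    simp only [Finset.card_filter]
    exact Finset.sum_comm
  have hz : (univ.filter (fun a : A => ∀ j, θ a j = b)).card =
      ∑ a : A, (if ∀ j, θ a j = b then 1 else 0) := by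
    rw [Finset.card_filter]
  have hone : ∀ a : A, 1 ≤ (if ∀ j, θ a j = b then 1 else 0) +
      (univ.filter (fun j => θ a j = !b)).card := by
    intro a
    by_cases ha : ∀ j, θ a j = b
    · rw [if_pos ha]
      omega
    · rw [if_neg ha, Nat.zero_add]
      push Not at ha
      obtain ⟨j, hj⟩ := ha
      refine Finset.card_pos.2 ⟨j, ?_⟩
      simp only [Finset.mem_filter, Finset.mem_univ, true_and]
      revert hj
      cases θ a j <;> cases b <;> simp
  have hle : ∑ j : Fin r, (univ.filter (fun a => θ a j = !b)).card ≤ r * h := by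
    refine (Finset.sum_le_card_nsmul _ _ h (fun j _ => h1 j)).trans_eq ?_
    rw [Finset.card_univ, Fintype.card_fin, smul_eq_mul]
  have htot : ∑ a : A, ((if ∀ j, θ a j = b then 1 else 0) +
      (univ.filter (fun j => θ a j = !b)).card) ≤ (r + 1) * h := by
    rw [Finset.sum_add_distrib, ← hz, ← hsum, Nat.add_mul, Nat.one_mul, Nat.add_comm (r * h)]
    exact Nat.add_le_add h0 hle
  have hcard : (∑ _a : A, 1) = Fintype.card A := by simp
  constructor
  · intro a j j' hj hj'
    by_contra hne
    have hlt : ∑ _a : A, 1 < ∑ a : A, ((if ∀ j, θ a j = b then 1 else 0) +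
        (univ.filter (fun j => θ a j = !b)).card) := by
      refine Finset.sum_lt_sum (fun a _ => hone a) ⟨a, Finset.mem_univ _, ?_⟩
      have h2 : 1 < (univ.filter (fun j => θ a j = !b)).card := by
        refine Finset.one_lt_card.2 ⟨j, ?_, j', ?_, hne⟩
        · simp [hj]
        · simp [hj']
      omega
    omega
  · intro j
    refine le_antisymm (h1 j) ?_
    by_contra hlt
    push Not at hlt
    have h2 : ∑ j : Fin r, (univ.filter (fun a => θ a j = !b)).card < ∑ _j : Fin r, h :=
      Finset.sum_lt_sum (fun i _ => h1 i) ⟨j, Finset.mem_univ _, hlt⟩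
    have h3 : (∑ _j : Fin r, h) = r * h := by simp
    have h4 : ∑ _a : A, 1 ≤ ∑ a : A, ((if ∀ j, θ a j = b then 1 else 0) +
        (univ.filter (fun j => θ a j = !b)).card) := Finset.sum_le_sum (fun a _ => hone a)
    rw [Finset.sum_add_distrib, ← hz, ← hsum] at h4
    have h5 : (r + 1) * h = r * h + h := by rw [Nat.add_mul, Nat.one_mul]
    omega

theorem kec_proof : KecStatement := by
  classical
  intro n r h b₀ H D B V G c E b A _ φ θ hr hc hH hE hEG hEc hBG hb1 hbr hφ hφG hφc hA
  -- a set of vertices joined to `E j` in colour `!b` has at most `h` elements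
  have hT1 : ∀ (j : Fin r) (T : Finset V), (∀ s ∈ T, ∀ x, G.Adj s (E j x)) →
      (∀ s ∈ T, ∀ x, c s (E j x) = !b) → T.card ≤ h := by
    intro j T hT hTc
    by_contra hlt
    push Not at hlt
    obtain ⟨F, hF1, hF2⟩ := hbr j
    refine hH (!b) (kec_join D (cls G c (!b)) (fun i u => E j (F i u))
      (fun i => (hE j).comp (hF1 i)) (fun i i' hii u w => ?_) T hlt (fun s hs i u => ?_))
    · obtain ⟨h2, h3⟩ := hF2 i i' hii u w
      exact ⟨hBG j _ _ h2, h3, by rw [hc]; exact h3⟩
    · exact ⟨hT s hs _, hTc s hs _, by rw [hc]; exact hTc s hs _⟩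
  -- a set of vertices joined to all copies in colour `b` has at most `h` elements
  have hT0 : ∀ T : Finset V, (∀ s ∈ T, ∀ j x, G.Adj s (E j x)) →
      (∀ s ∈ T, ∀ j x, c s (E j x) = b) → T.card ≤ h := by
    intro T hT hTc
    by_contra hlt
    push Not at hlt
    have hbl : ∀ _j : Fin r, ∃ F : Fin n → Fin b₀, Function.Injective F := by
      intro j
      obtain ⟨F, hF1, _⟩ := hb1 j
      exact ⟨F 0, hF1 0⟩
    choose F hF using hbl
    refine hH b (kec_join D (cls G c b) (fun j u => E j (F j u))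
      (fun j => (hE j).comp (hF j)) (fun i i' hii u w => ?_) T hlt (fun s hs i u => ?_))
    · exact ⟨hEG i i' _ _ hii, hEc i i' _ _ hii, by rw [hc]; exact hEc i i' _ _ hii⟩
    · exact ⟨hT s hs _ _, hTc s hs _ _, by rw [hc]; exact hTc s hs _ _⟩
  have h1 : ∀ j, (univ.filter (fun a => θ a j = !b)).card ≤ h := by
    intro j
    rw [← Finset.card_image_of_injective _ hφ]
    refine hT1 j _ (fun s hs x => ?_) (fun s hs x => ?_)
    · obtain ⟨a, _, rfl⟩ := Finset.mem_image.1 hs
      exact hφG a j x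
    · obtain ⟨a, ha, rfl⟩ := Finset.mem_image.1 hs
      rw [hφc]
      exact (Finset.mem_filter.1 ha).2
  have h0 : (univ.filter (fun a => ∀ j, θ a j = b)).card ≤ h := by
    rw [← Finset.card_image_of_injective _ hφ]
    refine hT0 _ (fun s hs j x => ?_) (fun s hs j x => ?_)
    · obtain ⟨a, _, rfl⟩ := Finset.mem_image.1 hs
      exact hφG a j x
    · obtain ⟨a, ha, rfl⟩ := Finset.mem_image.1 hs
      rw [hφc]
      exact (Finset.mem_filter.1 ha).2 j
  obtain ⟨h2, h3⟩ := kec_count θ b hA h0 h1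
  refine ⟨h2, fun s j hs hsc => ?_⟩
  by_contra hne
  push Not at hne
  have h4 := hT1 j (insert s ((univ.filter (fun a => θ a j = !b)).image φ))
    (fun t ht x => ?_) (fun t ht x => ?_)
  · rw [Finset.card_insert_of_notMem, Finset.card_image_of_injective _ hφ, h3 j] at h4
    · omega
    · intro hmem
      obtain ⟨a, _, ha⟩ := Finset.mem_image.1 hmem
      exact hne a ha.symm
  · rcases Finset.mem_insert.1 ht with rfl | ht
    · exact hs x
    · obtain ⟨a, _, rfl⟩ := Finset.mem_image.1 ht
      exact hφG a j x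
  · rcases Finset.mem_insert.1 ht with rfl | ht
    · exact hsc x
    · obtain ⟨a, ha, rfl⟩ := Finset.mem_image.1 ht
      rw [hφc]
      exact (Finset.mem_filter.1 ha).2

theorem key_proof (h1 : KewStatement) (h2 : KecStatement) : KeyStatement := by
  intro n r h b₀ H D B V G c E η ρ A _ φ θ hr hc hH hE hEG hEc hBG hbl hρ hφ hφG hφc hA
  obtain ⟨b, hb1, hb2⟩ := h1 n r h b₀ H D B V G c E η ρ hr hc hH hE hEG hEc hBG hbl hρ
  obtain ⟨h3, h4⟩ := h2 n r h b₀ H D B V G c E b A φ θ hr hc hH hE hEG
    (fun j j' x y hjj => (hEc j j' x y hjj).trans (hb1 j j' hjj)) hBG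
    (fun j => by rw [← (hb2 j).1]; exact hbl j b)
    (fun j => by
      have h5 := hbl j (!b)
      rwa [(hb2 j).2] at h5) hφ hφG hφc hA
  exact ⟨b, hb1, hb2, h3, h4⟩

end MP3240N
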