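import Pool.Agent.Lib.MP_3240be_co.N49.Defs
import Pool.Agent.Lib.MP_3240be_co.S36.Weight

/-!
# MP_3240be_co, board THN, row KEW (helper72): the forced colours, part without hubs
-/

set_option autoImplicit false

namespace MP3240N

open Finset MP3240T MP3240W
open Pool.Agent.Lib.MP_3240be_co.H36 (LocCol Blow)

/-- The union of the blow-ups of the `E i`, `i` in a clique of `η` of colour `b`, contains `H` if
it has at least `r + 1` parts. -/
theorem kew_emb {n r b₀ : ℕ} {H : SimpleGraph (Fin n)} {κ : Fin n → Option (Fin r)}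
    (hκ : ∀ i j, H.Adj i j → κ i ≠ κ j) {B : SimpleGraph (Fin b₀)} {V : Type}
    {G : SimpleGraph V} {c : V → V → Bool} {E : Fin r → Fin b₀ → V} {η : Fin r → Fin r → Bool}
    {ρ : Fin r → Bool → ℕ} (hc : ∀ x y, c x y = c y x) (hE : ∀ j, Function.Injective (E j))
    (hadj : ∀ j j' x y, j ≠ j' → G.Adj (E j x) (E j' y))
    (hη : ∀ j j' x y, j ≠ j' → c (E j x) (E j' y) = η j j')
    (hB : ∀ j x y, B.Adj x y → G.Adj (E j x) (E j y))
    (hBl : ∀ j b, Blow B (fun x y => c (E j x) (E j y)) n (ρ j b) b) (b : Bool)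
    (S : Finset (Fin r)) (hS : ∀ i ∈ S, ∀ j ∈ S, i ≠ j → η i j = b)
    (hsum : r + 1 ≤ ∑ i ∈ S, ρ i b) : Emb H (cls G c b) := by
  classical
  have hcard : Fintype.card (Option (Fin r)) ≤
      Fintype.card ((i : {i // i ∈ S}) × Fin (ρ i.1 b)) := by
    rw [Fintype.card_option, Fintype.card_fin, Fintype.card_sigma]
    refine hsum.trans (le_of_eq ?_)
    rw [← Finset.sum_coe_sort S (fun i => ρ i b)]
    refine Finset.sum_congr rfl fun i _ => ?_
    rw [Fintype.card_fin]
  obtain ⟨g⟩ := Function.Embedding.nonempty_of_card_le hcard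
  have hF : ∀ i, ∃ F : Fin (ρ i b) → Fin n → Fin b₀, (∀ a, Function.Injective (F a)) ∧
      ∀ a a', a ≠ a' → ∀ u w, B.Adj (F a u) (F a' w) ∧
        c (E i (F a u)) (E i (F a' w)) = b := fun i => hBl i b
  choose F hF1 hF2 using hF
  -- different parts are joined in colour `b`
  have hne : ∀ (p q : (i : {i // i ∈ S}) × Fin (ρ i.1 b)) (u w : Fin n), p ≠ q →
      G.Adj (E p.1.1 (F p.1.1 p.2 u)) (E q.1.1 (F q.1.1 q.2 w)) ∧
        c (E p.1.1 (F p.1.1 p.2 u)) (E q.1.1 (F q.1.1 q.2 w)) = b := by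
    rintro ⟨⟨i, hi⟩, a⟩ ⟨⟨j, hj⟩, a'⟩ u w hpq
    by_cases hij : i = j
    · subst hij
      have haa : a ≠ a' := fun h => hpq (by rw [h])
      obtain ⟨h1, h2⟩ := hF2 i a a' haa u w
      exact ⟨hB i _ _ h1, h2⟩
    · refine ⟨hadj i j _ _ hij, ?_⟩
      change c (E i (F i a u)) (E j (F j a' w)) = b
      rw [hη i j _ _ hij]
      exact hS i hi j hj hij
  refine ⟨fun v => E (g (κ v)).1.1 (F (g (κ v)).1.1 (g (κ v)).2 v), ?_, ?_⟩
  · intro v w hvw
    by_cases h : κ v = κ w
    · change E (g (κ v)).1.1 (F (g (κ v)).1.1 (g (κ v)).2 v) =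
        E (g (κ w)).1.1 (F (g (κ w)).1.1 (g (κ w)).2 w) at hvw
      rw [← h] at hvw
      exact hF1 _ _ (hE _ hvw)
    · exact absurd hvw (hne _ _ v w (fun h' => h (g.injective h'))).1.ne
  · intro v w hvw
    obtain ⟨h1, h2⟩ := hne (g (κ v)) (g (κ w)) v w (fun h' => hκ v w hvw (g.injective h'))
    refine ⟨h1, h2, ?_⟩
    rw [hc]
    exact h2

/-- (KEW) -/
theorem kew_proof : KewStatement := by
  intro n r h b₀ H D B V G c E η ρ hr hc hno hE hadj hη hB hBl hρ
  have hw : ∀ b (S : Finset (Fin r)), (∀ i ∈ S, ∀ j ∈ S, i ≠ j → η i j = b) →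
      ∑ i ∈ S, ρ i b ≤ r := by
    intro b S hS
    by_contra hcon
    push Not at hcon
    exact hno b (kew_emb D.prop hc hE hadj hη hB hBl b S hS hcon)
  have hsing : ∀ i b, ρ i b ≤ r := by
    intro i b
    have h1 := hw b {i} (by
      intro x hx y hy hxy
      rw [mem_singleton] at hx hy
      exact absurd (hx.trans hy.symm) hxy)
    rwa [sum_singleton] at h1
  have h1 : ∀ i b, 1 ≤ ρ i b := by
    intro i b
    have h2 := hsing i (!b)
    have h3 := hρ i
    cases b with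
    | true =>
      simp only [Bool.not_true] at h2
      omega
    | false =>
      simp only [Bool.not_false] at h2
      omega
  -- there is a vertex of `B`
  have hb : Nonempty (Fin b₀) := by
    obtain ⟨F, -, -⟩ := hBl ⟨0, by omega⟩ true
    exact ⟨F ⟨0, h1 _ true⟩ D.α⟩
  obtain ⟨x₀⟩ := hb
  have hsym : ∀ i j, η i j = η j i := by
    intro i j
    by_cases hij : i = j
    · rw [hij]
    · rw [← hη i j x₀ x₀ hij, ← hη j i x₀ x₀ (Ne.symm hij)]
      exact hc _ _
  obtain ⟨b, hb1, hb2⟩ := MP3240S.weight_proof r η ρ hr hsym h1 hρ hw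
  refine ⟨b, hb1, fun j => ⟨hb2 j, ?_⟩⟩
  have h2 := hsing j (!b)
  have h3 := hρ j
  have h4 := hb2 j
  cases b with
  | true =>
    simp only [Bool.not_true] at h2 ⊢
    omega
  | false =>
    simp only [Bool.not_false] at h2 ⊢
    omega

end MP3240N
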