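import Pool.Agent.Lib.MP_3240be_co.N49.Defs

/-!
# MP_3240be_co, Theorem N, row CLA: classes exist
-/

set_option autoImplicit false

namespace MP3240N

open Finset MP3240T MP3240W
open Pool.Agent.Lib.MP_3240be_co.H36 (LocCol Blow)

/-- A monochromatic blow-up with `r + 1` parts of an `(r+1)`-colourable graph contains it. -/
theorem emb_of_blow {n r b₀ : ℕ} {H : SimpleGraph (Fin n)} {V : Type} (G : SimpleGraph V)
    (c : V → V → Bool) (hc : ∀ x y, c x y = c y x) (κ : Fin n → Option (Fin r))
    (hκ : ∀ i j, H.Adj i j → κ i ≠ κ j) (B : SimpleGraph (Fin b₀)) (E : Fin b₀ → V)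
    (hE : Function.Injective E) (hB : ∀ x y, B.Adj x y → G.Adj (E x) (E y)) (a : ℕ)
    (ha : r + 1 ≤ a) (b : Bool) (h : Blow B (fun x y => c (E x) (E y)) n a b) :
    Emb H (cls G c b) := by
  obtain ⟨F, hF, hF2⟩ := h
  have hcard : Fintype.card (Option (Fin r)) ≤ Fintype.card (Fin a) := by simp; omega
  obtain ⟨ε⟩ := Function.Embedding.nonempty_of_card_le hcard
  refine ⟨fun v => E (F (ε (κ v)) v), ?_, ?_⟩
  · intro v v' h
    have h := hE h
    by_cases hk : κ v = κ v'
    · rw [hk] at h
      exact hF _ h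
    · have h1 := (hF2 (ε (κ v)) (ε (κ v')) (fun h' => hk (ε.injective h')) v v').1
      rw [h] at h1
      exact absurd h1 (B.loopless.irrefl _)
  · intro v v' h
    have hk := hκ v v' h
    obtain ⟨h1, h2⟩ := hF2 (ε (κ v)) (ε (κ v')) (fun h' => hk (ε.injective h')) v v'
    refine ⟨hB _ _ h1, h2, ?_⟩
    rw [hc]; exact h2

theorem cla_proof : ClaStatement := by
  classical
  intro n h N q L r b₀ H D x y W T K' kd I M δ B c hr hb₀ hHo hB hc hno
  have key : ∀ (p : Option I) (w : Fin q), ∃ s : QN r h,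
      r + 1 ≤ ((s.2 true : Fin (r + 1)) : ℕ) + s.2 false ∧
      BigC (Cop B T c p w s) (K' (p.isNone, w)) ∧
      ∃ t : Fin L, ∀ k, c (.u k) (.l p w t) = s.1 k := by
    intro p w
    set ψ₀ : Fin L → (Fin h → Bool) := fun t k => c (.u k) (.l p w t) with hψ₀
    have hadj : ∀ e : Fin b₀ → Fin L, CopyB B (T (p.isNone, w)) e → ∀ a a', B.Adj a a' →
        (FN (h := h) H x y W T kd δ).Adj (.l p w (e a)) (.l p w (e a')) := by
      intro e he a a' haa
      have h1 := he.2.1 a a' haa
      rw [FN, SimpleGraph.fromRel_adj]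
      refine ⟨?_, Or.inl (Or.inr (Or.inl ⟨rfl, rfl, h1⟩))⟩
      intro h2
      injection h2 with _ _ h3
      exact h1.ne h3
    have hinj : ∀ e : Fin b₀ → Fin L, CopyB B (T (p.isNone, w)) e → Function.Injective
        (fun a => (VN.l p w (e a) : VN n h q L I M)) := by
      intro e he a a' haa
      injection haa with _ _ h3
      exact he.1 h3
    have hnum : ∀ e : Fin b₀ → Fin L, ∃ ν : Bool → Fin (r + 1),
        CopyB B (T (p.isNone, w)) e → r + 1 ≤ ((ν true : Fin (r + 1)) : ℕ) + ν false ∧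
          ∀ b, Blow B (fun a a' => c (.l p w (e a)) (.l p w (e a'))) n (ν b) b := by
      intro e
      by_cases he : CopyB B (T (p.isNone, w)) e
      · obtain ⟨A, A', h1, h2, h3⟩ := hB (fun a a' => c (.l p w (e a)) (.l p w (e a')))
          (fun _ _ => hc _ _)
        have hA : A < r + 1 := by
          by_contra hA
          exact hno true (emb_of_blow (FN H x y W T kd δ) c hc D.κ D.prop B
            (fun a => (VN.l p w (e a) : VN n h q L I M)) (hinj e he) (hadj e he) A
            (by omega) true h2)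
        have hA' : A' < r + 1 := by
          by_contra hA'
          exact hno false (emb_of_blow (FN H x y W T kd δ) c hc D.κ D.prop B
            (fun a => (VN.l p w (e a) : VN n h q L I M)) (hinj e he) (hadj e he) A'
            (by omega) false h3)
        refine ⟨fun b => if b then ⟨A, hA⟩ else ⟨A', hA'⟩, fun _ => ⟨by simpa using h1, ?_⟩⟩
        intro b
        cases b
        · simpa using h3
        · simpa using h2
      · exact ⟨fun _ => 0, fun h => absurd h he⟩
    choose ν hν using hnum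
    obtain ⟨s, hs⟩ := hHo.sel (p.isNone, w) ψ₀
      (fun e => ((fun k => ψ₀ (e ⟨0, by omega⟩) k), ν e))
    have hcop : ∀ e : Fin b₀ → Fin L, (CopyB B (T (p.isNone, w)) e ∧
        (∀ a a', ψ₀ (e a) = ψ₀ (e a')) ∧
          (((fun k => ψ₀ (e ⟨0, by omega⟩) k), ν e) : QN r h) = s) → Cop B T c p w s e := by
      rintro e ⟨h1, h2, h3⟩
      refine ⟨h1, ?_, ?_⟩
      · intro a k
        have := congrFun (h2 a ⟨0, by omega⟩) k
        rw [← h3]
        exact this
      · intro b
        rw [← h3]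
        exact (hν e h1).2 b
    obtain ⟨k₀⟩ := hHo.ne (p.isNone, w)
    obtain ⟨e, he, _⟩ := hs (fun _ => k₀)
    refine ⟨s, ?_, ?_, ?_⟩
    · rw [← he.2.2]
      exact (hν e he.1).1
    · intro κ
      obtain ⟨e, he, h4⟩ := hs κ
      exact ⟨e, hcop e he, h4⟩
    · exact ⟨e ⟨0, by omega⟩, fun k => (hcop e he).2.1 _ k⟩
  choose s h1 h2 t h3 using key
  exact ⟨⟨s, h1, h2, t, h3⟩⟩

end MP3240N
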