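import Pool.Agent.Lib.MP_3240be_co.N49.Defs

/-!
# MP_3240be_co, board THN: row EMR (helper30)
-/

set_option autoImplicit false

namespace MP3240N

open Finset MP3240T MP3240W
open Pool.Agent.Lib.MP_3240be_co.H36 (LocCol Blow)

theorem emr_proof : EmrStatement := by
  classical
  intro n r h H D V G E U v S hE hU hEE hUE hSn hvS hUS hSE hSd hSE2 hvE hvU
  -- the other vertices of the class of `α`
  set B : Finset (Fin n) := (univ.filter (fun x => D.κ x = none)).erase D.α with hB
  have hBc : B.card = h := by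
    rw [hB, Finset.card_erase_of_mem (by simp [D.hα]), D.cardA]
    rfl
  have hBm : ∀ x, x ∈ B ↔ x ≠ D.α ∧ D.κ x = none := by
    intro x
    simp [hB]
  have hi : ∃ i : {x // x ∈ B} → Fin h, Function.Injective i :=
    ⟨fun x => Fin.cast hBc (B.equivFin x), fun x y hxy =>
      B.equivFin.injective (Fin.cast_injective hBc hxy)⟩
  obtain ⟨i, hi⟩ := hi
  -- the enumerations of the large sets
  have he : ∀ j : Fin r, ∃ e : Fin n → V, n ≤ (S j).card →
      Function.Injective e ∧ ∀ x, e x ∈ S j := by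
    intro j
    by_cases hj : n ≤ (S j).card
    · obtain ⟨e, he1, he2⟩ := Pool.Agent.Lib.MP_3240be_co.H36.exists_inj (S j) n hj
      exact ⟨e, fun _ => ⟨he1, he2⟩⟩
    · exact ⟨fun _ => v, fun h => absurd h hj⟩
  choose e he using he
  let f : Fin n → V := fun x => match D.κ x with
    | none => if hx : x ∈ B then U (i ⟨x, hx⟩) else v
    | some j => if n ≤ (S j).card ∧ H.Adj D.α x then e j x else E j x
  have hf : ∀ x, (x = D.α ∧ f x = v) ∨ (D.κ x = none ∧ ∃ hx : x ∈ B, f x = U (i ⟨x, hx⟩)) ∨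
      (∃ j, D.κ x = some j ∧ (n ≤ (S j).card ∧ H.Adj D.α x) ∧ f x = e j x) ∨
      ∃ j, D.κ x = some j ∧ ¬ (n ≤ (S j).card ∧ H.Adj D.α x) ∧ f x = E j x := by
    intro x
    rcases hκ : D.κ x with _ | j
    · by_cases hx : x ∈ B
      · refine Or.inr (Or.inl ⟨rfl, hx, ?_⟩)
        simp only [f, hκ]
        rw [dif_pos hx]
      · left
        refine ⟨?_, ?_⟩
        · by_contra hne
          exact hx ((hBm x).2 ⟨hne, hκ⟩)
        · simp only [f, hκ]
          rw [dif_neg hx]
    · by_cases hj : n ≤ (S j).card ∧ H.Adj D.α x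
      · refine Or.inr (Or.inr (Or.inl ⟨j, rfl, hj, ?_⟩))
        simp only [f, hκ]
        rw [if_pos hj]
      · refine Or.inr (Or.inr (Or.inr ⟨j, rfl, hj, ?_⟩))
        simp only [f, hκ]
        rw [if_neg hj]
  refine ⟨f, ?_, ?_⟩
  · -- injectivity
    intro x y hxy
    rcases hf x with ⟨rfl, hx⟩ | ⟨-, hx, hx'⟩ | ⟨j, hj, hj', hx⟩ | ⟨j, hj, hj', hx⟩ <;>
      rcases hf y with ⟨hy0, hy⟩ | ⟨-, hy, hy'⟩ | ⟨l, hl, hl', hy⟩ | ⟨l, hl, hl', hy⟩
    · exact hy0.symm
    · exact absurd (hx.symm.trans (hxy.trans hy')) (hvU _)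
    · exact absurd (hx.symm.trans (hxy.trans hy)) (hvS l _ ((he l hl'.1).2 y)).ne
    · exact absurd (hx.symm.trans (hxy.trans hy)) (hvE _ _)
    · exact absurd (hy.symm.trans (hxy.symm.trans hx')) (hvU _)
    · have h1 := hi (hU (hx'.symm.trans (hxy.trans hy')))
      exact congrArg Subtype.val h1
    · exact absurd (hx'.symm.trans (hxy.trans hy)) (hUS l _ ((he l hl'.1).2 y) _).ne
    · exact absurd (hx'.symm.trans (hxy.trans hy)) (hUE _ _ _).ne
    · exact absurd (hy.symm.trans (hxy.symm.trans hx)) (hvS j _ ((he j hj'.1).2 x)).ne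
    · exact absurd (hy'.symm.trans (hxy.symm.trans hx)) (hUS j _ ((he j hj'.1).2 x) _).ne
    · have h1 : e j x = e l y := hx.symm.trans (hxy.trans hy)
      by_cases hjl : j = l
      · subst hjl
        exact (he j hj'.1).1 h1
      · have h2 := (he j hj'.1).2 x
        rw [h1] at h2
        exact absurd h2 (Finset.disjoint_right.1 (hSd j l hjl) ((he l hl'.1).2 y))
    · exact absurd (hx.symm.trans (hxy.trans hy)) (hSE2 j _ ((he j hj'.1).2 x) _ _)
    · exact absurd (hy.symm.trans (hxy.symm.trans hx)) (hvE _ _)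
    · exact absurd (hy'.symm.trans (hxy.symm.trans hx)) (hUE _ _ _).ne
    · exact absurd (hy.symm.trans (hxy.symm.trans hx)) (hSE2 l _ ((he l hl'.1).2 y) _ _)
    · have h1 : E j x = E l y := hx.symm.trans (hxy.trans hy)
      by_cases hjl : j = l
      · subst hjl
        exact hE j h1
      · exact absurd h1 (hEE j l x y hjl).ne
  · -- adjacency
    intro x y hxy
    have hκ := D.prop x y hxy
    rcases hf x with ⟨rfl, hx⟩ | ⟨hx0, hx, hx'⟩ | ⟨j, hj, hj', hx⟩ | ⟨j, hj, hj', hx⟩ <;>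
      rcases hf y with ⟨hy0, hy⟩ | ⟨hy0, hy, hy'⟩ | ⟨l, hl, hl', hy⟩ | ⟨l, hl, hl', hy⟩
    · rw [hy0] at hxy
      exact absurd rfl hxy.ne
    · exact absurd (D.hα.trans hy0.symm) hκ
    · rw [hx, hy]
      exact hvS l _ ((he l hl'.1).2 y)
    · rw [hx, hy]
      rcases hSn l with h1 | h1
      · exact absurd ⟨h1, hxy⟩ hl'
      · exact h1 y
    · rw [hy0] at hκ
      exact absurd (hx0.trans D.hα.symm) hκ
    · exact absurd (hx0.trans hy0.symm) hκ
    · rw [hx', hy]
      exact hUS l _ ((he l hl'.1).2 y) _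
    · rw [hx', hy]
      exact hUE _ _ _
    · rw [hx, hy]
      exact (hvS j _ ((he j hj'.1).2 x)).symm
    · rw [hx, hy']
      exact (hUS j _ ((he j hj'.1).2 x) _).symm
    · exact absurd hxy (D.tri x y hj'.2 hl'.2)
    · have hjl : j ≠ l := by
        intro h0
        rw [hj, hl, h0] at hκ
        exact hκ rfl
      rw [hx, hy]
      exact hSE j l hjl _ ((he j hj'.1).2 x) y
    · rw [hx, hy]
      rw [hy0] at hxy
      rcases hSn j with h1 | h1
      · exact absurd ⟨h1, hxy.symm⟩ hj'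
      · exact (h1 x).symm
    · rw [hx, hy']
      exact (hUE _ _ _).symm
    · have hjl : l ≠ j := by
        intro h0
        rw [hj, hl, h0] at hκ
        exact hκ rfl
      rw [hx, hy]
      exact (hSE l j hjl _ ((he l hl'.1).2 y) x).symm
    · have hjl : j ≠ l := by
        intro h0
        rw [hj, hl, h0] at hκ
        exact hκ rfl
      rw [hx, hy]
      exact hEE j l x y hjl

end MP3240N
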