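import Pool.Agent.Lib.MP_3240be_co.N49.Defs

/-!
# Theorem N, row FINE
-/

set_option autoImplicit false

namespace MP3240N

open Finset MP3240T MP3240W
open Pool.Agent.Lib.MP_3240be_co.H36 (LocCol Blow)
open Pool.Agent.Lib.MP_3240be_co.H36.Chrom (Sparse)

theorem fine_bool {a b : Bool} {r : ℕ} (hr : 2 ≤ r) (f : Bool → ℕ) (h1 : f a = 1)
    (h2 : f (!b) = r) : a = b := by
  by_contra hne
  have : a = !b := by
    cases a <;> cases b <;> simp_all
  rw [this] at h1
  omega

theorem fine_proof (h : FrcStatement) : FineStatement := by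
  intro n hh N q L r b₀ H D x y W T K' kd I M δ B c hr hc hH Cs i S Z K hK hi hp
  have hF := h n hh N q L r b₀ H D x y W T K' kd I M δ B c hr hc hH Cs i S Z K
  let j0 : Fin r := ⟨0, by omega⟩
  let j1 : Fin r := ⟨1, by omega⟩
  have h01 : j0 ≠ j1 := by
    intro e
    have := congrArg Fin.val e
    simp [j0, j1] at this
  -- the level of the index
  obtain ⟨b, -, h2, h3, -⟩ := hF (fun _ => false) hK
  -- the pool
  obtain ⟨b', -, h2', h3', -⟩ := hF (fun _ => true) hK
  -- the mixed levels
  obtain ⟨b'', -, h2'', -, -⟩ := hF (fun j => if j = j0 then false else true) hK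
  simp only [plc, Bool.false_eq_true, if_false, if_true] at h2 h3 h2' h3'
  have e0 : b'' = b := by
    have ha := (h2'' j0).1
    rw [if_pos rfl] at ha
    simp only [plc, Bool.false_eq_true, if_false] at ha
    exact fine_bool hr (fun z => ((Cs.s (some i) (K j0)).2 z : ℕ)) ha (h2 j0).2
  have e1 : b'' = b' := by
    have ha := (h2'' j1).1
    rw [if_neg h01.symm] at ha
    simp only [plc, if_true] at ha
    exact fine_bool hr (fun z => ((Cs.s none (K j1)).2 z : ℕ)) ha (h2' j1).2
  have hb : b = b' := e0.symm.trans e1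
  subst hb
  refine ⟨b, hK, ?_, ?_, fun j => (h2' j).1⟩
  · intro j k
    by_contra hne
    have hv : (Cs.s (some i) (K j)).1 k = !b := by
      revert hne
      cases (Cs.s (some i) (K j)).1 k <;> cases b <;> simp
    have hv0 : (Cs.s (some i) (K j0)).1 k = !b := by rw [hi j0 j]; exact hv
    have hv1 : (Cs.s (some i) (K j1)).1 k = !b := by rw [hi j1 j]; exact hv
    exact h01 (h3 k j0 j1 hv0 hv1)
  · intro j k
    by_contra hne
    have hv : (Cs.s none (K j)).1 k = !b := by
      revert hne
      cases (Cs.s none (K j)).1 k <;> cases b <;> simp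
    have hv0 : (Cs.s none (K j0)).1 k = !b := by rw [hp j0 j]; exact hv
    have hv1 : (Cs.s none (K j1)).1 k = !b := by rw [hp j1 j]; exact hv
    exact h01 (h3' k j0 j1 hv0 hv1)

end MP3240N
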