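import Pool.Agent.Lib.MP_3240be_co.N49.Defs
import Pool.Agent.Lib.MP_3240be_co.H36.Host

/-!
# MP_3240be_co, Theorem N, row HB
-/

set_option autoImplicit false

namespace MP3240N

open Finset MP3240T MP3240W
open Pool.Agent.Lib.MP_3240be_co.H36 (LocCol Blow host)

theorem hb_proof : HbStatement := by
  intro N r g hr
  obtain ⟨n, R, B, hR, hB, hA⟩ := host N 1 r le_rfl hr (max g 2)
  have hR0 : R = ⊥ := by
    ext x y
    refine ⟨fun hxy => ?_, fun h => absurd h id⟩
    exfalso
    classical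
    obtain ⟨f, hf1, hf2⟩ := hR {x, y} (Finset.card_le_two.trans (le_max_right _ _))
    have h1 := hf2 x (by simp) y (by simp) hxy
    have h2 := hf1 x
    have h3 := hf1 y
    exact h1 (by omega)
  refine ⟨n, B, fun X hX => hB X (hX.trans (le_max_left _ _)), fun c hc => ?_⟩
  obtain ⟨A, A', h1, h2, h3⟩ := hA c hc
  rw [hR0, bot_sup_eq] at h2 h3
  exact ⟨A, A', by omega, h2, h3⟩

end MP3240N
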