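import Pool.Agent.Lib.MP_3240be_co.N49.Defs
import Pool.Agent.Lib.MP_3240be_co.S36.Rob

/-!
# Row KW: the graph of the kinds
-/

set_option autoImplicit false

namespace MP3240N

open Pool.Agent.Lib.MP_3240be_co.H36 (LocCol)

theorem kw_proof : KwStatement := by
  classical
  intro r g K _ _ hr
  obtain ⟨L, T, hT, hL⟩ := MP3240S.robust_nat r g K
  have htop : LocCol (⊤ : SimpleGraph (Fin r)) (2 * g ^ 2) r := by
    intro X _
    refine ⟨fun x => (x : ℕ), fun x => x.isLt, ?_⟩
    intro x _ y _ hxy h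
    exact hxy.ne (Fin.ext h)
  refine ⟨L, (T ⊤).comap (fun i : Fin L => (i : ℕ)), ?_, ?_⟩
  · exact (hT ⊤ r hr htop).comap _
  · intro κ
    obtain ⟨e, _, he2, he3, he4⟩ := hL
      (fun w => if h : w < L then κ ⟨w, h⟩ else Classical.arbitrary K)
    refine ⟨fun j => ⟨e j, he2 j⟩, ?_, ?_⟩
    · intro j j' hjj
      exact he3 ⊤ j j' hjj
    · intro j j'
      have h1 := he4 j j'
      simp only [he2 j, he2 j', dif_pos] at h1
      exact h1

end MP3240N
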