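import Pool.Agent.Lib.MP_3240be_co.N49.Defs
import Pool.Agent.Lib.MP_3240be_co.H30.Cpt

/-!
# MP_3240be_co, Theorem N, row MNN
-/

set_option autoImplicit false

namespace MP3240N

open Finset MP3240T MP3240W
open Pool.Agent.Lib.MP_3240be_co.H36 (LocCol Blow)
open Pool.Agent.Lib.MP_3240be_co.H36.Chrom (Sparse)

theorem mnn_proof (hA : ArnStatement) (hN : NfnStatement) (hG : GrpStatement) (hB : HbStatement)
    (hK : KwStatement) (hH : HypStatement) : MnnStatement := by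
  classical
  intro n n' r h H H' D hr hsig hconn h2 hconn' hemb hnemb
  -- an edge
  obtain ⟨x, y, hxy⟩ : ∃ x y, H.Adj x y := by
    by_contra hcon
    push Not at hcon
    have h1 := hsig (fun _ => some ⟨0, by omega⟩) (fun i j hij => absurd hij (hcon i j))
    simp at h1
  have hn2 : 2 ≤ n := by
    have h1 := x.isLt
    have h2 := y.isLt
    have h3 : x.val ≠ y.val := fun e => hxy.ne (Fin.ext e)
    omega
  -- the graph of a world
  obtain ⟨b₀, B, hBl, hBc⟩ := hB n r (2 * n ^ 2) (by omega)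
  have hb₀ : 1 ≤ b₀ := by
    obtain ⟨A, A', h1, h3, h4⟩ := hBc (fun _ _ => true) (fun _ _ => rfl)
    have : 0 < A ∨ 0 < A' := by omega
    rcases this with hA0 | hA0
    · obtain ⟨F, _⟩ := h3
      have := (F ⟨0, hA0⟩ x).isLt
      omega
    · obtain ⟨F, _⟩ := h4
      have := (F ⟨0, hA0⟩ x).isLt
      omega
  -- the kinds
  obtain ⟨q, W, hWl, hWc⟩ := hK r n ((Fin h → Bool) × (Fin h → Bool) ×
        (Fin n → Fin n → Fin n → Fin (2 * n) → Fin n → Bool)) (by omega)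
  have hq : 0 < q := by
    obtain ⟨e, _⟩ := hWc (fun _ => (fun _ => true, fun _ => true, fun _ _ _ _ _ => true))
    have := (e ⟨0, by omega⟩).isLt
    omega
  -- the graphs of the worlds
  obtain ⟨L, T, K', hTl, hHo⟩ := hG b₀ n r B (by omega) hBl (Bool × Fin q) (QN r h)
    (Fin h → Bool) (KN n r h q)
  have hL : 0 < L := by
    obtain ⟨s, hs⟩ := hHo.sel (true, ⟨0, hq⟩) (fun _ _ => true)
      (fun _ => (fun _ => true, fun _ => 0))
    obtain ⟨k₀⟩ := hHo.ne (true, ⟨0, hq⟩)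
    obtain ⟨e, _⟩ := hs (fun _ => k₀)
    have := (e ⟨0, by omega⟩).isLt
    omega
  have hN0 : 0 < q * (2 * n) := Nat.mul_pos hq (by omega)
  haveI : Nonempty (Fin L) := ⟨⟨0, hL⟩⟩
  obtain ⟨I, M, hI, hM, δ, hδ, hsp, hbad⟩ := hH (n * n) (q * n)
    (SP n (q * (2 * n)) q L) (Fin q → QN r h × Fin L)
    ((x, x, ⟨0, hN0⟩, x), fun _ => ⟨0, hL⟩) ((y, x, ⟨0, hN0⟩, x), fun _ => ⟨0, hL⟩)
    (fun e => hxy.ne (congrArg (fun t : SP n (q * (2 * n)) q L => t.1.1) e))
  exact cpt_proof _ (FN (h := h) H x y W T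
      (fun ν : Fin (q * (2 * n)) => (finProdFinEquiv.symm ν).1) δ) n n' H H'
    (hA n h (q * (2 * n)) q L r b₀ H D x y W T K' (fun ν => (finProdFinEquiv.symm ν).1)
      (fun w a => finProdFinEquiv (w, a)) I M δ B hr hb₀ hxy
      (fun w a => by simp) (fun w a a' haa => by simpa using haa) hWc hHo hBc hδ hsp hbad)
    (hN n n' h (q * (2 * n)) q L r H H' x y W T _ I M δ hsig hn2 hxy h2 hconn hWl hTl hδ hsp
      hconn' hemb hnemb)

end MP3240N
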