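import Pool.Agent.Lib.MP_3240be_co.N49.Defs

/-!
# MP_3240be_co, board THN, row NFN: the host is not Ramsey for `H'`
-/

set_option autoImplicit false

namespace MP3240N

open Finset MP3240T MP3240W
open Pool.Agent.Lib.MP_3240be_co.H36 (LocCol Blow)
open Pool.Agent.Lib.MP_3240be_co.H36.Chrom (Sparse)

variable {n h N q L : ℕ} {I M : Type}

theorem cN_symm (W : SimpleGraph (Fin q)) (a b : VN n h q L I M) : cN W a b = cN W b a := by
  unfold cN
  exact decide_eq_decide.2 or_comm

/-- The red neighbours of the vertices of `z m ps` lie in `z m ps`, and they are neighbours in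
`H`. -/
theorem red_zN {H : SimpleGraph (Fin n)} {x y : Fin n} {W : SimpleGraph (Fin q)}
    {T : Bool × Fin q → SimpleGraph (Fin L)} {kd : Fin N → Fin q} {δ : M → SP n N q L → I} {m : M}
    {ps : Fin q → Fin L} {v : Fin n} {w : VN n h q L I M}
    (hw : (cls (FN H x y W T kd δ) (cN W) true).Adj (.z m ps v) w) :
    ∃ v', w = .z m ps v' ∧ H.Adj v v' := by
  classical
  obtain ⟨h1, h2, -⟩ := hw
  unfold cN at h2
  rw [decide_eq_true_eq] at h2
  have h3 : ∃ m' ps' v', w = .z m' ps' v' := by
    rcases h2 with h2 | h2 <;> cases w <;> simp only [redN] at h2 <;>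
      first | exact h2.elim | exact ⟨_, _, _, rfl⟩
  obtain ⟨m', ps', v', rfl⟩ := h3
  unfold FN at h1
  rw [SimpleGraph.fromRel_adj] at h1
  rcases h1.2 with ⟨e, e', h4⟩ | ⟨e, e', h4⟩
  · subst e
    subst e'
    exact ⟨v', rfl, h4⟩
  · subst e
    subst e'
    exact ⟨v', rfl, h4.symm⟩

/-- Row NFN. -/
theorem nfn_proof (hR : RdnStatement) (hB : BlnStatement) : NfnStatement := by
  intro n n' h N q L r H H' x y W T kd I M δ hS hn hxy hT hH hW hTa hδ hsp hH' hHH' hH'H hArr
  obtain ⟨b, f, hf, hf'⟩ := hArr (cN W) (cN_symm W)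
  obtain ⟨e, he, he'⟩ := hHH'
  cases b with
  | false =>
    exact hB n h N q L r H x y W T kd I M δ hS hn hxy hT hH hTa hδ hsp
      ⟨fun i => f (e i), fun i j hij => he (hf hij), fun i j hij => hf' _ _ (he' _ _ hij)⟩
  | true =>
    obtain ⟨m, ps, hm⟩ := hR n h N q L r H x y W T kd I M δ hS hH hW (fun i => f (e i))
      (fun i j hij => he (hf hij)) (fun i j hij => hf' _ _ (he' _ _ hij))
    have key : ∀ u u' : Fin n', H'.Walk u u' → (∃ v, f u = .z m ps v) → ∃ v, f u' = .z m ps v := by
      intro u u' p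
      induction p with
      | nil => exact id
      | cons hadj _ ih =>
        rintro ⟨v, hv⟩
        apply ih
        have h1 := hf' _ _ hadj
        rw [hv] at h1
        obtain ⟨v', h2, -⟩ := red_zN h1
        exact ⟨v', h2⟩
    have hall : ∀ u, ∃ v, f u = .z m ps v := by
      intro u
      obtain ⟨p⟩ := hH'.preconnected (e x) u
      exact key _ _ p (hm x)
    choose v hv using hall
    refine hH'H ⟨v, ?_, ?_⟩
    · intro u u' huu
      apply hf
      rw [hv u, hv u', huu]
    · intro u u' huu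
      have h1 := hf' _ _ huu
      rw [hv u, hv u'] at h1
      obtain ⟨v', h2, h3⟩ := red_zN h1
      injection h2 with _ _ h4
      rw [h4]
      exact h3

end MP3240N
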