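import Pool.Agent.Lib.MP_3240be_co.N49.Defs

/-!
# Board THN, row RDN: the red copies of `H` are the sets `z m ps` (helper94)
-/

set_option autoImplicit false

namespace MP3240N

open Finset MP3240T MP3240W
open Pool.Agent.Lib.MP_3240be_co.H36 (LocCol)

namespace Rdn

/-- Labels of the red components. -/
inductive Lb (q L : ℕ) (M : Type) : Type
  | w0 : Lb q L M
  | zz : M → (Fin q → Fin L) → Lb q L M

/-- The label of a vertex. -/
def lbl {n h q L : ℕ} {I M : Type} : VN n h q L I M → Lb q L M
  | .u _ => .w0
  | .c _ _ _ => .w0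
  | .l _ _ _ => .w0
  | .z m ps _ => .zz m ps

/-- The kind of a vertex. -/
def knd {n h q L : ℕ} {I M : Type} : VN n h q L I M → Option (Fin q)
  | .u _ => none
  | .c _ w _ => some w
  | .l _ w _ => some w
  | .z _ _ _ => none

theorem lbl_red {n h N q L : ℕ} {I M : Type} {H : SimpleGraph (Fin n)} {x y : Fin n}
    {W : SimpleGraph (Fin q)} {T : Bool × Fin q → SimpleGraph (Fin L)} {kd : Fin N → Fin q}
    {δ : M → SP n N q L → I} (a b : VN n h q L I M) (h1 : redN W a b)
    (h2 : relN H x y W T kd δ a b ∨ relN H x y W T kd δ b a) : lbl a = lbl b := by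
  rcases a with _ | _ | _ | ⟨m, ps, v⟩ <;> rcases b with _ | _ | _ | ⟨m', ps', v'⟩ <;>
    first
    | rfl
    | exact h1.elim
    | (obtain ⟨h3, h4, -⟩ | ⟨h3, h4, -⟩ := h2
       · show Lb.zz m ps = Lb.zz m' ps'
         rw [h3, h4]
       · show Lb.zz m ps = Lb.zz m' ps'
         rw [h3, h4])

theorem red_of {n h N q L : ℕ} {I M : Type} {H : SimpleGraph (Fin n)} {x y : Fin n}
    {W : SimpleGraph (Fin q)} {T : Bool × Fin q → SimpleGraph (Fin L)} {kd : Fin N → Fin q}
    {δ : M → SP n N q L → I} {a b : VN n h q L I M}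
    (hab : (cls (FN H x y W T kd δ) (cN W) true).Adj a b) :
    (redN W a b ∨ redN W b a) ∧ (relN H x y W T kd δ a b ∨ relN H x y W T kd δ b a) := by
  obtain ⟨h1, h2, -⟩ := hab
  refine ⟨?_, ?_⟩
  · unfold cN at h2
    simpa using h2
  · unfold FN at h1
    rw [SimpleGraph.fromRel_adj] at h1
    exact h1.2

theorem lbl_adj {n h N q L : ℕ} {I M : Type} {H : SimpleGraph (Fin n)} {x y : Fin n}
    {W : SimpleGraph (Fin q)} {T : Bool × Fin q → SimpleGraph (Fin L)} {kd : Fin N → Fin q}
    {δ : M → SP n N q L → I} {a b : VN n h q L I M}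
    (hab : (cls (FN H x y W T kd δ) (cN W) true).Adj a b) : lbl a = lbl b := by
  obtain ⟨h1 | h1, h2⟩ := red_of hab
  · exact lbl_red a b h1 h2
  · exact (lbl_red b a h1 h2.symm).symm

theorem knd_red {n h q L : ℕ} {I M : Type} {W : SimpleGraph (Fin q)} (a b : VN n h q L I M)
    (ha : lbl a = .w0) (h1 : redN W a b) :
    (knd a = none ∧ ∃ w, knd b = some w) ∨
      ∃ w w', knd a = some w ∧ knd b = some w' ∧ W.Adj w w' := by
  rcases a with _ | ⟨i, w, k⟩ | ⟨i, w, k⟩ | ⟨m, ps, v⟩ <;>
    rcases b with _ | ⟨i', w', k'⟩ | ⟨i', w', k'⟩ | ⟨m', ps', v'⟩ <;>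
    first
    | exact h1.elim
    | exact Or.inl ⟨rfl, _, rfl⟩
    | exact Or.inr ⟨_, _, rfl, rfl, h1⟩
    | exact absurd ha (by simp [lbl])

theorem knd_none {n h q L : ℕ} {I M : Type} (a : VN n h q L I M) (ha : lbl a = .w0)
    (h1 : knd a = none) : ∃ i, a = .u i := by
  rcases a with i | ⟨i, w, k⟩ | ⟨i, w, k⟩ | ⟨m, ps, v⟩
  · exact ⟨i, rfl⟩
  · exact absurd h1 (by simp [knd])
  · exact absurd h1 (by simp [knd])
  · exact absurd ha (by simp [lbl])

/-- A function that is constant along the edges of a connected graph is constant. -/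
theorem const_of {n : ℕ} {H : SimpleGraph (Fin n)} (hc : H.Connected) {L : Type} (g : Fin n → L)
    (hg : ∀ i j, H.Adj i j → g i = g j) (i j : Fin n) : g i = g j := by
  obtain ⟨p⟩ := hc.preconnected i j
  induction p with
  | nil => rfl
  | cons hadj _ ih => exact (hg _ _ hadj).trans ih

/-- At most `h` vertices are mapped to common hubs. -/
theorem card_u {n h q L : ℕ} {I M : Type} (f : Fin n → VN n h q L I M)
    (hf : Function.Injective f) (S : Finset (Fin n)) (hS : ∀ i ∈ S, ∃ k, f i = .u k) :
    S.card ≤ h := by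
  classical
  by_cases hh : h = 0
  · subst hh
    rw [Nat.le_zero, Finset.card_eq_zero, Finset.eq_empty_iff_forall_notMem]
    intro i hi
    obtain ⟨k, -⟩ := hS i hi
    exact k.elim0
  · have h0 : 0 < h := Nat.pos_of_ne_zero hh
    let φ : VN n h q L I M → Fin h := fun a => match a with
      | .u i => i
      | _ => ⟨0, h0⟩
    calc S.card ≤ (univ : Finset (Fin h)).card := by
          refine Finset.card_le_card_of_injOn (fun i => φ (f i)) (fun _ _ => Finset.mem_univ _) ?_
          intro i hi j hj hij
          obtain ⟨k, hk⟩ := hS i hi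
          obtain ⟨k', hk'⟩ := hS j hj
          apply hf
          have h5 : φ (f i) = φ (f j) := hij
          rw [hk, hk'] at h5
          have h6 : k = k' := h5
          rw [hk, hk', h6]
      _ = h := by rw [Finset.card_univ, Fintype.card_fin]

end Rdn

open Rdn in
/-- Row RDN. -/
theorem rdn_proof : RdnStatement := by
  classical
  intro n h N q L r H x y W T kd I M δ hsig hc hW f hinj hf
  obtain ⟨i0⟩ := hc.nonempty
  have hconst : ∀ i j, lbl (f i) = lbl (f j) :=
    const_of hc (fun i => lbl (f i)) (fun i j hij => lbl_adj (hf i j hij))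
  cases hl : lbl (f i0) with
  | w0 =>
    exfalso
    have hl' : ∀ i, lbl (f i) = .w0 := fun i => (hconst i i0).trans hl
    -- the kinds that occur
    let X : Finset (Fin q) := univ.filter (fun w => ∃ i, knd (f i) = some w)
    have hX : ∀ i w, knd (f i) = some w → w ∈ X := fun i w hi =>
      Finset.mem_filter.2 ⟨Finset.mem_univ _, i, hi⟩
    have hX' : ∀ w ∈ X, ∃ i, knd (f i) = some w := fun w hw => (Finset.mem_filter.1 hw).2
    have hXcard : X.card ≤ n := by
      have : Nonempty (Fin n) := ⟨i0⟩
      choose! ix hix using hX'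
      calc X.card ≤ (univ : Finset (Fin n)).card := by
            refine Finset.card_le_card_of_injOn ix (fun _ _ => Finset.mem_univ _) ?_
            intro w hw w' hw' e
            have h1 := hix w hw
            have h2 := hix w' hw'
            have e' : ix w = ix w' := e
            rw [e', h2] at h1
            exact (Option.some.inj h1).symm
        _ = n := by rw [Finset.card_univ, Fintype.card_fin]
    obtain ⟨g, hg, hgX⟩ := hW X hXcard
    let κ : Fin n → Option (Fin r) := fun i => (knd (f i)).map (fun w => ⟨g w, hg w⟩)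
    have hκ : ∀ i j, H.Adj i j → κ i ≠ κ j := by
      have key : ∀ i j, redN W (f i) (f j) → κ i ≠ κ j := by
        intro i j hr
        obtain ⟨h1, w, h2⟩ | ⟨w, w', h1, h2, h3⟩ := knd_red (f i) (f j) (hl' i) hr
        · show (knd (f i)).map _ ≠ (knd (f j)).map _
          rw [h1, h2]
          simp
        · show (knd (f i)).map _ ≠ (knd (f j)).map _
          rw [h1, h2]
          intro h4
          have h5 : g w = g w' := by simpa using h4
          exact hgX w (hX i w h1) w' (hX j w' h2) h3 h5
      intro i j hij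
      obtain ⟨h1 | h1, -⟩ := red_of (hf i j hij)
      · exact key i j h1
      · exact (key j i h1).symm
    have h1 := hsig κ hκ
    have h2 : (univ.filter (fun x => κ x = none)).card ≤ h := by
      refine card_u f hinj _ ?_
      intro i hi
      have h3 : κ i = none := (Finset.mem_filter.1 hi).2
      have h4 : knd (f i) = none := by
        have h5 : (knd (f i)).map (fun w => (⟨g w, hg w⟩ : Fin r)) = none := h3
        simpa using h5
      exact knd_none (f i) (hl' i) h4
    omega
  | zz m ps =>
    refine ⟨m, ps, fun i => ?_⟩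
    have hi : lbl (f i) = .zz m ps := (hconst i i0).trans hl
    generalize f i = a at hi
    rcases a with _ | _ | _ | ⟨m', ps', v'⟩ <;> simp_all [lbl]

end MP3240N
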