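import Pool.Agent.Lib.MP_3240be_co.N49.Frc

/-!
# MP_3240be_co, board THN: row RUL (RULES 1 and 2)
-/

set_option autoImplicit false

namespace MP3240N

open Finset MP3240T MP3240W
open Pool.Agent.Lib.MP_3240be_co.H36 (LocCol Blow)

/-- A nonempty finite set with at most `m` elements is the image of `Fin m`. -/
theorem exists_enum {α : Type} [DecidableEq α] (T : Finset α) (m : ℕ) (hT : T.Nonempty)
    (hc : T.card ≤ m) : ∃ f : Fin m → α, ∀ s ∈ T, ∃ k, f k = s := by
  obtain ⟨d, hd⟩ := hT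
  refine ⟨fun k => if hk : (k : ℕ) < T.card then (T.equivFin.symm ⟨k, hk⟩).1 else d, ?_⟩
  intro s hs
  refine ⟨⟨T.equivFin ⟨s, hs⟩, lt_of_lt_of_le (T.equivFin ⟨s, hs⟩).2 hc⟩, ?_⟩
  have h1 : ((T.equivFin ⟨s, hs⟩ : Fin T.card) : ℕ) < T.card := (T.equivFin ⟨s, hs⟩).2
  simp only
  rw [dif_pos h1]
  simp

theorem rul_proof (hF : FrcStatement) (hE : EmrStatement) : RulStatement := by
  classical
  intro n h N q L r b₀ H D x y W T K' kd I M δ B c hr hc hno Cs hhst i K b hfine v A hv hA hAu hAv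
    hAn
  have hKi : ∀ j j', j ≠ j' → K j ≠ K j' := fun j j' hj h1 => (hfine.adj j j' hj).ne h1
  -- the sets `S j`
  have hS0 : ∀ j, ∃ S : Finset (VN n h q L I M), S ⊆ A j ∧ S.card ≤ n ∧
      (n ≤ S.card ∨ ∃ i' w t, v = .l (some i') w t ∧ W.Adj w (K j)) := by
    intro j
    rcases hAn j with h1 | h1
    · obtain ⟨S, hS1, hS2⟩ := exists_subset_card_eq h1
      exact ⟨S, hS1, hS2.le, Or.inl hS2.ge⟩
    · exact ⟨∅, empty_subset _, by simp, Or.inr h1⟩
  choose S hSA hSc hSn using hS0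
  -- the special vertices
  have hsp : ∃ f : Fin (sm n r) → VN n h q L I M,
      ∀ s ∈ insert v (univ.biUnion S), ∃ k, f k = s := by
    refine exists_enum _ _ ⟨v, mem_insert_self _ _⟩ ?_
    refine (card_insert_le _ _).trans ?_
    have h1 : (univ.biUnion S).card ≤ r * n := by
      refine card_biUnion_le.trans ?_
      refine (sum_le_card_nsmul univ _ n (fun j _ => hSc j)).trans ?_
      simp
    rw [sm]
    omega
  obtain ⟨sp, hsp⟩ := hsp
  obtain ⟨Z⟩ := hhst i sp
  obtain ⟨b', hcross, hρ, -, hlast⟩ := hF n h N q L r b₀ H D x y W T K' kd I M δ B c hr hc hno Cs i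
    sp Z K (fun _ => true) hfine.adj
  have hr0 : 0 < r := by omega
  -- `b' = b`
  have hbb : b' = b := by
    by_contra hne
    have h1 : b = !b' := by
      cases b <;> cases b' <;> simp_all
    have h2 := (hρ ⟨0, hr0⟩).2
    have h3 := hfine.one ⟨0, hr0⟩
    rw [← h1] at h2
    have h4 : ((Cs.s none (K ⟨0, hr0⟩)).2 b : ℕ) = r := h2
    omega
  subst hbb
  -- the blow-ups with one part
  have hblow : ∀ j : Fin r, ∃ g : Fin n → Fin b₀, Function.Injective g := by
    intro j
    obtain ⟨F, hF1, _⟩ := (Z.cop true (K j)).2.2 b'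
    have h1 : ((Cs.s (plc i true) (K j)).2 b' : ℕ) = 1 := (hρ j).1
    exact ⟨F ⟨0, by omega⟩, hF1 _⟩
  choose g hg using hblow
  set E : Fin r → Fin n → VN n h q L I M := fun j a => .l none (K j) (Z.e true (K j) (g j a))
    with hEdef
  -- the colour of a special vertex to a world
  have hspec : ∀ (s : VN n h q L I M) (j : Fin r), s ∈ insert v (univ.biUnion S) →
      (∀ k, s ≠ .u k) → (∀ p w k, s ≠ .c p w k) →
      (∀ a, (FN H x y W T kd δ).Adj s (.l none (K j) a)) →
      ∀ a, (cls (FN H x y W T kd δ) c b').Adj s (E j a) := by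
    intro s j hs hsu hsc hadj a
    have h1 := hlast s j hsu hsc (fun a => hadj _)
    push Not at h1
    obtain ⟨a', ha'⟩ := h1
    obtain ⟨k, hk⟩ := hsp s hs
    have h2 := Z.spe true (K j) k a' (g j a)
    rw [hk] at h2
    have h3 : c s (E j a) = b' := by
      have h4 : c s (E j a) = c s (.l (plc i true) (K j) (Z.e true (K j) a')) := h2.symm
      rw [h4]
      have h5 : c s (.l (plc i true) (K j) (Z.e true (K j) a')) ≠ !b' := ha'
      cases h6 : c s (.l (plc i true) (K j) (Z.e true (K j) a')) <;> cases b' <;> simp_all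
    exact ⟨hadj _, h3, by rw [hc]; exact h3⟩
  refine hno b' (hE n r h H D (VN n h q L I M) (cls (FN H x y W T kd δ) c b') E (fun k => .u k) v S
    ?_ ?_ ?_ ?_ ?_ ?_ ?_ ?_ ?_ ?_ ?_ ?_)
  · intro j a a' haa
    injection haa with _ _ h3
    exact hg j ((Z.cop true (K j)).1.1 h3)
  · intro k k' hkk
    injection hkk
  · intro j j' a a' hj
    refine ⟨fn_adj_ll H x y W T kd δ _ _ _ _ _ _ (Or.inl (hfine.adj j j' hj)), ?_, ?_⟩
    · exact hcross j j' hj _ _
    · exact hcross j' j hj.symm _ _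
  · intro k j a
    have h1 : c (.u k) (E j a) = b' := by
      have h2 := (Z.cop true (K j)).2.1 (g j a) k
      have h3 := hfine.up j k
      exact h2.trans h3
    exact ⟨fn_adj_ul H x y W T kd δ k _ _ _, h1, by rw [hc]; exact h1⟩
  · intro j
    rcases hSn j with h1 | ⟨i', w, t, hvl, hw⟩
    · exact Or.inl h1
    · refine Or.inr (hspec v j (mem_insert_self _ _) ?_ ?_ ?_)
      · intro k hk; rw [hvl] at hk; cases hk
      · intro p w' k hk; rw [hvl] at hk; cases hk
      · intro a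
        rw [hvl]
        exact fn_adj_ll H x y W T kd δ _ _ _ _ _ _ (Or.inl hw)
  · intro j a ha
    obtain ⟨h1, h2⟩ := hAv j a (hSA j ha)
    exact ⟨h1, h2, by rw [hc]; exact h2⟩
  · intro j a ha k
    have h1 := hAu j a (hSA j ha) k
    obtain ⟨i', t, rfl⟩ := hA j a (hSA j ha)
    exact ⟨fn_adj_ul H x y W T kd δ k _ _ _, h1, by rw [hc]; exact h1⟩
  · intro j j' hj a ha a'
    obtain ⟨i', t, hat⟩ := hA j a (hSA j ha)
    refine hspec a j' ?_ ?_ ?_ ?_ a'
    · exact mem_insert_of_mem (mem_biUnion.mpr ⟨j, mem_univ _, ha⟩)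
    · intro k hk; rw [hat] at hk; cases hk
    · intro p w' k hk; rw [hat] at hk; cases hk
    · intro a''
      rw [hat]
      exact fn_adj_ll H x y W T kd δ _ _ _ _ _ _ (Or.inl (hfine.adj j j' hj))
  · intro j j' hj
    rw [disjoint_left]
    intro a ha ha'
    obtain ⟨i', t, hat⟩ := hA j a (hSA j ha)
    obtain ⟨i'', t', hat'⟩ := hA j' a (hSA j' ha')
    rw [hat] at hat'
    injection hat' with _ h2 _
    exact hKi j j' hj h2
  · intro j a ha j' a' heq
    obtain ⟨i', t, hat⟩ := hA j a (hSA j ha)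
    rw [hat] at heq
    injection heq with h1 _ _
    cases h1
  · intro j a heq
    rcases hv with ⟨m, ps, k, hv⟩ | ⟨i', w, t, hv⟩
    · rw [hv] at heq; cases heq
    · rw [hv] at heq
      injection heq with h1 _ _
      cases h1
  · intro k heq
    rcases hv with ⟨m, ps, k', hv⟩ | ⟨i', w, t, hv⟩
    · rw [hv] at heq; cases heq
    · rw [hv] at heq; cases heq

end MP3240N
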