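import Pool.Agent.Lib.MP_3240be_co.N49.Arn
import Pool.Agent.Lib.MP_3240be_co.N49.Bln
import Pool.Agent.Lib.MP_3240be_co.N49.Cla
import Pool.Agent.Lib.MP_3240be_co.N49.Crn
import Pool.Agent.Lib.MP_3240be_co.N49.Emr
import Pool.Agent.Lib.MP_3240be_co.N49.Fine
import Pool.Agent.Lib.MP_3240be_co.N49.Frc
import Pool.Agent.Lib.MP_3240be_co.N49.Gan
import Pool.Agent.Lib.MP_3240be_co.N49.Grp
import Pool.Agent.Lib.MP_3240be_co.N49.Hb
import Pool.Agent.Lib.MP_3240be_co.N49.Hst
import Pool.Agent.Lib.MP_3240be_co.N49.Kec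
import Pool.Agent.Lib.MP_3240be_co.N49.Kew
import Pool.Agent.Lib.MP_3240be_co.N49.Kw
import Pool.Agent.Lib.MP_3240be_co.N49.Mnn
import Pool.Agent.Lib.MP_3240be_co.N49.Nfn
import Pool.Agent.Lib.MP_3240be_co.N49.Rdn
import Pool.Agent.Lib.MP_3240be_co.N49.Rul
import Pool.Agent.Lib.MP_3240be_co.H43.Final2

/-!
# MP_3240be_co: Theorem N, assembled
-/

set_option autoImplicit false

namespace MP3240N

open Finset MP3240T MP3240W MP3240WC
open Pool.Agent.Lib.MP_3240be_co.H36.Chrom (ArrowsT iso_of_le)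

theorem mnn_main : MnnStatement :=
  mnn_proof
    (arn_proof cla_proof hst_proof (fine_proof (frc_proof (key_proof kew_proof kec_proof)))
      (rul_proof (frc_proof (key_proof kew_proof kec_proof)) emr_proof))
    (nfn_proof rdn_proof (bln_proof pc2_proof (gan_proof g0_proof)))
    grp_proof hb_proof kw_proof hyp_proof

theorem crn_main : CrnStatement := crn_proof mnn_main two_proof

end MP3240N
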