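import Pool.Agent.Lib.MP_3240be_co.H36.Chrom.Hyper

/-!
# MP_3240be_co: leaf lemma, row R8: the assignment lemma

Blobs `b` are attached to the passenger sets `(j, io b j)` at the two roots `fs b j`, `sn b j`.
Every blob gets a colouring `f b` of the positions from a given family `𝓕 (cl b)`, every passenger
set gets a colouring, the colours of the roots are equal to the colours of their positions, and
blobs of one class with a common passenger set have the same colouring.
-/

set_option autoImplicit false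

namespace MP3240N49

open Finset
open Pool.Agent.Lib.MP_3240be_co.H36.Chrom (Sparse Leaf)

theorem assign {n s r : ℕ} {Bl J Φ : Type} [DecidableEq Bl] {xs ys : Fin s → Fin n}
    {io : Bl → Fin s → J} (ioi : ∀ b, Function.Injective (io b)) (fs sn : Bl → Fin s → Fin n)
    (hne : ∀ b j, fs b j ≠ sn b j) (cl : Bl → Φ)
    (hcl : ∀ b b', cl b = cl b' → ∀ j, fs b j = fs b' j ∧ sn b j = sn b' j)
    (𝓕 : Φ → Set (Fin n → Fin r)) (hN : ∀ a, ∃ f, f ∈ 𝓕 a)
    (hM : ∀ a j c c', ∃ f ∈ 𝓕 a, f (xs j) = c ∧ f (ys j) = c') :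
    ∀ (N : ℕ) (U : Finset Bl), U.card = N →
      (∀ S ⊆ U, 2 ≤ S.card → ∃ m ∈ S, ∃ m' ∈ S, m ≠ m' ∧ Leaf io S m ∧ Leaf io S m') →
      ∀ b₀ ∈ U, ∀ f₀ ∈ 𝓕 (cl b₀), ∃ (f : Bl → Fin n → Fin r) (g : Fin s → J → Fin n → Fin r),
        (∀ b ∈ U, f b ∈ 𝓕 (cl b)) ∧
        (∀ b ∈ U, ∀ j, f b (xs j) = g j (io b j) (fs b j) ∧
          f b (ys j) = g j (io b j) (sn b j)) ∧
        (∀ b ∈ U, ∀ b' ∈ U, cl b = cl b' → ∀ j, io b j = io b' j → f b = f b') ∧
        f b₀ = f₀ := by
  classical
  intro N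
  induction N with
  | zero =>
    intro U hU _ b₀ hb₀
    rw [Finset.card_eq_zero.1 hU] at hb₀
    exact absurd hb₀ (Finset.notMem_empty _)
  | succ N ih =>
    intro U hU hL b₀ hb₀ f₀ hf₀
    rcases Nat.lt_or_ge U.card 2 with hlt | hge
    · -- one blob
      have h1 : U.card = 1 := by
        have := Finset.card_pos.2 ⟨b₀, hb₀⟩
        omega
      obtain ⟨b1, hb1⟩ := Finset.card_eq_one.1 h1
      subst hb1
      rw [Finset.mem_singleton] at hb₀
      subst hb₀
      refine ⟨fun _ => f₀, fun j _ v => if v = fs b₀ j then f₀ (xs j) else f₀ (ys j), ?_, ?_, ?_,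
        rfl⟩
      · intro b hb
        rw [Finset.mem_singleton.1 hb]
        exact hf₀
      · intro b hb j
        rw [Finset.mem_singleton.1 hb]
        exact ⟨(if_pos rfl).symm, (if_neg (hne _ _).symm).symm⟩
      · intro b _ b' _ _ _ _
        rfl
    · -- a leaf `m ≠ b₀`
      obtain ⟨m, hm, hmb, hleaf⟩ : ∃ m ∈ U, m ≠ b₀ ∧ Leaf io U m := by
        obtain ⟨m, hm, m', hm', hmm, h1, h2⟩ := hL U (Finset.Subset.refl _) hge
        by_cases h : m = b₀
        · exact ⟨m', hm', fun h' => hmm (h.trans h'.symm), h2⟩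
        · exact ⟨m, hm, h, h1⟩
      obtain ⟨f', g', i1, i2, i3, i4⟩ := ih (U.erase m)
        (by rw [Finset.card_erase_of_mem hm, hU]; rfl)
        (fun S hS => hL S (hS.trans (Finset.erase_subset _ _))) b₀
        (Finset.mem_erase.2 ⟨hmb.symm, hb₀⟩) f₀ hf₀
      -- shared passenger sets of `m` are equal
      have hsh : ∀ j j₀, (∃ b ∈ U.erase m, io m j = io b j) → (∃ b ∈ U.erase m, io m j₀ = io b j₀) →
          j = j₀ := by
        rintro j j₀ ⟨b, hb, e⟩ ⟨b', hb', e'⟩
        exact ioi m (hleaf b (Finset.mem_of_mem_erase hb) b' (Finset.mem_of_mem_erase hb')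
          (Finset.ne_of_mem_erase hb) (Finset.ne_of_mem_erase hb') j j j₀ j₀ e e')
      -- the colouring of `m`
      obtain ⟨fm, hfm, q1, q2⟩ : ∃ fm ∈ 𝓕 (cl m),
          (∀ j, (∃ b ∈ U.erase m, io m j = io b j) → fm (xs j) = g' j (io m j) (fs m j) ∧
            fm (ys j) = g' j (io m j) (sn m j)) ∧
          (∀ b ∈ U.erase m, cl m = cl b → ∀ j, io m j = io b j → fm = f' b) := by
        by_cases hA : ∃ m' ∈ U.erase m, ∃ j₀, io m j₀ = io m' j₀ ∧ cl m = cl m'
        · obtain ⟨m', hm', j₀, hj₀, hc⟩ := hA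
          refine ⟨f' m', by rw [hc]; exact i1 m' hm', ?_, ?_⟩
          · intro j hj
            obtain rfl : j = j₀ := hsh j j₀ hj ⟨m', hm', hj₀⟩
            have h1 := i2 m' hm' j
            rw [hj₀, (hcl m m' hc j).1, (hcl m m' hc j).2]
            exact h1
          · intro b hb hcb j hj
            obtain rfl : j = j₀ := hsh j j₀ ⟨b, hb, hj⟩ ⟨m', hm', hj₀⟩
            exact i3 m' hm' b hb (hc.symm.trans hcb) j (hj₀.symm.trans hj)
        · push Not at hA
          by_cases hB : ∃ j₀, ∃ b ∈ U.erase m, io m j₀ = io b j₀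
          · obtain ⟨j₀, hj₀⟩ := hB
            obtain ⟨fm, hfm, e1, e2⟩ := hM (cl m) j₀ (g' j₀ (io m j₀) (fs m j₀))
              (g' j₀ (io m j₀) (sn m j₀))
            refine ⟨fm, hfm, ?_, ?_⟩
            · intro j hj
              obtain rfl : j = j₀ := hsh j j₀ hj hj₀
              exact ⟨e1, e2⟩
            · intro b hb hcb j hj
              exact absurd hcb (hA b hb j hj)
          · obtain ⟨fm, hfm⟩ := hN (cl m)
            refine ⟨fm, hfm, ?_, ?_⟩
            · intro j hj
              exact absurd ⟨j, hj⟩ hB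
            · intro b hb hcb j hj
              exact absurd ⟨j, b, hb, hj⟩ hB
      have hupd : ∀ b ∈ U, b ≠ m → Function.update f' m fm b = f' b :=
        fun b _ hb => Function.update_of_ne hb _ _
      refine ⟨Function.update f' m fm, fun j i v =>
        if i = io m j ∧ ¬ ∃ b ∈ U.erase m, io m j = io b j then
          (if v = fs m j then fm (xs j) else fm (ys j)) else g' j i v, ?_, ?_, ?_, ?_⟩
      · intro b hb
        by_cases hbm : b = m
        · subst hbm
          rw [Function.update_self]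
          exact hfm
        · rw [hupd b hb hbm]
          exact i1 b (Finset.mem_erase.2 ⟨hbm, hb⟩)
      · intro b hb j
        by_cases hbm : b = m
        · subst hbm
          rw [Function.update_self]
          by_cases hs : ∃ b' ∈ U.erase b, io b j = io b' j
          · have hn : ¬ (io b j = io b j ∧ ¬ ∃ b' ∈ U.erase b, io b j = io b' j) :=
              fun h => h.2 hs
            exact ⟨(q1 j hs).1.trans (if_neg hn).symm, (q1 j hs).2.trans (if_neg hn).symm⟩
          · have hn : io b j = io b j ∧ ¬ ∃ b' ∈ U.erase b, io b j = io b' j := ⟨rfl, hs⟩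
            exact ⟨((if_pos hn).trans (if_pos rfl)).symm,
              ((if_pos hn).trans (if_neg (hne _ _).symm)).symm⟩
        · rw [hupd b hb hbm]
          have hbe : b ∈ U.erase m := Finset.mem_erase.2 ⟨hbm, hb⟩
          have hn : ¬ (io b j = io m j ∧ ¬ ∃ b' ∈ U.erase m, io m j = io b' j) :=
            fun h => h.2 ⟨b, hbe, h.1.symm⟩
          exact ⟨(i2 b hbe j).1.trans (if_neg hn).symm, (i2 b hbe j).2.trans (if_neg hn).symm⟩
      · intro b hb b' hb' hc j hj
        by_cases hbm : b = m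
        · subst hbm
          by_cases hbm' : b' = b
          · rw [hbm']
          · rw [Function.update_self, hupd b' hb' hbm']
            exact q2 b' (Finset.mem_erase.2 ⟨hbm', hb'⟩) hc j hj
        · by_cases hbm' : b' = m
          · subst hbm'
            rw [Function.update_self, hupd b hb hbm]
            exact (q2 b (Finset.mem_erase.2 ⟨hbm, hb⟩) hc.symm j hj.symm).symm
          · rw [hupd b hb hbm, hupd b' hb' hbm']
            exact i3 b (Finset.mem_erase.2 ⟨hbm, hb⟩) b' (Finset.mem_erase.2 ⟨hbm', hb'⟩) hc j hj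
      · rw [hupd b₀ hb₀ hmb.symm]
        exact i4

/-- The version for a possibly empty set of blobs. -/
theorem assign' {n s r : ℕ} {Bl J Φ : Type} [DecidableEq Bl] {xs ys : Fin s → Fin n}
    {io : Bl → Fin s → J} (ioi : ∀ b, Function.Injective (io b)) (fs sn : Bl → Fin s → Fin n)
    (hne : ∀ b j, fs b j ≠ sn b j) (cl : Bl → Φ)
    (hcl : ∀ b b', cl b = cl b' → ∀ j, fs b j = fs b' j ∧ sn b j = sn b' j)
    (𝓕 : Φ → Set (Fin n → Fin r)) (hN : ∀ a, ∃ f, f ∈ 𝓕 a) (c₀ : Fin r)
    (hM : ∀ a j c c', ∃ f ∈ 𝓕 a, f (xs j) = c ∧ f (ys j) = c') (U : Finset Bl)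
    (hL : ∀ S ⊆ U, 2 ≤ S.card → ∃ m ∈ S, ∃ m' ∈ S, m ≠ m' ∧ Leaf io S m ∧ Leaf io S m') :
    ∃ (f : Bl → Fin n → Fin r) (g : Fin s → J → Fin n → Fin r),
        (∀ b ∈ U, f b ∈ 𝓕 (cl b)) ∧
        (∀ b ∈ U, ∀ j, f b (xs j) = g j (io b j) (fs b j) ∧
          f b (ys j) = g j (io b j) (sn b j)) ∧
        (∀ b ∈ U, ∀ b' ∈ U, cl b = cl b' → ∀ j, io b j = io b' j → f b = f b') := by
  rcases U.eq_empty_or_nonempty with h | ⟨b₀, hb₀⟩
  · subst h
    exact ⟨fun _ _ => c₀, fun _ _ _ => c₀, fun b hb => absurd hb (Finset.notMem_empty _),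
      fun b hb => absurd hb (Finset.notMem_empty _), fun b hb => absurd hb (Finset.notMem_empty _)⟩
  · obtain ⟨f₀, hf₀⟩ := hN (cl b₀)
    obtain ⟨f, g, h1, h2, h3, -⟩ := assign ioi fs sn hne cl hcl 𝓕 hN hM U.card U rfl hL b₀ hb₀ f₀
      hf₀
    exact ⟨f, g, h1, h2, h3⟩

end MP3240N49
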