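import Pool.Agent.Lib.MP_3240be_co.N49.Csep
import Pool.Agent.Lib.MP_3240be_co.N49.Asg

/-!
# MP_3240be_co: leaf lemma, row R8: (A) for the gadget with complexes

`a_e2`: `M` is embedded in the gadget with complexes, not in one body, every graph `H[X]` with
fewer than `|V(M)|` vertices has the property `PS (p + 1)`; then `M` has it.
-/

set_option autoImplicit false

namespace MP3240N49

open Finset MP3240LEAF
open MP3240R hiding Fo PR
open MP3240C (CxB)
open MP3240CO (XG Near)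
open MP3240X (VQ cq bz Frst Con ConS frst_of_sparse frst_pair)
open Pool.Agent.Lib.MP_3240be_co.H36.Chrom (Sparse Leaf)

/-- Separation of `w` from the ends of the edge `x y` (if they are positions). -/
theorem sepg {n r : ℕ} {H : SimpleGraph (Fin n)} {P : Finset (Fin n)} (c₀ : Fin r)
    (hPS : ∀ X : Finset (Fin n), X.card ≤ P.card + 1 → PS r (H.induce (X : Set (Fin n))))
    {x y w : Fin n} (hxy : H.Adj x y) (hw : w ∈ P) (hwx : w ≠ x) (hwy : w ≠ y)
    (hn : H.Adj w x ∨ H.Adj w y) : ∃ f ∈ RF (r := r) H P, ∃ D : Set (Fin n), w ∈ D ∧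
      (x ∈ P → x ∉ D) ∧ (y ∈ P → y ∉ D) ∧ ∀ a b, a ∈ D → sm H P f a b → b ∈ D := by
  classical
  -- the case `w ~ x`
  have key : ∀ x y : Fin n, H.Adj x y → w ≠ x → w ≠ y → H.Adj w x →
      ∃ f ∈ RF (r := r) H P, ∃ D : Set (Fin n), w ∈ D ∧
      (x ∈ P → x ∉ D) ∧ (y ∈ P → y ∉ D) ∧ ∀ a b, a ∈ D → sm H P f a b → b ∈ D := by
    intro x y hxy hwx hwy hn
    by_cases hy : y ∈ P
    · obtain ⟨f, hf, D, d1, d2, d3, d4⟩ := RF.sep (P := insert x P) c₀
        (hPS _ (Finset.card_insert_le _ _)) (Finset.mem_insert_of_mem hy)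
        (Finset.mem_insert_self _ _) (Finset.mem_insert_of_mem hw) hxy hn.symm hwy.symm
      refine ⟨f, RF.sub hf (Finset.subset_insert _ _), D, d1, fun _ => d2, fun _ => d3, ?_⟩
      rintro a b ha ⟨h1, h2, h3, h4⟩
      exact d4 a b ha ⟨h1, Finset.mem_insert_of_mem h2, Finset.mem_insert_of_mem h3, h4⟩
    · by_cases hx : x ∈ P
      · obtain ⟨f, hf, D, d1, d2, d3, d4⟩ := RF.sep1 (P := P) c₀ (hPS _ (Nat.le_succ _))
          (y := y) hx hw hxy hn.symm hwy.symm
        exact ⟨f, hf, D, d1, fun _ => d2, d3, d4⟩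
      · obtain ⟨f, hf⟩ := RF.ne (P := P) c₀ (hPS _ (Nat.le_succ _))
        exact ⟨f, hf, {a | a ∈ P}, hw, fun h => absurd h hx, fun h => absurd h hy,
          fun a b _ h => h.2.2.1⟩
  rcases hn with hn | hn
  · exact key x y hxy hwx hwy hn
  · obtain ⟨f, hf, D, d1, d2, d3, d4⟩ := key y x hxy.symm hwy hwx hn
    exact ⟨f, hf, D, d1, d3, d2, d4⟩

/-- The colours of the vertices of complexes. -/
def oc {p : ℕ} (q : Fin (p + 1)) : Option (Fin p) → Fin (p + 1)
  | none => q
  | some t => q.succAbove t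

theorem oc_inj {p : ℕ} (q : Fin (p + 1)) {a b : Option (Fin p)} (h : oc q a = oc q b) : a = b := by
  cases a with
  | none =>
    cases b with
    | none => rfl
    | some t => exact absurd h.symm (Fin.succAbove_ne q t)
  | some t =>
    cases b with
    | none => exact absurd h (Fin.succAbove_ne q t)
    | some t' => rw [Fin.succAbove_right_injective h]

section main
variable {n s p : ℕ} {H : SimpleGraph (Fin n)} {Bl J C V Φ : Type} [Fintype V]
  {M : SimpleGraph V} {xs ys : Fin s → Fin n} {ty : Bl → Fin s → H.Dart} {io : Bl → Fin s → J}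
  {R : C → C → Prop} {A : C → Prop} {F : V → VQ H s Bl J C}

omit [Fintype V] in
theorem posB_congr {b b' : Bl} (h : ty b = ty b') (x : VQ H s Bl J C) :
    posB xs ys ty b x = posB xs ys ty b' x := by
  cases x with
  | b _ w => rfl
  | z j i v =>
    unfold posB
    rw [h]
  | g _ _ _ w _ => rfl

omit [Fintype V] in
/-- The positions of the roots. -/
theorem pos_root {b : Bl} {j : Fin s} {v : Fin n}
    (h : InBlob (C := C) ty io b (.z j (io b j) v)) :
    posB (C := C) (Bl := Bl) xs ys ty b (.z j (io b j) v) = xs j ∨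
      posB (C := C) (Bl := Bl) xs ys ty b (.z j (io b j) v) = ys j := by
  rcases h with ⟨w, h⟩ | ⟨j', h | h⟩
  · cases h
  · injection h with e1 e2 e3
    subst e1
    rw [e3]
    exact Or.inl (posB_fst _ _ _ _ _ _)
  · injection h with e1 e2 e3
    subst e1
    rw [e3]
    exact Or.inr (posB_snd _ _ _ _ _ _)

open Classical in
/-- The positions of the class of `b`. -/
noncomputable def PC (xs ys : Fin s → Fin n) (ty : Bl → Fin s → H.Dart) (io : Bl → Fin s → J)
    (F : V → VQ H s Bl J C) (cl : Bl → Φ) (b : Bl) : Finset (Fin n) :=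
  (univ.filter (fun u => ∃ b' ∈ US F univ, cl b' = cl b ∧ InBlob ty io b' (F u))).image
    (fun u => posB xs ys ty b (F u))

theorem PC_congr {cl : Bl → Φ} (hcl : ∀ b b', cl b = cl b' → ty b = ty b') {b b' : Bl}
    (h : cl b = cl b') : PC xs ys ty io F cl b = PC xs ys ty io F cl b' := by
  classical
  unfold PC
  rw [h]
  apply Finset.image_congr
  intro u _
  exact posB_congr (hcl b b' h) _

theorem mem_PC {cl : Bl → Φ} {b : Bl} (hb : b ∈ US F univ) {u : V}
    (h : InBlob ty io b (F u)) : posB xs ys ty b (F u) ∈ PC xs ys ty io F cl b := by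
  classical
  unfold PC
  exact Finset.mem_image_of_mem (fun u => posB xs ys ty b (F u))
    (Finset.mem_filter.2 ⟨Finset.mem_univ _, b, hb, rfl, h⟩)

theorem card_PC {cl : Bl → Φ} {b : Bl} {T : Finset V}
    (h : ∀ u b', cl b' = cl b → InBlob ty io b' (F u) →
      ∃ u' ∈ T, posB xs ys ty b (F u') = posB xs ys ty b (F u)) :
    (PC xs ys ty io F cl b).card ≤ T.card := by
  classical
  have h1 : PC xs ys ty io F cl b ⊆ T.image (fun u => posB xs ys ty b (F u)) := by
    unfold PC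
    intro a ha
    obtain ⟨u, hu, rfl⟩ := Finset.mem_image.1 ha
    obtain ⟨-, b', -, hb, hin⟩ := Finset.mem_filter.1 hu
    obtain ⟨u', hu', he⟩ := h u b' hb hin
    exact Finset.mem_image.2 ⟨u', hu', he⟩
  exact (Finset.card_le_card h1).trans Finset.card_image_le

/-- The elements of complexes. -/
theorem exists_Y (hV : Fintype.card V ≤ n) : ∃ Y : Finset C, Y.card ≤ n ∧
    ∀ u j i φ w c, F u = .g j i φ w c → c ∈ Y := by
  classical
  refine ⟨univ.biUnion (fun u => match F u with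
    | .g _ _ _ _ c => {c}
    | _ => ∅), ?_, ?_⟩
  · refine (Finset.card_biUnion_le.trans ((Finset.sum_le_card_nsmul _ _ 1 ?_).trans
      (le_of_eq ?_))).trans hV
    · intro u _
      rcases hF : F u with ⟨b', w'⟩ | ⟨j, i, v⟩ | ⟨j, i, φ, w, c⟩
      · simp
      · simp
      · simp
    · rw [smul_eq_mul, mul_one, Finset.card_univ]
  · intro u j i φ w c h
    rw [Finset.mem_biUnion]
    refine ⟨u, Finset.mem_univ _, ?_⟩
    rw [h]
    simp

/-- From the colourings of positions and passengers to the colouring of the vertices. -/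
theorem col_of_fg (hI : Is2 H p M xs ys ty io R A F) (hV : Fintype.card V ≤ n) (cl : Bl → Φ)
    (hcx : (∀ b b', ty b = ty b' → cl b = cl b') ∨ ∀ u, ¬ IsG (F u))
    (f : Bl → Fin n → Fin (p + 1)) (g : Fin s → J → Fin n → Fin (p + 1))
    (h1 : ∀ b ∈ US F univ, f b ∈ RF H (PC xs ys ty io F cl b))
    (h2 : ∀ b ∈ US F univ, ∀ j, f b (xs j) = g j (io b j) (ty b j).fst ∧
      f b (ys j) = g j (io b j) (ty b j).snd)
    (h3 : ∀ b ∈ US F univ, ∀ b' ∈ US F univ, cl b = cl b' → ∀ j, io b j = io b' j → f b = f b') :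
    ∃ κ, Col M xs ys ty io F κ f (PC xs ys ty io F cl) := by
  classical
  obtain ⟨Y, hY, hYm⟩ := exists_Y (F := F) hV
  obtain ⟨κc, hκ1, hκ2⟩ := hI.cx Y hY
  set q : Fin s → J → (Fin s → H.Dart) → Fin n → Fin (p + 1) := fun j i φ w =>
    if h : ∃ b ∈ US F univ, io b j = i ∧ ty b = φ then f h.choose w else 0 with hq
  refine ⟨fun u => match F u with
    | .b b w => f b w
    | .z j i v => g j i v
    | .g j i φ w c => oc (q j i φ w) (κc c), ?_, ?_, h1, ?_⟩
  · intro b hb u hu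
    rcases hu with ⟨w, h⟩ | ⟨j, h | h⟩
    · simp only [h]
      rfl
    · simp only [h]
      rw [posB_fst]
      exact (h2 b hb j).1.symm
    · simp only [h]
      rw [posB_snd]
      exact (h2 b hb j).2.symm
  · intro b hb u hu
    exact mem_PC hb hu
  · intro u v hu huv
    have hcq := hI.adj u v huv
    rcases hFu : F u with ⟨b', w'⟩ | ⟨j, i, v'⟩ | ⟨j, i, φ, w, c⟩
    · rw [hFu] at hu
      exact absurd hu id
    · rw [hFu] at hu
      exact absurd hu id
    · rcases hFv : F v with ⟨b', w'⟩ | ⟨j', i', v'⟩ | ⟨j', i', φ', w', c'⟩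
      · rw [hFu, hFv] at hcq
        obtain ⟨e1, e2, e3, e4⟩ := hcq
        simp only
        have hb' : b' ∈ US F univ := mem_US.2 ⟨v, Finset.mem_univ _, w', hFv⟩
        have hex : ∃ b ∈ US F univ, io b j = i ∧ ty b = φ := ⟨b', hb', e1, e2⟩
        have hq1 : q j i φ w = f b' w' := by
          simp only [hq]
          rw [dif_pos hex]
          have hs := hex.choose_spec
          have hc : cl hex.choose = cl b' := by
            rcases hcx with h | h
            · exact h _ _ (hs.2.2.trans e2.symm)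
            · exact absurd (by rw [hFu]; trivial) (h u)
          rw [h3 _ hs.1 b' hb' hc j (hs.2.1.trans e1.symm), e3]
        rw [hq1]
        have hne := hκ2 c (hYm u j i φ w c hFu) e4
        intro he
        exact hne (oc_inj (f b' w') (b := none) he)
      · rw [hFu, hFv] at hcq
        exact absurd hcq id
      · rw [hFu, hFv] at hcq
        obtain ⟨⟨rfl, rfl, rfl, rfl⟩, hR⟩ := hcq
        simp only
        intro he
        exact hκ1 c (hYm u _ _ _ _ c hFu) c' (hYm v _ _ _ _ c' hFv) hR (oc_inj _ he)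

/-- The colourings with a prescribed colouring of one body. -/
theorem mk_col (hI : Is2 H p M xs ys ty io R A F) (hV : Fintype.card V ≤ n) (cl : Bl → Φ)
    (hcl : ∀ b b', cl b = cl b' → ty b = ty b')
    (hcx : (∀ b b', ty b = ty b' → cl b = cl b') ∨ ∀ u, ¬ IsG (F u))
    (hPS : ∀ b ∈ US F univ, PS (p + 1) (H.induce (PC xs ys ty io F cl b : Set (Fin n)))) :
    (∃ (κ : V → Fin (p + 1)) (f : Bl → Fin n → Fin (p + 1)),
      Col M xs ys ty io F κ f (PC xs ys ty io F cl) ∧
      ∀ b ∈ US F univ, ∀ b' ∈ US F univ, cl b = cl b' → ∀ j, io b j = io b' j → f b = f b') ∧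
    ∀ b₀ ∈ US F univ, ∀ f₀ ∈ RF H (PC xs ys ty io F cl b₀), ∃ (κ : V → Fin (p + 1))
      (f : Bl → Fin n → Fin (p + 1)), Col M xs ys ty io F κ f (PC xs ys ty io F cl) ∧ f b₀ = f₀ ∧
      ∀ b ∈ US F univ, ∀ b' ∈ US F univ, cl b = cl b' → ∀ j, io b j = io b' j → f b = f b' := by
  classical
  have hL : ∀ S ⊆ US F univ, 2 ≤ S.card → ∃ m ∈ S, ∃ m' ∈ S, m ≠ m' ∧ Leaf io S m ∧
      Leaf io S m' := by
    intro S hS h2
    refine hI.sp S h2 ?_
    have h1 := card_US (F := F) univ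
    have h2 : (univ : Finset V).card = Fintype.card V := Finset.card_univ
    have h3 : n ≤ n * n := Nat.le_mul_self n
    have h4 := Finset.card_le_card hS
    omega
  set 𝓕 : Φ → Set (Fin n → Fin (p + 1)) := fun a =>
    {f | ∀ b ∈ US F univ, cl b = a → f ∈ RF H (PC xs ys ty io F cl b)} with h𝓕
  have hN : ∀ a, ∃ f, f ∈ 𝓕 a := by
    intro a
    by_cases ha : ∃ b ∈ US F univ, cl b = a
    · obtain ⟨b, hb, hba⟩ := ha
      obtain ⟨f, hf⟩ := RF.ne (0 : Fin (p + 1)) (hPS b hb)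
      refine ⟨f, fun b' _ hb'a => ?_⟩
      rw [PC_congr hcl (hb'a.trans hba.symm)]
      exact hf
    · exact ⟨fun _ => 0, fun b hb hba => absurd ⟨b, hb, hba⟩ ha⟩
  have hM : ∀ a j c c', ∃ f ∈ 𝓕 a, f (xs j) = c ∧ f (ys j) = c' := by
    intro a j c c'
    by_cases ha : ∃ b ∈ US F univ, cl b = a
    · obtain ⟨b, hb, hba⟩ := ha
      obtain ⟨f, hf, e1, e2⟩ := RF.mt (0 : Fin (p + 1)) (hPS b hb) (hI.xg.adj j) c c'
      refine ⟨f, fun b' _ hb'a => ?_, e1, e2⟩
      rw [PC_congr hcl (hb'a.trans hba.symm)]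
      exact hf
    · refine ⟨fun v => if v = xs j then c else c', fun b hb hba => absurd ⟨b, hb, hba⟩ ha,
        if_pos rfl, if_neg (hI.xg.adj j).ne.symm⟩
  have hcl' : ∀ b b', cl b = cl b' → ∀ j, (ty b j).fst = (ty b' j).fst ∧
      (ty b j).snd = (ty b' j).snd := by
    intro b b' h j
    rw [hcl b b' h]
    exact ⟨rfl, rfl⟩
  constructor
  · obtain ⟨f, g, h1, h2, h3⟩ := assign' hI.ioi (fun b j => (ty b j).fst) (fun b j => (ty b j).snd)
      (fun b j => (ty b j).adj.ne) cl hcl' 𝓕 hN 0 hM (US F univ) hL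
    obtain ⟨κ, hκ⟩ := col_of_fg hI hV cl hcx f g (fun b hb => h1 b hb b hb rfl) h2 h3
    exact ⟨κ, f, hκ, h3⟩
  · intro b₀ hb₀ f₀ hf₀
    obtain ⟨f, g, h1, h2, h3, h4⟩ := assign hI.ioi (fun b j => (ty b j).fst)
      (fun b j => (ty b j).snd) (fun b j => (ty b j).adj.ne) cl hcl' 𝓕 hN hM (US F univ).card
      (US F univ) rfl hL b₀ hb₀ f₀ (fun b' _ hb'a => by
        rw [PC_congr hcl hb'a]
        exact hf₀)
    obtain ⟨κ, hκ⟩ := col_of_fg hI hV cl hcx f g (fun b hb => h1 b hb b hb rfl) h2 h3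
    exact ⟨κ, f, hκ, h4, h3⟩

/-- A vertex of a complex as a star centre. -/
theorem star_fo [DecidableEq V] (hI : Is2 H p M xs ys ty io R A F) (hV : Fintype.card V ≤ n)
    {κ : V → Fin (p + 1)} {f : Bl → Fin n → Fin (p + 1)} {PP : Bl → Finset (Fin n)}
    (hC : Col M xs ys ty io F κ f PP) {g : V} (c : Fin (p + 1))
    (hsep : ∀ s s', M.Adj g s → M.Adj g s' → ¬ IsG (F s) → ¬ IsG (F s') → s ≠ s' → κ s = c →
      κ s' = c → ∃ D : Set V, s ∈ D ∧ s' ∉ D ∧ ∀ u v, u ∈ D → M.Adj u v → κ u = κ v → v ∈ D) :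
    Fo (fun u v => M.Adj u v ∧ Function.update κ g c u = Function.update κ g c v) := by
  have hup : ∀ x, x ≠ g → Function.update κ g c x = κ x := fun x hx => Function.update_of_ne hx _ _
  apply fo_star_at (g := g)
  · exact fun x hx => M.loopless.irrefl x hx.1
  · exact fun x y h => ⟨h.1.symm, h.2.symm⟩
  · refine (Col.fo hI hV hC).mono ?_
    rintro x y ⟨⟨h1, h2⟩, h3, h4⟩
    rw [hup x h3, hup y h4] at h2
    exact ⟨h1, h2⟩
  · rintro s s' ⟨h1, h2⟩ ⟨h3, h4⟩ hss
    have hsg : s ≠ g := h1.ne.symm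
    have hsg' : s' ≠ g := h3.ne.symm
    rw [Function.update_self, hup s hsg] at h2
    rw [Function.update_self, hup s' hsg'] at h4
    by_cases g1 : IsG (F s)
    · refine ⟨{s}, rfl, fun h => hss h.symm, ?_⟩
      rintro x y rfl ⟨h5, h6⟩ h7 h8
      rw [hup x h7, hup y h8] at h6
      exact absurd h6 (hC.cpx x y g1 h5)
    · by_cases g2 : IsG (F s')
      · refine ⟨{s'}ᶜ, hss, fun h => h rfl, ?_⟩
        rintro x y - ⟨h5, h6⟩ h7 h8
        rw [hup x h7, hup y h8] at h6
        rintro rfl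
        exact hC.cpx y x g2 h5.symm h6.symm
      · obtain ⟨D, d1, d2, d3⟩ := hsep s s' h1 h3 g1 g2 hss h2.symm h4.symm
        refine ⟨D, d1, d2, ?_⟩
        rintro x y hx ⟨h5, h6⟩ h7 h8
        rw [hup x h7, hup y h8] at h6
        exact d3 x y hx h5 h6

/-- The neighbours of the vertices of complexes outside the complexes. -/
theorem g_nbr (hI : Is2 H p M xs ys ty io R A F) {u v : V} (huv : M.Adj u v) {j : Fin s} {i : J}
    {φ : Fin s → H.Dart} {w : Fin n} {c : C} (hu : F u = .g j i φ w c) (hv : ¬ IsG (F v)) :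
    ∃ b ∈ US F univ, F v = .b b w ∧ io b j = i ∧ ty b = φ := by
  have hcq := hI.adj u v huv
  rcases hFv : F v with ⟨b', w'⟩ | ⟨j', i', v'⟩ | ⟨j', i', φ', w', c'⟩
  · rw [hu, hFv] at hcq
    obtain ⟨e1, e2, e3, e4⟩ := hcq
    refine ⟨b', mem_US.2 ⟨v, Finset.mem_univ _, w', hFv⟩, ?_, e1, e2⟩
    rw [e3]
  · rw [hu, hFv] at hcq
    exact absurd hcq id
  · exact absurd (by rw [hFv]; trivial) hv

/-- Two slots of the same role at a common passenger set are separated. -/
theorem sep_slots (hI : Is2 H p M xs ys ty io R A F) (hV : Fintype.card V ≤ n) {cl : Bl → Φ}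
    {κ : V → Fin (p + 1)} {f : Bl → Fin n → Fin (p + 1)}
    (hC : Col M xs ys ty io F κ f (PC xs ys ty io F cl)) {b b' : Bl} (hb : b ∈ US F univ)
    (hb' : b' ∈ US F univ) (hbb : b' ≠ b) {j : Fin s} (hj : io b' j = io b j) {w : Fin n}
    {D₀ : Set (Fin n)} (d1 : w ∈ D₀)
    (d2 : xs j ∈ PC xs ys ty io F cl b → xs j ∉ D₀) (d3 : ys j ∈ PC xs ys ty io F cl b → ys j ∉ D₀)
    (d4 : ∀ x y, x ∈ D₀ → sm H (PC xs ys ty io F cl b) (f b) x y → y ∈ D₀) {v y : V}
    (hv : F v = .b b w) (hy : InBlob ty io b' (F y)) (hyb : ¬ InBlob ty io b (F y)) :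
    ∃ D : Set V, v ∈ D ∧ y ∉ D ∧ (∀ u ∈ D, ¬ IsG (F u)) ∧
      (∀ u v, u ∈ D → M.Adj u v → κ u = κ v → v ∈ D) ∧
      ∀ u, InBlob ty io b (F u) → (u ∈ D ↔ κ u = κ v ∧ posB xs ys ty b (F u) ∈ D₀) := by
  obtain ⟨D, e1, e2, e3, e4⟩ := Col.sep hI hV hC hb D₀ d4 (κ v)
  refine ⟨D, (e1 v (Or.inl ⟨w, hv⟩)).2 ⟨rfl, by rw [hv]; exact d1⟩, ?_, e3, e2, e1⟩
  intro hyD
  obtain ⟨a, a1, ⟨z, a2⟩, a3⟩ := e4 y b' j hb' hbb hj hyb hy hyD
  have h1 := mem_PC (xs := xs) (ys := ys) (cl := cl) hb a1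
  rw [a2] at h1 a3 a1
  rcases pos_root (xs := xs) (ys := ys) a1 with h | h
  · rw [h] at h1 a3
    exact d2 h1 a3
  · rw [h] at h1 a3
    exact d3 h1 a3

theorem ae2_core [DecidableEq V] (hI : Is2 H p M xs ys ty io R A F) (hV : Fintype.card V ≤ n)
    (cl : Bl → Φ) (hcl : ∀ b b', cl b = cl b' → ty b = ty b')
    (hcx : (∀ b b', ty b = ty b' → cl b = cl b') ∨ ∀ u, ¬ IsG (F u))
    (hsz : ∀ b ∈ US F univ, (PC xs ys ty io F cl b).card < Fintype.card V)
    (hsz2 : ∀ g b b' w s₁ s₂, IsG (F g) → b ∈ US F univ → F s₁ = .b b w → F s₂ = .b b' w →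
      s₁ ≠ s₂ → cl b = cl b' → (PC xs ys ty io F cl b).card + 1 < Fintype.card V)
    (hPS : ∀ X : Finset (Fin n), X.card < Fintype.card V →
      PS (p + 1) (H.induce (X : Set (Fin n)))) : PS (p + 1) M := by
  classical
  obtain ⟨⟨κ₀, f₀, hC₀, h3₀⟩, hmk⟩ := mk_col hI hV cl hcl hcx (fun b hb => hPS _ (hsz b hb))
  have hfo₀ := Col.fo hI hV hC₀
  -- a prescribed separation at two slots of a complex
  have sgl : ∀ x v v', M.Adj x v → M.Adj x v' → v ≠ v' → ∀ j i φ w c, F x = .g j i φ w c →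
      ∀ b ∈ US F univ, ∀ b' ∈ US F univ, F v = .b b w → F v' = .b b' w → ty b = φ → ty b' = φ →
      io b j = i → ∃ f₁ ∈ RF (r := p + 1) H (PC xs ys ty io F cl b), ∃ D₀ : Set (Fin n), w ∈ D₀ ∧
        (xs j ∈ PC xs ys ty io F cl b → xs j ∉ D₀) ∧ (ys j ∈ PC xs ys ty io F cl b → ys j ∉ D₀) ∧
        ∀ a b', a ∈ D₀ → sm H (PC xs ys ty io F cl b) f₁ a b' → b' ∈ D₀ := by
    intro x v v' hxv hxv' hvv j i φ w c hFx b hb b' hb' hFv hFv' e1 e2 e3
    have hx : IsG (F x) := by
      rw [hFx]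
      trivial
    have hcb : cl b = cl b' := by
      rcases hcx with h | h
      · exact h _ _ (e1.trans e2.symm)
      · exact absurd hx (h x)
    have hsize := hsz2 x b b' w v v' hx hb hFv hFv' hvv hcb
    have hw : w ∈ PC xs ys ty io F cl b := by
      have h1 := mem_PC (xs := xs) (ys := ys) (cl := cl) (ty := ty) (io := io) hb (u := v)
        (Or.inl ⟨w, hFv⟩)
      rw [hFv] at h1
      exact h1
    have hin := hI.inn v b w hFv j
    have hnear := hI.near x j i φ w c hFx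
    exact sepg (r := p + 1) 0 (fun X hX => hPS X (by omega)) (hI.xg.adj j) hw hin.1 hin.2 hnear
  -- edges at complexes
  have Pg : ∀ u v, IsG (F u) → M.Adj u v → ∀ e : Bool, ∃ k : V → Fin (p + 1),
      Fo (fun x y => M.Adj x y ∧ k x = k y) ∧ (k u = k v ↔ e = true) := by
    intro u v hu huv e
    cases e with
    | false => exact ⟨κ₀, hfo₀, by simp [hC₀.cpx u v hu huv]⟩
    | true =>
      rcases hFu : F u with ⟨b', w'⟩ | ⟨j, i, v'⟩ | ⟨j, i, φ, w, c⟩
      · rw [hFu] at hu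
        exact absurd hu id
      · rw [hFu] at hu
        exact absurd hu id
      by_cases hv : IsG (F v)
      · -- both in a complex
        rcases hFv : F v with ⟨b', w'⟩ | ⟨j', i', v'⟩ | ⟨j', i', φ', w', c'⟩
        · rw [hFv] at hv
          exact absurd hv id
        · rw [hFv] at hv
          exact absurd hv id
        have hcq := hI.adj u v huv
        rw [hFu, hFv] at hcq
        obtain ⟨⟨rfl, rfl, rfl, rfl⟩, hR⟩ := hcq
        by_cases hq : ∃ s₀, M.Adj u s₀ ∧ ¬ IsG (F s₀) ∧ κ₀ s₀ = κ₀ v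
        · obtain ⟨s₀, hus₀, hs₀g, hs₀κ⟩ := hq
          obtain ⟨b, hb, hFs₀, eb1, eb2⟩ := g_nbr hI hus₀ hFu hs₀g
          refine ⟨Function.update κ₀ v (κ₀ u), star_fo hI hV hC₀ (κ₀ u) ?_, ?_⟩
          · intro s₁ s₂ hv1 _ hg1 _ _ hk1 _
            exfalso
            obtain ⟨b', hb', hFs₁, eb1', eb2'⟩ := g_nbr hI hv1 hFv hg1
            have hcb : cl b = cl b' := by
              rcases hcx with h | h
              · exact h _ _ (eb2.trans eb2'.symm)
              · exact absurd hu (h u)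
            have hff := h3₀ b hb b' hb' hcb j (eb1.trans eb1'.symm)
            have e1 := hC₀.pos b hb s₀ (Or.inl ⟨w, hFs₀⟩)
            have e2 := hC₀.pos b' hb' s₁ (Or.inl ⟨w, hFs₁⟩)
            rw [hFs₀, posB_b] at e1
            rw [hFs₁, posB_b, ← hff] at e2
            exact hC₀.cpx u v hu huv (hk1.symm.trans (e2.trans (e1.symm.trans hs₀κ)))
          · rw [Function.update_self, Function.update_of_ne huv.ne]
            simp
        · push Not at hq
          refine ⟨Function.update κ₀ u (κ₀ v), star_fo hI hV hC₀ (κ₀ v) ?_, ?_⟩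
          · intro s₁ s₂ hv1 _ hg1 _ _ hk1 _
            exact absurd hk1 (hq s₁ hv1 hg1)
          · rw [Function.update_self, Function.update_of_ne huv.ne.symm]
            simp
      · obtain ⟨b, hb, hFv, eb1, eb2⟩ := g_nbr hI huv hFu hv
        by_cases h2 : ∃ s', M.Adj u s' ∧ v ≠ s' ∧ ¬ IsG (F s')
        · obtain ⟨s', hus', hvs', hs'g⟩ := h2
          obtain ⟨b', hb', hFs', eb1', eb2'⟩ := g_nbr hI hus' hFu hs'g
          obtain ⟨f₁, hf₁, D₀, d1, d2, d3, d4⟩ := sgl u v s' huv hus' hvs' j i φ w c hFu b hb b' hb'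
            hFv hFs' eb2 eb2' eb1
          obtain ⟨κ, f, hC, hfb, h3⟩ := hmk b hb f₁ hf₁
          refine ⟨Function.update κ u (κ v), star_fo hI hV hC (κ v) ?_, ?_⟩
          · intro s₁ s₂ hv1 hv2 hg1 hg2 hne _ _
            obtain ⟨b₁, hb₁, hF1, e11, e12⟩ := g_nbr hI hv1 hFu hg1
            obtain ⟨b₂, hb₂, hF2, e21, e22⟩ := g_nbr hI hv2 hFu hg2
            have hbne : b₂ ≠ b₁ := by
              rintro rfl
              exact hne (hI.inj (hF1.trans hF2.symm))
            have hcb : cl b₁ = cl b := by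
              rcases hcx with h | h
              · exact h _ _ (e12.trans eb2.symm)
              · exact absurd hu (h u)
            have hff : f b₁ = f₁ := (h3 b₁ hb₁ b hb hcb j (e11.trans eb1.symm)).trans hfb
            have hPP : PC xs ys ty io F cl b₁ = PC xs ys ty io F cl b := PC_congr hcl hcb
            obtain ⟨D, q1, q2, -, q4, -⟩ := sep_slots hI hV hC hb₁ hb₂ hbne
              (e21.trans e11.symm) d1 (by rw [hPP]; exact d2) (by rw [hPP]; exact d3)
              (by rw [hPP, hff]; exact d4) hF1 (y := s₂) (Or.inl ⟨w, hF2⟩) (by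
                rw [hF2]
                exact fun h => hbne (inBlob_slot h))
            exact ⟨D, q1, q2, q4⟩
          · rw [Function.update_self, Function.update_of_ne huv.ne.symm]
            simp
        · push Not at h2
          refine ⟨Function.update κ₀ u (κ₀ v), star_fo hI hV hC₀ (κ₀ v) ?_, ?_⟩
          · intro s₁ s₂ hv1 hv2 hg1 hg2 hne _ _
            exfalso
            have e1 : v = s₁ := by
              by_contra h
              exact hg1 (h2 s₁ hv1 h)
            have e2 : v = s₂ := by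
              by_contra h
              exact hg2 (h2 s₂ hv2 h)
            exact hne (e1.symm.trans e2)
          · rw [Function.update_self, Function.update_of_ne huv.ne.symm]
            simp
  constructor
  · apply PR.of_edges (Nat.succ_le_succ (Nat.zero_le _))
    intro u v huv e
    by_cases hu : IsG (F u)
    · exact Pg u v hu huv e
    by_cases hv : IsG (F v)
    · obtain ⟨k, hk1, hk2⟩ := Pg v u hv huv.symm e
      exact ⟨k, hk1, by rw [← hk2]; exact eq_comm⟩
    obtain ⟨b, hb, hub, hvb⟩ := body_edge hI huv hu hv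
    obtain ⟨f₁, hf₁, hrel⟩ := RF.rel (0 : Fin (p + 1)) (hPS _ (hsz b hb))
      (mem_PC hb hub) (mem_PC hb hvb) (posB_adj hub hvb (hI.adj u v huv)) e
    obtain ⟨κ, f, hC, hfb, -⟩ := hmk b hb f₁ hf₁
    refine ⟨κ, Col.fo hI hV hC, ?_⟩
    rw [hC.pos b hb u hub, hC.pos b hb v hvb, hfb]
    exact hrel
  · intro y x w hxy hxw hyw
    by_cases hw : IsG (F w)
    · refine ⟨κ₀, hfo₀, {w}, rfl, hxw.ne, hyw, ?_⟩
      rintro a b rfl hab he
      exact absurd he (hC₀.cpx a b hw hab)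
    have hclo : ∀ κ f, Col M xs ys ty io F κ f (PC xs ys ty io F cl) → ∀ c : Fin (p + 1),
        ∀ a b, a ∈ {u : V | ¬ IsG (F u) ∧ κ u = c} → M.Adj a b → κ a = κ b →
        b ∈ {u : V | ¬ IsG (F u) ∧ κ u = c} := by
      rintro κ f hC c a b ⟨h1, h2⟩ hab he
      exact ⟨fun h => hC.cpx b a h hab.symm he.symm, he.symm.trans h2⟩
    by_cases hx : IsG (F x)
    · rcases hFx : F x with ⟨b', w'⟩ | ⟨j, i, v'⟩ | ⟨j, i, φ, w₀, c⟩
      · rw [hFx] at hx
        exact absurd hx id
      · rw [hFx] at hx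
        exact absurd hx id
      by_cases hy : IsG (F y)
      · exact ⟨κ₀, hfo₀, {u : V | ¬ IsG (F u) ∧ κ₀ u = κ₀ w}, ⟨hw, rfl⟩, fun h => h.1 hx,
          fun h => h.1 hy, hclo κ₀ f₀ hC₀ _⟩
      · obtain ⟨b, hb, hFw, eb1, eb2⟩ := g_nbr hI hxw hFx hw
        obtain ⟨b', hb', hFy, eb1', eb2'⟩ := g_nbr hI hxy hFx hy
        obtain ⟨f₁, hf₁, D₀, d1, d2, d3, d4⟩ := sgl x w y hxw hxy hyw.symm j i φ w₀ c hFx b hb b' hb'
          hFw hFy eb2 eb2' eb1
        obtain ⟨κ, f, hC, hfb, h3⟩ := hmk b hb f₁ hf₁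
        have hbne : b' ≠ b := by
          rintro rfl
          exact hyw (hI.inj (hFy.trans hFw.symm))
        obtain ⟨D, q1, q2, q3, q4, -⟩ := sep_slots hI hV hC hb hb' hbne
          (eb1'.trans eb1.symm) d1 d2 d3 (by rw [hfb]; exact d4) hFw (y := y)
          (Or.inl ⟨w₀, hFy⟩) (by
            rw [hFy]
            exact fun h => hbne (inBlob_slot h))
        exact ⟨κ, Col.fo hI hV hC, D, q1, fun h => q3 x h hx, q2, fun a b ha hab he => q4 a b ha
          hab he⟩
    obtain ⟨b, hb, hxb, hwb⟩ := body_edge hI hxw hx hw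
    by_cases hy : IsG (F y)
    · obtain ⟨f₁, hf₁, hrel⟩ := RF.rel (0 : Fin (p + 1)) (hPS _ (hsz b hb))
        (mem_PC hb hxb) (mem_PC hb hwb) (posB_adj hxb hwb (hI.adj x w hxw)) false
      obtain ⟨κ, f, hC, hfb, -⟩ := hmk b hb f₁ hf₁
      refine ⟨κ, Col.fo hI hV hC, {u : V | ¬ IsG (F u) ∧ κ u = κ w}, ⟨hw, rfl⟩, ?_,
        fun h => h.1 hy, hclo κ f hC _⟩
      rintro ⟨-, h⟩
      rw [hC.pos b hb x hxb, hC.pos b hb w hwb, hfb] at h
      exact absurd (hrel.1 h) (by simp)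
    by_cases hyb : InBlob ty io b (F y)
    · obtain ⟨f₁, hf₁, D₀, d1, d2, d3, d4⟩ := RF.sep (0 : Fin (p + 1)) (hPS _ (hsz b hb))
        (mem_PC hb hyb) (mem_PC hb hxb) (mem_PC hb hwb) (posB_adj hxb hyb (hI.adj x y hxy))
        (posB_adj hxb hwb (hI.adj x w hxw))
        (fun h => hyw (hI.inj (posB_inj hI.xg hyb hwb (hI.inn y) (hI.inn w) h)))
      obtain ⟨κ, f, hC, hfb, -⟩ := hmk b hb f₁ hf₁
      obtain ⟨D, e1, e2, e3, -⟩ := Col.sep hI hV hC hb D₀ (by rw [hfb]; exact d4) (κ w)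
      exact ⟨κ, Col.fo hI hV hC, D, (e1 w hwb).2 ⟨rfl, d1⟩, fun h => d2 ((e1 x hxb).1 h).2,
        fun h => d3 ((e1 y hyb).1 h).2, fun a b ha hab he => e2 a b ha hab he⟩
    -- `x` is a root of `b`, `y` is a slot of another blob
    have hcq := hI.adj x y hxy
    have hcqw := hI.adj x w hxw
    rcases hFx : F x with ⟨b', w'⟩ | ⟨j, i, v⟩ | ⟨j, i, φ, w₀, c⟩
    · exfalso
      rw [hFx] at hcq hxb
      obtain rfl := inBlob_slot hxb
      exact hyb (cq_slot hcq hy)
    · have hxb' := hxb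
      rw [hFx] at hcq hcqw hxb'
      obtain ⟨b', w', hFy, hi, -⟩ := cq_pass hcq
      obtain ⟨b'', w'', hFw, -, -⟩ := cq_pass hcqw
      have hi' := inBlob_pass hxb'
      have hbw : b'' = b := by
        rw [hFw] at hwb
        exact inBlob_slot hwb
      subst hbw
      have hbne : b' ≠ b'' := by
        rintro rfl
        exact hyb (by rw [hFy]; exact Or.inl ⟨w', rfl⟩)
      have hin := hI.inn w b'' w'' hFw j
      have hwP : w'' ∈ PC xs ys ty io F cl b'' := by
        have h1 := mem_PC (xs := xs) (ys := ys) (cl := cl) hb hwb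
        rw [hFw] at h1
        exact h1
      have hxP := mem_PC (xs := xs) (ys := ys) (cl := cl) hb hxb
      have hadj := posB_adj (xs := xs) (ys := ys) hxb hwb (hI.adj x w hxw)
      subst hi'
      rw [hFx] at hxP hadj
      rw [hFw, posB_b] at hadj
      obtain ⟨f₁, hf₁, D₀, d1, dx, d2, d3, d4⟩ : ∃ f₁ ∈ RF (r := p + 1) H (PC xs ys ty io F cl b''),
          ∃ D₀ : Set (Fin n), w'' ∈ D₀ ∧
            posB xs ys ty b'' (.z (C := C) (Bl := Bl) j (io b'' j) v) ∉ D₀ ∧
            (xs j ∈ PC xs ys ty io F cl b'' → xs j ∉ D₀) ∧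
            (ys j ∈ PC xs ys ty io F cl b'' → ys j ∉ D₀) ∧
            ∀ a b', a ∈ D₀ → sm H (PC xs ys ty io F cl b'') f₁ a b' → b' ∈ D₀ := by
        rcases pos_root (xs := xs) (ys := ys) hxb' with h | h
        · rw [h] at hxP hadj ⊢
          obtain ⟨f₁, hf₁, D₀, d1, d2, d3, d4⟩ := RF.sep1 (0 : Fin (p + 1)) (hPS _ (hsz b'' hb))
            hxP hwP (hI.xg.adj j) hadj hin.2.symm
          exact ⟨f₁, hf₁, D₀, d1, d2, fun _ => d2, d3, d4⟩
        · rw [h] at hxP hadj ⊢
          obtain ⟨f₁, hf₁, D₀, d1, d2, d3, d4⟩ := RF.sep1 (0 : Fin (p + 1)) (hPS _ (hsz b'' hb))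
            hxP hwP (hI.xg.adj j).symm hadj hin.1.symm
          exact ⟨f₁, hf₁, D₀, d1, d2, d3, fun _ => d2, d4⟩
      obtain ⟨κ, f, hC, hfb, -⟩ := hmk b'' hb f₁ hf₁
      obtain ⟨D, q1, q2, -, q4, q5⟩ := sep_slots hI hV hC hb
        (mem_US.2 ⟨y, Finset.mem_univ _, w', hFy⟩) hbne hi d1 d2 d3
        (by rw [hfb]; exact d4) hFw (y := y) (by rw [hFy]; exact Or.inl ⟨w', rfl⟩) hyb
      refine ⟨κ, Col.fo hI hV hC, D, q1, ?_, q2, fun a b ha hab he => q4 a b ha hab he⟩
      intro h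
      have h1 := ((q5 x hxb).1 h).2
      rw [hFx] at h1
      exact dx h1
    · exact absurd (by rw [hFx]; trivial) hx

/-- **Row R8.** -/
theorem a_e2 (hI : Is2 H p M xs ys ty io R A F) (hV : Fintype.card V ≤ n)
    (hnot : ¬ ∃ b, ∀ u, InBlob ty io b (F u))
    (hPS : ∀ X : Finset (Fin n), X.card < Fintype.card V →
      PS (p + 1) (H.induce (X : Set (Fin n)))) : PS (p + 1) M := by
  classical
  by_cases hG : ∃ u, IsG (F u)
  · obtain ⟨g₀, hg₀⟩ := hG
    refine ae2_core hI hV ty (fun _ _ h => h) (Or.inl fun _ _ h => h) ?_ ?_ hPS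
    · intro b _
      have h2 : (PC xs ys ty io F ty b).card ≤ (univ.erase g₀).card := card_PC (by
        intro u b' _ h
        refine ⟨u, Finset.mem_erase.2 ⟨?_, Finset.mem_univ _⟩, rfl⟩
        rintro rfl
        exact inBlob_not_g h hg₀)
      rw [Finset.card_erase_of_mem (Finset.mem_univ _), Finset.card_univ] at h2
      have h3 : 0 < Fintype.card V := Fintype.card_pos_iff.2 ⟨g₀⟩
      omega
    · intro g b b' w s₁ s₂ hg hb hs₁ hs₂ hss hbb
      have hs₁g : s₁ ≠ g := by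
        rintro rfl
        rw [hs₁] at hg
        exact hg
      have hs₂g : s₂ ≠ g := by
        rintro rfl
        rw [hs₂] at hg
        exact hg
      have h2 : (PC xs ys ty io F ty b).card ≤ ((univ.erase g).erase s₂).card := card_PC (by
        intro u b'' _ h
        have hug : u ≠ g := by
          rintro rfl
          exact inBlob_not_g h hg
        by_cases hus : u = s₂
        · refine ⟨s₁, Finset.mem_erase.2 ⟨hss, Finset.mem_erase.2
            ⟨hs₁g, Finset.mem_univ _⟩⟩, ?_⟩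
          rw [hus, hs₁, hs₂, posB_b, posB_b]
        · exact ⟨u, Finset.mem_erase.2 ⟨hus, Finset.mem_erase.2
            ⟨hug, Finset.mem_univ _⟩⟩, rfl⟩)
      have h3 : s₂ ∈ univ.erase g := Finset.mem_erase.2 ⟨hs₂g, Finset.mem_univ _⟩
      have h4 : s₁ ∈ (univ.erase g).erase s₂ := Finset.mem_erase.2 ⟨hss, Finset.mem_erase.2
        ⟨hs₁g, Finset.mem_univ _⟩⟩
      have h5 := Finset.card_pos.2 ⟨s₁, h4⟩
      rw [Finset.card_erase_of_mem h3, Finset.card_erase_of_mem (Finset.mem_univ _),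
        Finset.card_univ] at h2 h5
      omega
  · push Not at hG
    refine ae2_core hI hV (fun b : Bl => b) (fun b b' h => by rw [h]) (Or.inr hG) ?_ ?_ hPS
    · intro b _
      have hex : ∃ u, ¬ InBlob ty io b (F u) := by
        by_contra h
        push Not at h
        exact hnot ⟨b, h⟩
      obtain ⟨u₀, hu₀⟩ := hex
      have h2 : (PC xs ys ty io F (fun b : Bl => b) b).card ≤ (univ.erase u₀).card := card_PC (by
        intro u b' hbb h
        refine ⟨u, Finset.mem_erase.2 ⟨?_, Finset.mem_univ _⟩, rfl⟩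
        rintro rfl
        rw [hbb] at h
        exact hu₀ h)
      rw [Finset.card_erase_of_mem (Finset.mem_univ _), Finset.card_univ] at h2
      have h3 : 0 < Fintype.card V := Fintype.card_pos_iff.2 ⟨u₀⟩
      omega
    · intro g _ _ _ _ _ hg
      exact absurd hg (hG g)

end main

end MP3240N49
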