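import Pool.Agent.Lib.MP_3240be_co.N49.Defs

/-!
# MP_3240be_co, board THN, row ARN: the host is Ramsey for `H`
-/

set_option autoImplicit false

namespace MP3240N

open Finset MP3240T MP3240W
open Pool.Agent.Lib.MP_3240be_co.H36 (LocCol Blow)
open Pool.Agent.Lib.MP_3240be_co.H36.Chrom (Sparse Leaf)

namespace Arn

/-- In a sparse hypergraph two hyperedges share at most one point. -/
theorem linear {T V M : Type} {g : ℕ} (hg : 2 ≤ g) {δ : M → T → V} (hs : Sparse g δ) {m m' : M}
    (hm : m ≠ m') {a b a' b' : T} (h1 : δ m a = δ m' a') (h2 : δ m b = δ m' b') :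
    δ m a = δ m b := by
  classical
  obtain ⟨m1, hm1, m2, hm2, hne, hl1, hl2⟩ := hs {m, m'} (by rw [card_pair hm])
    (by rw [card_pair hm]; exact hg)
  have key : Leaf δ {m, m'} m := by
    rcases mem_insert.1 hm1 with e1 | e1
    · exact e1 ▸ hl1
    · rcases mem_insert.1 hm2 with e2 | e2
      · exact e2 ▸ hl2
      · exact absurd ((mem_singleton.1 e1).trans (mem_singleton.1 e2).symm) hne
  exact key m' (by simp) m' (by simp) hm.symm hm.symm a a' b b' h1 h2

variable {n h q L N : ℕ} {I M : Type} (H : SimpleGraph (Fin n)) (x y : Fin n)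
  (W : SimpleGraph (Fin q)) (T : Bool × Fin q → SimpleGraph (Fin L)) (kd : Fin N → Fin q)
  (δ : M → SP n N q L → I)

theorem adj_iff (a b : VN n h q L I M) : (FN H x y W T kd δ).Adj a b ↔
    a ≠ b ∧ (relN H x y W T kd δ a b ∨ relN H x y W T kd δ b a) := SimpleGraph.fromRel_adj _ _ _

theorem adj_z_z (m : M) (ps : Fin q → Fin L) {v v' : Fin n} (hv : H.Adj v v') :
    (FN (h := h) H x y W T kd δ).Adj (.z m ps v) (.z m ps v') :=
  (adj_iff H x y W T kd δ _ _).2 ⟨by
    intro he
    injection he with _ _ h2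
    exact hv.ne h2, Or.inl ⟨rfl, rfl, hv⟩⟩

theorem adj_z_l (m : M) (ps : Fin q → Fin L) {v : Fin n} {t : Slot n N} (hv : zAdj H x y v t) :
    (FN (h := h) H x y W T kd δ).Adj (.z m ps v) (low kd δ m t ps) :=
  (adj_iff H x y W T kd δ _ _).2 ⟨by simp [low], Or.inl ⟨t, rfl, hv⟩⟩

theorem adj_l_l (hδ : ∀ m, Function.Injective (δ m)) (m : M) (ps : Fin q → Fin L)
    {t t' : Slot n N} (htt : blobAdj H x y t t') :
    (FN (h := h) H x y W T kd δ).Adj (low kd δ m t ps) (low kd δ m t' ps) :=
  (adj_iff H x y W T kd δ _ _).2 ⟨by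
    intro he
    unfold low at he
    injection he with h1 _ _
    have h2 := congrArg Prod.fst (hδ m (Option.some_injective _ h1))
    simp only at h2
    rw [h2] at htt
    exact H.loopless.irrefl _ htt.2.2.2.2.2, Or.inl (Or.inr (Or.inr ⟨m, ps, t, t', rfl, rfl, htt⟩))⟩

end Arn

open Arn

theorem arn_proof (hCla : ClaStatement) (hHst : HstStatement) (hFine : FineStatement)
    (hRul : RulStatement) : ArnStatement := by
  classical
  intro n h N q L r b₀ H D x y W T K' kd cp I M hI hM δ B hr hb₀ hxy hkd hcp hW hHom hB hδ hsp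
    hhyp c hc
  by_contra hcon
  have hno : ∀ b, ¬ Emb H (cls (FN H x y W T kd δ) c b) := fun b hb => hcon ⟨b, hb⟩
  have hMf : Fintype M := Fintype.ofFinite M
  have hn2 : 2 ≤ n := by
    have h1 := x.isLt
    have h2 := y.isLt
    have h3 : x.val ≠ y.val := fun e => hxy.ne (Fin.ext e)
    omega
  have hnn : 2 ≤ n * n := by nlinarith
  have hb' : ∀ c' b : Bool, c' ≠ b → c' = !b := by decide
  obtain ⟨Cs⟩ := hCla n h N q L r b₀ H D x y W T K' kd I M δ B c (by omega) hb₀ hHom hB hc hno
  have hst : ∀ (i : I) (S : Fin (sm n r) → VN n h q L I M), Nonempty (Hst Cs i S) :=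
    fun i S => hHst n h q L r b₀ T K' I M B c hHom Cs i S
  have rul := hRul n h N q L r b₀ H D x y W T K' kd I M δ B c hr hc hno Cs hst
  let lab : I → Fin q → QN r h × Fin L := fun i w => (Cs.s (some i) w, Cs.ps (some i) w)
  let pos : I → Fin q → Fin L := fun i w => Cs.ps (some i) w
  -- the bad hyperedges
  let badw : I → Fin q → Finset M := fun i w => univ.filter (fun m =>
    (∀ t t', lab (δ m t) = lab (δ m t')) ∧ ∃ (K : Fin r → Fin q) (b : Bool) (j0 : Fin r),
      Fine W Cs i K b ∧ K j0 = w ∧ ∃ t, δ m (t, pos i) = i ∧ kd t.2.2.1 = w ∧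
        ∃ t', blobAdj H x y t t' ∧ c (low kd δ m t (pos i)) (low kd δ m t' (pos i)) = b)
  have hbadw : ∀ i w, (badw i w).card ≤ n := by
    intro i w
    by_contra hlt
    have hne : (badw i w).Nonempty := card_pos.1 (by omega)
    obtain ⟨m0, hm0⟩ := hne
    obtain ⟨_, K, b, j0, hK, hKw, _⟩ := (mem_filter.1 hm0).2
    have h1 : ∀ m : {m // m ∈ badw i w}, ∃ t, δ m.1 (t, pos i) = i ∧ kd t.2.2.1 = w ∧
        ∃ t', blobAdj H x y t t' ∧
          c (low kd δ m.1 t (pos i)) (low kd δ m.1 t' (pos i)) = b := by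
      intro m
      obtain ⟨_, K1, b1, j1, hK1, hKw1, t, h2, h3, t', h4, h5⟩ := (mem_filter.1 m.2).2
      have hbb : b1 = b := by
        by_contra hne
        have e1 := hK.one j0
        have e2 := hK1.one j1
        have e3 := Cs.two none w
        rw [hKw] at e1
        rw [hKw1] at e2
        have e4 := hb' _ _ hne
        rw [e4] at e2
        cases b with
        | true =>
          simp only [Bool.not_true] at e2
          omega
        | false =>
          simp only [Bool.not_false] at e2
          omega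
      exact ⟨t, h2, h3, t', h4, h5.trans hbb⟩
    choose t ht hk t' ht1 ht2 using h1
    have hk' : ∀ m, kd (t' m).2.2.1 = w := by
      intro m
      rw [← (ht1 m).2.2.1]
      exact hk m
    have hlow : ∀ m, low kd δ m.1 (t m) (pos i) = (.l (some i) w (pos i w) : VN n h q L I M) := by
      intro m
      simp only [low, ht m, hk m]
    have hlow' : ∀ m, low kd δ m.1 (t' m) (pos i) =
        (.l (some (δ m.1 (t' m, pos i))) w (pos i w) : VN n h q L I M) := by
      intro m
      simp only [low, hk' m]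
    let S : Finset (VN n h q L I M) := univ.image (fun m => low kd δ m.1 (t' m) (pos i))
    have hScard : n ≤ S.card := by
      rw [card_image_of_injective, card_univ, Fintype.card_coe]
      · omega
      · intro m m' hmm
        by_contra hne
        have hne' : m.1 ≠ m'.1 := fun e => hne (Subtype.ext e)
        have hmm' : low kd δ m.1 (t' m) (pos i) =
            (low kd δ m'.1 (t' m') (pos i) : VN n h q L I M) := hmm
        rw [hlow' m, hlow' m'] at hmm'
        injection hmm' with e1 _ _
        have e2 := Option.some_injective _ e1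
        have h4 := linear hnn hsp hne' (a := (t m, pos i)) (a' := (t m', pos i))
          (b := (t' m, pos i)) (b' := (t' m', pos i)) ((ht m).trans (ht m').symm) e2
        have h5 := congrArg Prod.fst (hδ _ h4)
        simp only at h5
        have h6 := ht1 m
        rw [h5] at h6
        exact H.loopless.irrefl _ h6.2.2.2.2.2
    refine rul i K b hK (.l (some i) w (pos i w)) (fun j => if j = j0 then S else ∅)
      (Or.inr ⟨i, w, pos i w, rfl⟩) ?_ ?_ ?_ ?_
    · intro j a ha
      by_cases hj : j = j0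
      · rw [if_pos hj] at ha
        obtain ⟨m, _, rfl⟩ := mem_image.1 ha
        refine ⟨δ m.1 (t' m, pos i), pos i w, ?_⟩
        rw [hj, hKw]
        exact hlow' m
      · rw [if_neg hj] at ha
        exact absurd ha (notMem_empty _)
    · intro j a ha k
      by_cases hj : j = j0
      · rw [if_pos hj] at ha
        obtain ⟨m, _, rfl⟩ := mem_image.1 ha
        have e1 := ((mem_filter.1 m.2).2.1 (t m, pos i) (t' m, pos i)).symm
        rw [ht m] at e1
        have e2 := congrFun e1 w
        have e3 := congrArg Prod.fst e2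
        have e4 := congrArg Prod.snd e2
        simp only [lab] at e3 e4
        have e5 := Cs.hps (some (δ m.1 (t' m, pos i))) w k
        have e6 := hK.ui j0 k
        rw [hKw] at e6
        rw [e3, e4, e6] at e5
        show c (.u k) (low kd δ m.1 (t' m) (pos i)) = b
        rw [hlow' m]
        exact e5
      · rw [if_neg hj] at ha
        exact absurd ha (notMem_empty _)
    · intro j a ha
      by_cases hj : j = j0
      · rw [if_pos hj] at ha
        obtain ⟨m, _, rfl⟩ := mem_image.1 ha
        have e1 := adj_l_l (h := h) H x y W T kd δ hδ m.1 (pos i) (ht1 m)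
        have e2 := ht2 m
        rw [hlow m] at e1 e2
        exact ⟨e1, e2⟩
      · rw [if_neg hj] at ha
        exact absurd ha (notMem_empty _)
    · intro j
      by_cases hj : j = j0
      · left
        rw [if_pos hj]
        exact hScard
      · right
        refine ⟨i, w, pos i w, rfl, ?_⟩
        rw [← hKw]
        exact hK.adj j0 j (Ne.symm hj)
  obtain ⟨m, hm1, hm2⟩ := hhyp lab (fun i => univ.biUnion (fun w => badw i w)) (fun i => by
    refine (card_biUnion_le).trans ?_
    refine (sum_le_card_nsmul _ _ n (fun w _ => hbadw i w)).trans ?_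
    rw [card_univ, Fintype.card_fin, smul_eq_mul])
  -- the label of `m`
  obtain ⟨w0⟩ : Nonempty (Fin q) := by
    obtain ⟨e, _⟩ := hW (fun _ => (fun _ => true, fun _ => true, fun _ _ _ _ _ => true))
    exact ⟨e ⟨0, by omega⟩⟩
  have hjr : 0 < r := by omega
  let t0 : SP n N q L := ((x, x, cp w0 ⟨0, by omega⟩, x), fun w => Cs.ps none w)
  let i1 : I := δ m t0
  let ps0 : Fin q → Fin L := pos i1
  have hlab : ∀ t, lab (δ m t) = lab i1 := fun t => hm1 t t0
  have hs1 : ∀ t w, Cs.s (some (δ m t)) w = Cs.s (some i1) w := fun t w =>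
    congrArg Prod.fst (congrFun (hlab t) w)
  have hp1 : ∀ t w, Cs.ps (some (δ m t)) w = Cs.ps (some i1) w := fun t w =>
    congrArg Prod.snd (congrFun (hlab t) w)
  have hpos : ∀ t, pos (δ m t) = ps0 := fun t => funext (fun w => hp1 t w)
  obtain ⟨K, hKadj, hKc⟩ := hW (fun w => ((Cs.s (some i1) w).1, (Cs.s none w).1,
    fun v v1 v2 a u => c (.z m ps0 v) (low kd δ m (v1, v2, cp w a, u) ps0)))
  obtain ⟨Z⟩ := hst i1 (fun _ => .z m ps0 x)
  have hK1 : ∀ j j', (Cs.s (some i1) (K j)).1 = (Cs.s (some i1) (K j')).1 := fun j j' =>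
    (Prod.ext_iff.1 (hKc j j')).1
  have hK2 : ∀ j j', (Cs.s none (K j)).1 = (Cs.s none (K j')).1 := fun j j' =>
    (Prod.ext_iff.1 (Prod.ext_iff.1 (hKc j j')).2).1
  obtain ⟨b, hK⟩ := hFine n h N q L r b₀ H D x y W T K' kd I M δ B c hr hc hno Cs i1 _ Z K hKadj
    hK1 hK2
  have hKt : ∀ t, Fine W Cs (δ m t) K b := fun t =>
    { adj := hK.adj
      ui := fun j k => by rw [hs1 t]; exact hK.ui j k
      up := hK.up
      one := hK.one }
  have hzc : ∀ j j' v v1 v2 a u, c (.z m ps0 v) (low kd δ m (v1, v2, cp (K j) a, u) ps0) =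
      c (.z m ps0 v) (low kd δ m (v1, v2, cp (K j') a, u) ps0) := fun j j' v v1 v2 a u =>
    congrFun (congrFun (congrFun (congrFun (congrFun (congrArg (fun p => p.2.2) (hKc j j')) v) v1)
      v2) a) u
  have hblue : ∀ j t t', kd t.2.2.1 = K j → blobAdj H x y t t' →
      c (low kd δ m t ps0) (low kd δ m t' ps0) = !b := by
    intro j t t' hkt htt
    apply hb'
    intro hcol
    apply hm2 (t, ps0)
    refine mem_biUnion.2 ⟨K j, mem_univ _, mem_filter.2 ⟨mem_univ _, hm1, K, b, j, hKt _, rfl, t,
      ?_, hkt, t', htt, ?_⟩⟩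
    · rw [hpos]
    · rw [hpos]
      exact hcol
  -- the colours of the hubs at the lows of the gadget
  have hucol : ∀ j t k, kd t.2.2.1 = K j → c (.u k) (low kd δ m t ps0) = b := by
    intro j t k hkt
    have e5 := Cs.hps (some (δ m (t, ps0))) (K j) k
    rw [hs1, hp1, hK.ui j k] at e5
    unfold low
    rw [hkt]
    exact e5
  let J0 : Fin r := ⟨0, hjr⟩
  -- free vertices see few edges of colour `b`
  have zed : ∀ (v : Fin n) (S : Finset (Fin n × Fin n × Fin (2 * n) × Fin n)),
      (∀ s ∈ S, zAdj H x y v ((s.1, s.2.1, cp (K J0) s.2.2.1, s.2.2.2) : Slot n N) ∧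
        c (.z m ps0 v) (low kd δ m (s.1, s.2.1, cp (K J0) s.2.2.1, s.2.2.2) ps0) = b) →
      S.card < n := by
    intro v S hS
    by_contra hlt
    have hlt' : n ≤ S.card := by omega
    let F : Fin r → Fin n × Fin n × Fin (2 * n) × Fin n → VN n h q L I M := fun j s =>
      low kd δ m (s.1, s.2.1, cp (K j) s.2.2.1, s.2.2.2) ps0
    have hF : ∀ j, Function.Injective (F j) := by
      intro j s s' hss
      have e0 : low kd δ m (s.1, s.2.1, cp (K j) s.2.2.1, s.2.2.2) ps0 =
        (low kd δ m (s'.1, s'.2.1, cp (K j) s'.2.2.1, s'.2.2.2) ps0 : VN n h q L I M) := hss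
      unfold low at e0
      injection e0 with e1 _ _
      have e2 := congrArg Prod.fst (hδ m (Option.some_injective _ e1))
      have e3 : s.1 = s'.1 := congrArg (fun p => p.1) e2
      have e4 : s.2.1 = s'.2.1 := congrArg (fun p => p.2.1) e2
      have e5 : cp (K j) s.2.2.1 = cp (K j) s'.2.2.1 := congrArg (fun p => p.2.2.1) e2
      have e6 : s.2.2.2 = s'.2.2.2 := congrArg (fun p => p.2.2.2) e2
      exact Prod.ext e3 (Prod.ext e4 (Prod.ext (hcp _ e5) e6))
    refine rul i1 K b hK (.z m ps0 v) (fun j => S.image (F j)) (Or.inl ⟨m, ps0, v, rfl⟩)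
      ?_ ?_ ?_ ?_
    · intro j a ha
      obtain ⟨s, _, rfl⟩ := mem_image.1 ha
      refine ⟨δ m ((s.1, s.2.1, cp (K j) s.2.2.1, s.2.2.2), ps0), ps0 (K j), ?_⟩
      show low kd δ m (s.1, s.2.1, cp (K j) s.2.2.1, s.2.2.2) ps0 = _
      simp only [low, hkd]
    · intro j a ha k
      obtain ⟨s, _, rfl⟩ := mem_image.1 ha
      exact hucol j _ k (hkd _ _)
    · intro j a ha
      obtain ⟨s, hs, rfl⟩ := mem_image.1 ha
      refine ⟨adj_z_l H x y W T kd δ m ps0 ?_, ?_⟩
      · exact (hS s hs).1
      · show c (.z m ps0 v) (low kd δ m (s.1, s.2.1, cp (K j) s.2.2.1, s.2.2.2) ps0) = b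
        rw [hzc j J0]
        exact (hS s hs).2
    · intro j
      left
      rw [card_image_of_injective _ (hF j)]
      exact hlt'
  have hred : ∀ v v', H.Adj v v' → c (.z m ps0 v) (.z m ps0 v') = b := by
    intro v v' hvv
    by_contra hne
    have hne' := hb' _ _ hne
    let lw : Fin (2 * n) → Fin n → VN n h q L I M := fun a w =>
      low kd δ m (v, v', cp (K J0) a, w) ps0
    let R1 : Finset (Fin (2 * n)) := univ.filter (fun a => ∃ w, (w ≠ x ∧ w ≠ y) ∧ H.Adj x w ∧
      c (.z m ps0 v) (lw a w) = b)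
    let R2 : Finset (Fin (2 * n)) := univ.filter (fun a => ∃ w, (w ≠ x ∧ w ≠ y) ∧ H.Adj y w ∧
      c (.z m ps0 v') (lw a w) = b)
    have hR1 : R1.card < n := by
      have h1 : ∀ ν : {ν // ν ∈ R1}, ∃ w, (w ≠ x ∧ w ≠ y) ∧ H.Adj x w ∧
          c (.z m ps0 v) (lw ν.1 w) = b := fun ν => (mem_filter.1 ν.2).2
      choose w hw1 hw2 hw3 using h1
      have h2 := zed v (univ.image (fun ν : {ν // ν ∈ R1} => (v, v', ν.1, w ν)))
        (fun t ht => by
          obtain ⟨ν, _, rfl⟩ := mem_image.1 ht
          exact ⟨⟨hvv, hw1 ν, Or.inl ⟨rfl, hw2 ν⟩⟩, hw3 ν⟩)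
      rw [card_image_of_injective, card_univ, Fintype.card_coe] at h2
      · exact h2
      · intro ν ν' h3
        exact Subtype.ext (congrArg (fun t => t.2.2.1) h3)
    have hR2 : R2.card < n := by
      have h1 : ∀ ν : {ν // ν ∈ R2}, ∃ w, (w ≠ x ∧ w ≠ y) ∧ H.Adj y w ∧
          c (.z m ps0 v') (lw ν.1 w) = b := fun ν => (mem_filter.1 ν.2).2
      choose w hw1 hw2 hw3 using h1
      have h2 := zed v' (univ.image (fun ν : {ν // ν ∈ R2} => (v, v', ν.1, w ν)))
        (fun t ht => by
          obtain ⟨ν, _, rfl⟩ := mem_image.1 ht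
          exact ⟨⟨hvv, hw1 ν, Or.inr ⟨rfl, hw2 ν⟩⟩, hw3 ν⟩)
      rw [card_image_of_injective, card_univ, Fintype.card_coe] at h2
      · exact h2
      · intro ν ν' h3
        exact Subtype.ext (congrArg (fun t => t.2.2.1) h3)
    obtain ⟨a, ha⟩ : ∃ a, a ∉ R1 ∪ R2 := by
      by_contra hall
      push Not at hall
      have h1 : (univ : Finset (Fin (2 * n))) ⊆ R1 ∪ R2 := fun ν _ => hall ν
      have h2 := card_le_card h1
      have h3 := card_union_le R1 R2
      rw [card_univ, Fintype.card_fin] at h2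
      omega
    have ha1 : ∀ w, (w ≠ x ∧ w ≠ y) → H.Adj x w → c (.z m ps0 v) (lw a w) = !b := by
      intro w hw hxw
      apply hb'
      intro e
      exact ha (mem_union_left _ (mem_filter.2 ⟨mem_univ _, w, hw, hxw, e⟩))
    have ha2 : ∀ w, (w ≠ x ∧ w ≠ y) → H.Adj y w → c (.z m ps0 v') (lw a w) = !b := by
      intro w hw hyw
      apply hb'
      intro e
      exact ha (mem_union_right _ (mem_filter.2 ⟨mem_univ _, w, hw, hyw, e⟩))
    let f : Fin n → VN n h q L I M := fun w =>
      if w = x then .z m ps0 v else if w = y then .z m ps0 v' else lw a w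
    have hfx : f x = .z m ps0 v := if_pos rfl
    have hfy : f y = .z m ps0 v' := by
      show (if y = x then _ else if y = y then _ else _) = _
      rw [if_neg hxy.ne.symm, if_pos rfl]
    have hfw : ∀ w, w ≠ x → w ≠ y → f w = lw a w := by
      intro w h1 h2
      show (if w = x then _ else if w = y then _ else _) = _
      rw [if_neg h1, if_neg h2]
    have key : ∀ i j', H.Adj i j' → (FN H x y W T kd δ).Adj (f i) (f j') ∧
        c (f i) (f j') = !b := by
      intro i j' hij
      by_cases hix : i = x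
      · subst hix
        by_cases hjy : j' = y
        · subst hjy
          rw [hfx, hfy]
          exact ⟨adj_z_z H _ _ W T kd δ m ps0 hvv, hne'⟩
        · have hjx : j' ≠ i := hij.ne.symm
          rw [hfx, hfw j' hjx hjy]
          exact ⟨adj_z_l H _ _ W T kd δ m ps0 ⟨hvv, ⟨hjx, hjy⟩, Or.inl ⟨rfl, hij⟩⟩,
            ha1 j' ⟨hjx, hjy⟩ hij⟩
      · by_cases hiy : i = y
        · subst hiy
          by_cases hjx : j' = x
          · subst hjx
            rw [hfx, hfy]
            exact ⟨(adj_z_z H _ _ W T kd δ m ps0 hvv).symm, (hc _ _).trans hne'⟩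
          · have hjy : j' ≠ i := hij.ne.symm
            rw [hfy, hfw j' hjx hjy]
            exact ⟨adj_z_l H _ _ W T kd δ m ps0 ⟨hvv, ⟨hjx, hjy⟩, Or.inr ⟨rfl, hij⟩⟩,
              ha2 j' ⟨hjx, hjy⟩ hij⟩
        · rw [hfw i hix hiy]
          by_cases hjx : j' = x
          · subst hjx
            rw [hfx]
            exact ⟨(adj_z_l H _ _ W T kd δ m ps0
                ⟨hvv, ⟨hix, hiy⟩, Or.inl ⟨rfl, hij.symm⟩⟩).symm,
              (hc _ _).trans (ha1 i ⟨hix, hiy⟩ hij.symm)⟩
          · by_cases hjy : j' = y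
            · subst hjy
              rw [hfy]
              exact ⟨(adj_z_l H _ _ W T kd δ m ps0
                  ⟨hvv, ⟨hix, hiy⟩, Or.inr ⟨rfl, hij.symm⟩⟩).symm,
                (hc _ _).trans (ha2 i ⟨hix, hiy⟩ hij.symm)⟩
            · rw [hfw j' hjx hjy]
              have h1 : blobAdj (N := N) H x y (v, v', cp (K J0) a, i)
                  (v, v', cp (K J0) a, j') :=
                ⟨rfl, rfl, rfl, ⟨hix, hiy⟩, ⟨hjx, hjy⟩, hij⟩
              exact ⟨adj_l_l H x y W T kd δ hδ m ps0 h1, hblue J0 _ _ (hkd _ _) h1⟩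
    refine hno (!b) ⟨f, ?_, fun i j' hij => ⟨(key i j' hij).1, (key i j' hij).2,
      (hc _ _).trans (key i j' hij).2⟩⟩
    have hlw : Function.Injective (lw a) := by
      intro w w' hww
      have e0 : low kd δ m (v, v', cp (K J0) a, w) ps0 =
        (low kd δ m (v, v', cp (K J0) a, w') ps0 : VN n h q L I M) := hww
      unfold low at e0
      injection e0 with e1 _ _
      have e2 := congrArg Prod.fst (hδ m (Option.some_injective _ e1))
      exact congrArg (fun p => p.2.2.2) e2
    intro i i' hij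
    by_cases hix : i = x
    · by_cases hjx : i' = x
      · rw [hix, hjx]
      · by_cases hjy : i' = y
        · rw [hix, hjy, hfx, hfy] at hij
          injection hij with _ _ e
          exact absurd e hvv.ne
        · rw [hix, hfx, hfw i' hjx hjy] at hij
          cases hij
    · by_cases hiy : i = y
      · by_cases hjx : i' = x
        · rw [hiy, hjx, hfx, hfy] at hij
          injection hij with _ _ e
          exact absurd e.symm hvv.ne
        · by_cases hjy : i' = y
          · rw [hiy, hjy]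
          · rw [hiy, hfy, hfw i' hjx hjy] at hij
            cases hij
      · by_cases hjx : i' = x
        · rw [hjx, hfx, hfw i hix hiy] at hij
          cases hij
        · by_cases hjy : i' = y
          · rw [hjy, hfy, hfw i hix hiy] at hij
            cases hij
          · rw [hfw i hix hiy, hfw i' hjx hjy] at hij
            exact hlw hij
  refine hno b ⟨fun v => .z m ps0 v, ?_, fun v v' hvv => ⟨adj_z_z H x y W T kd δ m ps0 hvv,
    hred v v' hvv, (hc _ _).trans (hred v v' hvv)⟩⟩
  intro v v' hvv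
  injection hvv

end MP3240N
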