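import Pool.Agent.Lib.MP_3240be_co.N49.RF
import Pool.Agent.Lib.MP_3240be_co.P57.Pone
import Pool.Agent.Lib.MP_3240be_co.X70.Frs

/-!
# MP_3240be_co: leaf lemma, row R8: forests and separating sets in the gadget
-/

set_option autoImplicit false

namespace MP3240N49

open Finset MP3240LEAF
open MP3240R hiding Fo PR
open MP3240C (CxB)
open MP3240CO (XG Near)
open MP3240X (VQ cq bz Frst Con ConS frst_of_sparse frst_pair)
open Pool.Agent.Lib.MP_3240be_co.H36.Chrom (Sparse Leaf)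

section tools
variable {V : Type} {G : V → V → Prop}

theorem dg_le {G G' : V → V → Prop} {S S' : Finset V} {v : V}
    (h : ∀ x ∈ S, G v x → x ∈ S' ∧ G' v x) : dg G S v ≤ dg G' S' v := by
  classical
  unfold dg
  apply Finset.card_le_card
  intro x hx
  obtain ⟨hx1, hx2⟩ := Finset.mem_filter.1 hx
  exact Finset.mem_filter.2 (h x hx1 hx2)

theorem dg_zero {G : V → V → Prop} {S : Finset V} {v : V} (h : ∀ x ∈ S, ¬ G v x) :
    dg G S v ≤ 1 := by
  classical
  unfold dg
  rw [Finset.filter_eq_empty_iff.2 (fun x hx => h x hx)]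
  simp

/-- In a forest every nonempty set has a vertex of degree at most one. -/
theorem fo_peel (hF : Fo G) (S : Finset V) (hS : S.Nonempty) : ∃ v ∈ S, dg G S v ≤ 1 := by
  by_contra hcon
  push Not at hcon
  have h1 := fo_iff.1 hF S hS
  rw [cnt_eq_sum] at h1
  have h2 : ∑ _v ∈ S, 2 ≤ ∑ v ∈ S, dg G S v := Finset.sum_le_sum (fun v hv => hcon v hv)
  rw [Finset.sum_const, smul_eq_mul] at h2
  omega

/-- In a forest there is a vertex of degree at most one outside a set `Q` which contains at most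
two adjacent vertices of `S`. -/
theorem peel_out' (hF : Fo G) (hs : ∀ x y, G x y → G y x) (S : Finset V) (Q : V → Prop)
    (hQ : ∀ a ∈ S, ∀ b ∈ S, Q a → Q b → a = b ∨ (G a b ∧ ∀ c ∈ S, Q c → c = a ∨ c = b))
    {v₀ : V} (h0 : v₀ ∈ S) (h0Q : ¬ Q v₀) : ∃ v ∈ S, ¬ Q v ∧ dg G S v ≤ 1 := by
  by_cases h1 : ∃ a ∈ S, Q a
  · obtain ⟨a, ha, hQa⟩ := h1
    by_cases h2 : ∃ b ∈ S, Q b ∧ a ≠ b
    · obtain ⟨b, hb, hQb, hab⟩ := h2
      obtain ⟨hG, h3⟩ := (hQ a ha b hb hQa hQb).resolve_left hab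
      obtain ⟨v, hv, hva, hvb, hd⟩ := peel_out hF hs S a b (fun _ _ => Or.inr hG) h0
        (fun h => h0Q (h ▸ hQa)) (fun h => h0Q (h ▸ hQb))
      exact ⟨v, hv, fun h => (h3 v hv h).elim hva hvb, hd⟩
    · push Not at h2
      obtain ⟨v, hv, hva, -, hd⟩ := peel_out hF hs S a a (fun _ _ => Or.inl rfl) h0
        (fun h => h0Q (h ▸ hQa)) (fun h => h0Q (h ▸ hQa))
      exact ⟨v, hv, fun h => hva (h2 v hv h).symm, hd⟩
  · push Not at h1
    obtain ⟨v, hv, hd⟩ := fo_peel hF S ⟨v₀, h0⟩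
    exact ⟨v, hv, h1 v hv, hd⟩

/-- It is enough to peel monochromatic sets. -/
theorem fo_of_peel_cls {K : Type} {κ : V → K} (hi : ∀ x, ¬ G x x) (hs : ∀ x y, G x y → G y x)
    (h : ∀ S : Finset V, S.Nonempty → (∀ x ∈ S, ∀ y ∈ S, κ x = κ y) → ∃ v ∈ S, dg G S v ≤ 1) :
    Fo (fun x y => G x y ∧ κ x = κ y) := by
  classical
  apply fo_of_peel
  · exact fun x hx => hi x hx.1
  · exact fun x y hx => ⟨hs _ _ hx.1, hx.2.symm⟩
  · rintro S ⟨v₀, hv₀⟩
    obtain ⟨v, hv, hd⟩ := h (S.filter (fun x => κ x = κ v₀)) ⟨v₀, Finset.mem_filter.2 ⟨hv₀, rfl⟩⟩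
      (fun x hx y hy => (Finset.mem_filter.1 hx).2.trans (Finset.mem_filter.1 hy).2.symm)
    obtain ⟨hv1, hv2⟩ := Finset.mem_filter.1 hv
    refine ⟨v, hv1, le_trans (dg_le ?_) hd⟩
    rintro x hx1 ⟨hx2, hx3⟩
    exact ⟨Finset.mem_filter.2 ⟨hx1, hx3.symm.trans hv2⟩, hx2⟩

/-- Pull back of a forest along a map which is injective on the support. -/
theorem fo_pull {W : Type} {G' : W → W → Prop} (hF : Fo G') (A : Set V) (e : V → W)
    (he : ∀ x ∈ A, ∀ y ∈ A, e x = e y → x = y)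
    (h : ∀ x y, G x y → x ∈ A ∧ y ∈ A ∧ G' (e x) (e y)) : Fo G := by
  classical
  rw [fo_iff] at hF ⊢
  intro S hS
  set T := (S.filter (fun x => x ∈ A)).image e with hT
  have h1 : cnt G S ≤ cnt G' T := by
    unfold cnt
    refine Finset.card_le_card_of_injOn (fun p => (e p.1, e p.2)) ?_ ?_
    · intro p hp
      have hp' := Finset.mem_coe.1 hp
      simp only [Finset.mem_filter, Finset.mem_product] at hp'
      obtain ⟨h1, h2, h3⟩ := h _ _ hp'.2
      refine Finset.mem_coe.2 (Finset.mem_filter.2 ⟨Finset.mem_product.2 ⟨?_, ?_⟩, h3⟩)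
      · exact Finset.mem_image_of_mem _ (Finset.mem_filter.2 ⟨hp'.1.1, h1⟩)
      · exact Finset.mem_image_of_mem _ (Finset.mem_filter.2 ⟨hp'.1.2, h2⟩)
    · intro p hp q hq hpq
      have hp' := Finset.mem_coe.1 hp
      have hq' := Finset.mem_coe.1 hq
      simp only [Finset.mem_filter, Finset.mem_product] at hp' hq'
      obtain ⟨h1, h2, -⟩ := h _ _ hp'.2
      obtain ⟨h3, h4, -⟩ := h _ _ hq'.2
      exact Prod.ext (he _ h1 _ h3 (Prod.ext_iff.1 hpq).1) (he _ h2 _ h4 (Prod.ext_iff.1 hpq).2)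
  have h2 : T.card ≤ S.card :=
    Finset.card_image_le.trans (Finset.card_le_card (Finset.filter_subset _ _))
  rcases T.eq_empty_or_nonempty with h3 | h3
  · rw [h3, cnt_empty] at h1
    have := Finset.card_pos.2 hS
    omega
  · have := hF T h3
    omega

end tools

section cqf
variable {n s : ℕ} {H : SimpleGraph (Fin n)} {Bl J C : Type} {xs ys : Fin s → Fin n}
  {ty : Bl → Fin s → H.Dart} {io : Bl → Fin s → J} {R : C → C → Prop} {A : C → Prop}

/-- Vertices of complexes. -/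
def IsG : VQ H s Bl J C → Prop
  | .g _ _ _ _ _ => True
  | _ => False

theorem bz_in {b : Bl} {w v : Fin n} {j : Fin s} {i : J} (h : bz xs ys ty io b w j i v) :
    io b j = i ∧ InBlob (C := C) ty io b (.z j i v) := by
  obtain ⟨h1, h2⟩ := h
  subst h1
  refine ⟨rfl, Or.inr ⟨j, ?_⟩⟩
  rcases h2 with ⟨rfl, -⟩ | ⟨rfl, -⟩
  · exact Or.inl rfl
  · exact Or.inr rfl

theorem cq_slot {b : Bl} {w : Fin n} {x : VQ H s Bl J C} (h : cq xs ys ty io R A (.b b w) x)
    (hx : ¬ IsG x) : InBlob ty io b x := by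
  cases x with
  | b b' w' => exact Or.inl ⟨w', by rw [h.1]⟩
  | z j i v => exact (bz_in h).2
  | g j i φ w' c => exact absurd trivial hx

theorem cq_pass {j : Fin s} {i : J} {v : Fin n} {x : VQ H s Bl J C}
    (h : cq xs ys ty io R A (.z j i v) x) :
    ∃ b w, x = .b b w ∧ io b j = i ∧ InBlob (C := C) ty io b (.z j i v) := by
  cases x with
  | b b' w' => exact ⟨b', w', rfl, bz_in h⟩
  | z j' i' v' => exact absurd h id
  | g j' i' φ w' c => exact absurd h id

theorem inBlob_slot {b b' : Bl} {w : Fin n} (h : InBlob (C := C) ty io b (.b b' w)) : b' = b := by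
  rcases h with ⟨w', h⟩ | ⟨j, h | h⟩
  · cases h
    rfl
  · cases h
  · cases h

theorem inBlob_pass {b : Bl} {j : Fin s} {i : J} {v : Fin n}
    (h : InBlob (C := C) ty io b (.z j i v)) : io b j = i := by
  rcases h with ⟨w', h⟩ | ⟨j', h | h⟩
  · cases h
  · cases h
    rfl
  · cases h
    rfl

theorem inBlob_not_g {b : Bl} {x : VQ H s Bl J C} (h : InBlob ty io b x) : ¬ IsG x := by
  rcases h with ⟨w', rfl⟩ | ⟨j', rfl | rfl⟩ <;> exact fun h => h

/-- Two roots of one blob at the same index: equal or the root pair. -/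
theorem roots_pair (hX : XG H ∅ xs ys) {b : Bl} {j : Fin s} {v v' : Fin n}
    (h : InBlob (C := C) ty io b (.z j (io b j) v)) (h' : InBlob (C := C) ty io b (.z j (io b j) v')) :
    v = v' ∨ H.Adj (posB xs ys ty b (.z (C := C) (Bl := Bl) j (io b j) v))
      (posB xs ys ty b (.z (C := C) (Bl := Bl) j (io b j) v')) := by
  obtain ⟨-, -, h3⟩ := InBlob.pair h h'
  by_cases hv : v = v'
  · exact Or.inl hv
  · right
    rcases h3 rfl hv with ⟨rfl, rfl⟩ | ⟨rfl, rfl⟩
    · rw [posB_fst, posB_snd]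
      exact hX.adj j
    · rw [posB_fst, posB_snd]
      exact (hX.adj j).symm

end cqf

section main
variable {n s p : ℕ} {H : SimpleGraph (Fin n)} {Bl J C V : Type} [Fintype V]
  {M : SimpleGraph V} {xs ys : Fin s → Fin n} {ty : Bl → Fin s → H.Dart} {io : Bl → Fin s → J}
  {R : C → C → Prop} {A : C → Prop} {F : V → VQ H s Bl J C}

open Classical in
/-- The blobs with a slot in `S`. -/
noncomputable def US (F : V → VQ H s Bl J C) (S : Finset V) : Finset Bl :=
  S.biUnion (fun u => match F u with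
    | .b b _ => {b}
    | _ => ∅)

omit [Fintype V] in
theorem mem_US {S : Finset V} {b : Bl} : b ∈ US F S ↔ ∃ u ∈ S, ∃ w, F u = .b b w := by
  classical
  unfold US
  rw [Finset.mem_biUnion]
  constructor
  · rintro ⟨u, hu, h⟩
    refine ⟨u, hu, ?_⟩
    rcases hF : F u with ⟨b', w'⟩ | ⟨j, i, v⟩ | ⟨j, i, φ, w, c⟩
    · rw [hF] at h
      simp only [Finset.mem_singleton] at h
      exact ⟨w', by rw [h]⟩
    · rw [hF] at h
      simp at h
    · rw [hF] at h
      simp at h
  · rintro ⟨u, hu, w, h⟩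
    refine ⟨u, hu, ?_⟩
    rw [h]
    simp

omit [Fintype V] in
theorem card_US (S : Finset V) : (US F S).card ≤ S.card := by
  classical
  unfold US
  refine Finset.card_biUnion_le.trans ((Finset.sum_le_card_nsmul _ _ 1 ?_).trans (by simp))
  intro u _
  rcases hF : F u with ⟨b', w'⟩ | ⟨j, i, v⟩ | ⟨j, i, φ, w, c⟩
  · simp
  · simp
  · simp

/-- The colouring `κ` comes from colourings `f b` of the positions. -/
structure Col (M : SimpleGraph V) (xs ys : Fin s → Fin n) (ty : Bl → Fin s → H.Dart)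
    (io : Bl → Fin s → J) (F : V → VQ H s Bl J C) (κ : V → Fin (p + 1))
    (f : Bl → Fin n → Fin (p + 1)) (PP : Bl → Finset (Fin n)) : Prop where
  pos : ∀ b ∈ US F univ, ∀ u, InBlob ty io b (F u) → κ u = f b (posB xs ys ty b (F u))
  mem : ∀ b ∈ US F univ, ∀ u, InBlob ty io b (F u) → posB xs ys ty b (F u) ∈ PP b
  rf : ∀ b ∈ US F univ, f b ∈ RF H (PP b)
  cpx : ∀ u v, IsG (F u) → M.Adj u v → κ u ≠ κ v

variable {κ : V → Fin (p + 1)} {f : Bl → Fin n → Fin (p + 1)} {PP : Bl → Finset (Fin n)}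

/-- The classes induce forests. -/
theorem Col.fo (hI : Is2 H p M xs ys ty io R A F) (hV : Fintype.card V ≤ n)
    (hC : Col M xs ys ty io F κ f PP) : Fo (fun u v => M.Adj u v ∧ κ u = κ v) := by
  classical
  apply fo_of_peel_cls (fun x => M.loopless.irrefl x) (fun x y h => h.symm)
  intro S hS hmono
  -- a vertex of a complex is isolated
  by_cases hg : ∃ u ∈ S, IsG (F u)
  · obtain ⟨u, hu, hug⟩ := hg
    exact ⟨u, hu, dg_zero (fun x hx hux => hC.cpx u x hug hux (hmono u hu x hx))⟩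
  push Not at hg
  rcases (US F S).eq_empty_or_nonempty with hU | hU
  · -- only passengers
    obtain ⟨u, hu⟩ := hS
    refine ⟨u, hu, dg_zero (fun x hx hux => ?_)⟩
    have h1 := hI.adj u x hux
    rcases hF : F u with ⟨b', w'⟩ | ⟨j, i, v⟩ | ⟨j, i, φ, w, c⟩
    · have : b' ∈ US F S := mem_US.2 ⟨u, hu, w', hF⟩
      rw [hU] at this
      exact absurd this (Finset.notMem_empty _)
    · rw [hF] at h1
      obtain ⟨b, w, hx', -⟩ := cq_pass h1
      have : b ∈ US F S := mem_US.2 ⟨x, hx, w, hx'⟩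
      rw [hU] at this
      exact absurd this (Finset.notMem_empty _)
    · exact hg u hu (by rw [hF]; trivial)
  -- a leaf blob
  obtain ⟨m, hm, hleaf⟩ : ∃ m ∈ US F S, ∀ j j', (∃ b ∈ US F S, b ≠ m ∧ io m j = io b j) →
      (∃ b ∈ US F S, b ≠ m ∧ io m j' = io b j') → j = j' := by
    rcases Nat.lt_or_ge (US F S).card 2 with hlt | hge
    · obtain ⟨m, hm⟩ := hU
      refine ⟨m, hm, ?_⟩
      rintro j j' ⟨b, hb, hbm, -⟩ _
      exact absurd (Finset.card_le_one.1 (by omega) b hb m hm) hbm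
    · have hc : (US F S).card ≤ n * n := by
        have h1 := card_US (F := F) S
        have h2 : S.card ≤ Fintype.card V := Finset.card_le_univ S
        have h3 : n ≤ n * n := Nat.le_mul_self n
        omega
      obtain ⟨m, hm, m', hm', hmm, hl, -⟩ := hI.sp (US F S) hge hc
      refine ⟨m, hm, ?_⟩
      rintro j j' ⟨b, hb, hbm, e⟩ ⟨b', hb', hbm', e'⟩
      exact hI.ioi m (hl b hb b' hb' hbm hbm' j j j' j' e e')
  have hmU : m ∈ US F univ := by
    obtain ⟨u, _, w, h⟩ := mem_US.1 hm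
    exact mem_US.2 ⟨u, Finset.mem_univ _, w, h⟩
  -- the virtual class graph of the body of `m`
  set G' : V → V → Prop := fun u v => InBlob ty io m (F u) ∧ InBlob ty io m (F v) ∧
    H.Adj (posB xs ys ty m (F u)) (posB xs ys ty m (F v)) ∧ κ u = κ v with hG'
  have hG's : ∀ x y, G' x y → G' y x := fun x y h => ⟨h.2.1, h.1, h.2.2.1.symm, h.2.2.2.symm⟩
  have hG'F : Fo G' := by
    refine fo_pull (hC.rf m hmU) {u | InBlob ty io m (F u)} (fun u => posB xs ys ty m (F u)) ?_ ?_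
    · intro x hx y hy he
      exact hI.inj (posB_inj hI.xg hx hy (hI.inn x) (hI.inn y) he)
    · rintro x y ⟨h1, h2, h3, h4⟩
      refine ⟨h1, h2, h3, hC.mem m hmU x h1, hC.mem m hmU y h2, ?_⟩
      rw [← hC.pos m hmU x h1, ← hC.pos m hmU y h2]
      exact h4
  obtain ⟨v₀, hv₀, w₀, hFv₀⟩ := mem_US.1 hm
  have hv₀m : InBlob ty io m (F v₀) := Or.inl ⟨w₀, hFv₀⟩
  obtain ⟨v, hv, hQv, hd⟩ := peel_out' hG'F hG's (S.filter (fun u => InBlob ty io m (F u)))
    (fun x => ∃ j, (∃ b ∈ US F S, b ≠ m ∧ io m j = io b j) ∧ ∃ v, F x = .z j (io m j) v)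
    (by
      rintro a ha b hb ⟨j, hj, v, hFa⟩ ⟨j', hj', v', hFb⟩
      obtain rfl : j = j' := hleaf j j' hj hj'
      obtain ⟨ha1, ha2⟩ := Finset.mem_filter.1 ha
      obtain ⟨hb1, hb2⟩ := Finset.mem_filter.1 hb
      have ha3 := ha2
      have hb3 := hb2
      rw [hFa] at ha3
      rw [hFb] at hb3
      by_cases hvv : v = v'
      · left
        apply hI.inj
        rw [hFa, hFb, hvv]
      · right
        have hadj := (roots_pair hI.xg ha3 hb3).resolve_left hvv
        refine ⟨⟨ha2, hb2, ?_, hmono a ha1 b hb1⟩, ?_⟩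
        · rw [hFa, hFb]
          exact hadj
        · rintro c hc ⟨j'', hj'', v'', hFc⟩
          obtain rfl : j = j'' := hleaf j j'' hj hj''
          obtain ⟨hc1, hc2⟩ := Finset.mem_filter.1 hc
          rw [hFc] at hc2
          by_cases h1 : v'' = v
          · left
            apply hI.inj
            rw [hFa, hFc, h1]
          · by_cases h2 : v'' = v'
            · right
              apply hI.inj
              rw [hFb, hFc, h2]
            · exfalso
              have q1 := (InBlob.pair ha3 hb3).2.2 rfl hvv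
              have q2 := (InBlob.pair ha3 hc2).2.2 rfl (Ne.symm h1)
              rcases q1 with ⟨q1, q1'⟩ | ⟨q1, q1'⟩ <;> rcases q2 with ⟨q2, q2'⟩ | ⟨q2, q2'⟩
              · exact h2 (q2'.trans q1'.symm)
              · exact (ty m j).adj.ne (q1.symm.trans q2)
              · exact (ty m j).adj.ne (q2.symm.trans q1)
              · exact h2 (q2'.trans q1'.symm))
    (Finset.mem_filter.2 ⟨hv₀, hv₀m⟩)
    (by
      rintro ⟨j, -, v, h⟩
      rw [hFv₀] at h
      cases h)
  obtain ⟨hv1, hv2⟩ := Finset.mem_filter.1 hv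
  refine ⟨v, hv1, le_trans (dg_le ?_) hd⟩
  intro x hx1 hx2
  have h1 := hI.adj v x hx2
  have hxm : InBlob ty io m (F x) := by
    rcases hF : F v with ⟨b', w'⟩ | ⟨j, i, z⟩ | ⟨j, i, φ, w, c⟩
    · rw [hF] at h1 hv2
      obtain rfl := inBlob_slot hv2
      exact cq_slot h1 (hg x hx1)
    · rw [hF] at h1 hv2
      obtain ⟨b, w, hFx, hbi, -⟩ := cq_pass h1
      have hi := inBlob_pass hv2
      by_cases hbm : b = m
      · rw [hFx, hbm]
        exact Or.inl ⟨w, rfl⟩
      · exfalso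
        refine hQv ⟨j, ⟨b, mem_US.2 ⟨x, hx1, w, hFx⟩, hbm, hi.trans hbi.symm⟩, z, ?_⟩
        rw [hF, hi]
    · exact absurd (by rw [hF]; trivial) (hg v hv1)
  exact ⟨Finset.mem_filter.2 ⟨hx1, hxm⟩, hv2, hxm, posB_adj hv2 hxm h1, hmono v hv1 x hx1⟩

end main

end MP3240N49
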