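import Pool.Agent.Lib.MP_3240be_co.N49.Cfo

/-!
# MP_3240be_co: leaf lemma, row R8: separating sets in the gadget
-/

set_option autoImplicit false

namespace MP3240N49

open Finset MP3240LEAF
open MP3240R hiding Fo PR
open MP3240C (CxB)
open MP3240CO (XG Near)
open MP3240X (VQ cq bz Frst Con ConS frst_of_sparse frst_pair)
open Pool.Agent.Lib.MP_3240be_co.H36.Chrom (Sparse Leaf)

section main
variable {n s p : ℕ} {H : SimpleGraph (Fin n)} {Bl J C V : Type} [Fintype V]
  {M : SimpleGraph V} {xs ys : Fin s → Fin n} {ty : Bl → Fin s → H.Dart} {io : Bl → Fin s → J}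
  {R : C → C → Prop} {A : C → Prop} {F : V → VQ H s Bl J C}
  {κ : V → Fin (p + 1)} {f : Bl → Fin n → Fin (p + 1)} {PP : Bl → Finset (Fin n)}

/-- Two adjacent vertices outside the complexes lie in a common body, one of them is a slot. -/
theorem body_edge (hI : Is2 H p M xs ys ty io R A F) {u v : V} (huv : M.Adj u v)
    (hu : ¬ IsG (F u)) (hv : ¬ IsG (F v)) : ∃ b ∈ US F univ, InBlob ty io b (F u) ∧
      InBlob ty io b (F v) := by
  have h1 := hI.adj u v huv
  rcases hF : F u with ⟨b', w'⟩ | ⟨j, i, z⟩ | ⟨j, i, φ, w, c⟩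
  · rw [hF] at h1
    exact ⟨b', mem_US.2 ⟨u, Finset.mem_univ _, w', hF⟩, Or.inl ⟨w', rfl⟩, cq_slot h1 hv⟩
  · rw [hF] at h1
    obtain ⟨b, w, h2, -, h3⟩ := cq_pass h1
    exact ⟨b, mem_US.2 ⟨v, Finset.mem_univ _, w, h2⟩, h3, by rw [h2]; exact Or.inl ⟨w, rfl⟩⟩
  · exact absurd (by rw [hF]; trivial) hu

/-- The branch of `b` at the passenger set `(j, io b j)`. -/
def Br [DecidableEq Bl] (io : Bl → Fin s → J) (U : Finset Bl) (b : Bl) (j : Fin s) :
    VQ H s Bl J C → Prop
  | .b b' _ => b' ≠ b ∧ ∃ ζ : Fin s × J, io b' ζ.1 = ζ.2 ∧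
      Con (fun (b : Bl) (t : Fin s × J) => io b t.1 = t.2) (U.erase b) (j, io b j) ζ
  | .z j' i' _ => Con (fun (b : Bl) (t : Fin s × J) => io b t.1 = t.2) (U.erase b) (j, io b j)
      (j', i')
  | .g _ _ _ _ _ => False

/-- The used blobs form a forest. -/
theorem frst_U [DecidableEq Bl] (hI : Is2 H p M xs ys ty io R A F) (hV : Fintype.card V ≤ n) :
    Frst (fun (b : Bl) (t : Fin s × J) => io b t.1 = t.2) (US F univ) := by
  apply frst_pair hI.ioi
  apply frst_of_sparse hI.sp
  have h1 := card_US (F := F) univ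
  have h2 : (univ : Finset V).card = Fintype.card V := Finset.card_univ
  have h3 : n ≤ n * n := Nat.le_mul_self n
  omega

/-- **Separation.** -/
theorem Col.sep (hI : Is2 H p M xs ys ty io R A F) (hV : Fintype.card V ≤ n)
    (hC : Col M xs ys ty io F κ f PP) {b : Bl} (hb : b ∈ US F univ) (D₀ : Set (Fin n))
    (hD₀ : ∀ x y, x ∈ D₀ → sm H (PP b) (f b) x y → y ∈ D₀) (c : Fin (p + 1)) :
    ∃ D : Set V, (∀ u, InBlob ty io b (F u) → (u ∈ D ↔ κ u = c ∧ posB xs ys ty b (F u) ∈ D₀)) ∧
      (∀ u v, u ∈ D → M.Adj u v → κ u = κ v → v ∈ D) ∧ (∀ u ∈ D, ¬ IsG (F u)) ∧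
      ∀ u b' j, b' ∈ US F univ → b' ≠ b → io b' j = io b j → ¬ InBlob ty io b (F u) →
        InBlob ty io b' (F u) → u ∈ D → ∃ a, InBlob ty io b (F a) ∧ (∃ v, F a = .z j (io b j) v) ∧
          posB xs ys ty b (F a) ∈ D₀ := by
  classical
  have hfr := frst_U (R := R) (A := A) hI hV
  set att : Bl → Fin s × J → Prop := fun (b : Bl) (t : Fin s × J) => io b t.1 = t.2 with hatt
  set U : Finset Bl := US F univ with hU
  -- a root of `b` at `j` in the set
  set Rt : Fin s → Prop := fun j => ∃ a, InBlob ty io b (F a) ∧ (∃ v, F a = .z j (io b j) v) ∧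
    κ a = c ∧ posB xs ys ty b (F a) ∈ D₀ with hRt
  -- the branch of a vertex is unique
  have huniq : ∀ x : VQ H s Bl J C, ∀ j j', Br io U b j x → Br io U b j' x → (∀ b' w, x = .b b' w →
      b' ∈ U) → j = j' := by
    intro x j j' h1 h2 hxU
    have key : ∀ ζ ζ' : Fin s × J, Con att (U.erase b) (j, io b j) ζ →
        Con att (U.erase b) (j', io b j') ζ' → Con att (U.erase b) ζ ζ' → j = j' := by
      intro ζ ζ' h1 h2 h3
      have := hfr b hb (j, io b j) (j', io b j') rfl rfl ((h1.trans h3).trans h2.symm)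
      exact (Prod.ext_iff.1 this).1
    cases x with
    | b b' w =>
      obtain ⟨hne, ζ, e, h3⟩ := h1
      obtain ⟨-, ζ', e', h3'⟩ := h2
      exact key ζ ζ' h3 h3' (Relation.ReflTransGen.single ⟨b', Finset.mem_erase.2
        ⟨hne, hxU b' w rfl⟩, e, e'⟩)
    | z j1 i1 v => exact key _ _ h1 h2 Relation.ReflTransGen.refl
    | g j1 i1 φ w c => exact absurd h1 id
  refine ⟨{u | κ u = c ∧ ((InBlob ty io b (F u) ∧ posB xs ys ty b (F u) ∈ D₀) ∨
    (¬ InBlob ty io b (F u) ∧ ∃ j, Br io U b j (F u) ∧ Rt j))}, ?_, ?_, ?_, ?_⟩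
  · intro u hu
    constructor
    · rintro ⟨h1, h2 | h2⟩
      · exact ⟨h1, h2.2⟩
      · exact absurd hu h2.1
    · rintro ⟨h1, h2⟩
      exact ⟨h1, Or.inl ⟨hu, h2⟩⟩
  · rintro u v ⟨hu1, hu2⟩ huv hκ
    have hug : ¬ IsG (F u) := fun h => hC.cpx u v h huv hκ
    have hvg : ¬ IsG (F v) := fun h => hC.cpx v u h huv.symm hκ.symm
    have hvc : κ v = c := hκ.symm.trans hu1
    have hcq := hI.adj u v huv
    have hcq' := hI.adj v u huv.symm
    refine ⟨hvc, ?_⟩
    rcases hu2 with ⟨hub, huD⟩ | ⟨hub, j, hBr, hRj⟩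
    · by_cases hvb : InBlob ty io b (F v)
      · left
        refine ⟨hvb, hD₀ _ _ huD ⟨posB_adj hub hvb hcq, hC.mem b hb u hub, hC.mem b hb v hvb, ?_⟩⟩
        rw [← hC.pos b hb u hub, ← hC.pos b hb v hvb]
        exact hκ
      · right
        refine ⟨hvb, ?_⟩
        rcases hF : F u with ⟨b', w'⟩ | ⟨j, i, z⟩ | ⟨j, i, φ, w, c⟩
        · exfalso
          rw [hF] at hcq hub
          obtain rfl := inBlob_slot hub
          exact hvb (cq_slot hcq hvg)
        · rw [hF] at hcq hub
          obtain ⟨b', w', hFv, hi, -⟩ := cq_pass hcq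
          have hi' := inBlob_pass hub
          have hne : b' ≠ b := by
            rintro rfl
            exact hvb (by rw [hFv]; exact Or.inl ⟨w', rfl⟩)
          refine ⟨j, ?_, u, by rw [hF]; exact hub, ⟨z, by rw [hF, hi']⟩, hu1, huD⟩
          rw [hFv]
          exact ⟨hne, (j, io b j), hi.trans hi'.symm, Relation.ReflTransGen.refl⟩
        · exact absurd (by rw [hF]; trivial) hug
    · by_cases hvb : InBlob ty io b (F v)
      · left
        refine ⟨hvb, ?_⟩
        -- `v` is a root of `b`, `u` is a slot of another blob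
        rcases hF : F v with ⟨b', w'⟩ | ⟨j', i', z⟩ | ⟨j', i', φ, w, c⟩
        · exfalso
          rw [hF] at hcq' hvb
          obtain rfl := inBlob_slot hvb
          exact hub (cq_slot hcq' hug)
        · rw [hF] at hcq' hvb
          obtain ⟨b', w', hFu, hi, -⟩ := cq_pass hcq'
          have hi' := inBlob_pass hvb
          subst hi'
          rw [hFu] at hBr
          obtain ⟨hne, ζ, e, hcon⟩ := hBr
          have hb'U : b' ∈ U := mem_US.2 ⟨u, Finset.mem_univ _, w', hFu⟩
          have hcon2 : Con att (U.erase b) (j, io b j) (j', io b j') :=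
            Relation.ReflTransGen.tail hcon ⟨b', Finset.mem_erase.2 ⟨hne, hb'U⟩, e, hi⟩
          have hjj := (Prod.ext_iff.1 (hfr b hb (j, io b j) (j', io b j') rfl rfl hcon2)).1
          simp only at hjj
          subst hjj
          obtain ⟨a, ha1, ⟨za, ha2⟩, ha3, ha4⟩ := hRj
          have ha1' := ha1
          rw [ha2] at ha1'
          rcases roots_pair hI.xg ha1' hvb with h | h
          · have hav : F a = F v := by rw [ha2, hF, h]
            rw [← hF, ← hav]
            exact ha4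
          · refine hD₀ _ _ ha4 ⟨?_, hC.mem b hb a ha1, ?_, ?_⟩
            · rw [ha2]
              exact h
            · rw [← hF]
              exact hC.mem b hb v (by rw [hF]; exact hvb)
            · have h5 := hC.pos b hb a ha1
              have h6 := hC.pos b hb v (by rw [hF]; exact hvb)
              rw [hF] at h6
              rw [← h5, ← h6, ha3, hvc]
        · exact absurd (by rw [hF]; trivial) hvg
      · right
        refine ⟨hvb, j, ?_, hRj⟩
        rcases hF : F u with ⟨b', w'⟩ | ⟨j', i', z⟩ | ⟨j', i', φ, w, c⟩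
        · have hb'U : b' ∈ U := mem_US.2 ⟨u, Finset.mem_univ _, w', hF⟩
          rw [hF] at hBr hcq
          obtain ⟨hne, ζ, e, hcon⟩ := hBr
          have h1 := cq_slot hcq hvg
          rcases hFv : F v with ⟨b'', w''⟩ | ⟨j'', i'', z⟩ | ⟨j'', i'', φ, w, c⟩
          · rw [hFv] at h1
            obtain rfl := inBlob_slot h1
            exact ⟨hne, ζ, e, hcon⟩
          · rw [hFv] at h1
            have h2 := inBlob_pass h1
            exact Relation.ReflTransGen.tail hcon ⟨b', Finset.mem_erase.2 ⟨hne, hb'U⟩, e, h2⟩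
          · exact absurd (by rw [hFv]; trivial) hvg
        · rw [hF] at hBr hcq
          obtain ⟨b', w', hFv, hi, -⟩ := cq_pass hcq
          rw [hFv]
          refine ⟨?_, (j', i'), hi, hBr⟩
          rintro rfl
          exact hvb (by rw [hFv]; exact Or.inl ⟨w', rfl⟩)
        · exact absurd (by rw [hF]; trivial) hug
  · rintro u ⟨-, ⟨h, -⟩ | ⟨-, j, h, -⟩⟩
    · exact inBlob_not_g h
    · rcases hF : F u with ⟨b', w'⟩ | ⟨j', i', z⟩ | ⟨j', i', φ, w, c⟩
      · exact fun h => h
      · exact fun h => h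
      · rw [hF] at h
        exact absurd h id
  · rintro u b' j hb' hne hj hub hub' ⟨-, ⟨h, -⟩ | ⟨-, j', h, hR⟩⟩
    · exact absurd h hub
    · have hBr : Br io U b j (F u) := by
        rcases hF : F u with ⟨b'', w'⟩ | ⟨j', i', z⟩ | ⟨j', i', φ, w, c⟩
        · rw [hF] at hub'
          obtain rfl := inBlob_slot hub'
          exact ⟨hne, (j, io b j), hj, Relation.ReflTransGen.refl⟩
        · rw [hF] at hub'
          have h1 := inBlob_pass hub'
          exact Relation.ReflTransGen.single ⟨b', Finset.mem_erase.2 ⟨hne, hb'⟩, hj, h1⟩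
        · exact absurd (by rw [hF]; trivial) (inBlob_not_g hub')
      have hjj := huniq (F u) j j' hBr h (fun b'' w hF => mem_US.2 ⟨u, Finset.mem_univ _, w, hF⟩)
      subst hjj
      obtain ⟨a, ha1, ha2, -, ha4⟩ := hR
      exact ⟨a, ha1, ha2, ha4⟩

end main

end MP3240N49
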