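import Pool.Agent.Lib.MP_3240be_co.H43.Defs2
import Pool.Agent.Lib.MP_3240be_co.S36.Defs

/-!
# MP_3240be_co: 2-connected graphs that are not bipartite (Theorem N)

Definitions and statements of the rows (board THN, helper49).  Paper: finding 4538 (Theorem N, kinds
and worlds), with the simplification that the generic worlds are those of one extra index `none`
(the pool); the lows of the pool are chosen homogeneously with respect to a given finite set of
vertices, so that no Ramsey theorem over the worlds is needed.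

Notation: `r + 1 = χ(H)`, `r ≥ 2`; `h + 1` is the least size of a colour class of `H`.
-/

set_option autoImplicit false

namespace MP3240N

open Finset MP3240T MP3240W
open Pool.Agent.Lib.MP_3240be_co.H36 (LocCol Blow)
open Pool.Agent.Lib.MP_3240be_co.H36.Chrom (Sparse)

/-! ## The graph `H` -/

/-- Every proper colouring of `H` with `r + 1` colours has more than `h` vertices of the colour
`none`. -/
def Sig {n : ℕ} (H : SimpleGraph (Fin n)) (r h : ℕ) : Prop :=
  ∀ κ : Fin n → Option (Fin r), (∀ i j, H.Adj i j → κ i ≠ κ j) →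
    h < (univ.filter (fun x => κ x = none)).card

/-- A proper colouring `κ` of `H` with `r + 1` colours, the class `none` has `h + 1` elements, one
of them, `α`, lies in no triangle. -/
structure NData {n : ℕ} (H : SimpleGraph (Fin n)) (r h : ℕ) where
  κ : Fin n → Option (Fin r)
  prop : ∀ i j, H.Adj i j → κ i ≠ κ j
  cardA : (univ.filter (fun x => κ x = none)).card = h + 1
  α : Fin n
  hα : κ α = none
  tri : ∀ i j, H.Adj α i → H.Adj α j → ¬ H.Adj i j

/-! ## Homogenisation -/

/-- Every colouring of the positions with colours in `K` has a member of `𝒞` of one colour. -/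
def BigC {b L : ℕ} (𝒞 : (Fin b → Fin L) → Prop) (K : Type) : Prop :=
  ∀ κ : Fin L → K, ∃ e, 𝒞 e ∧ ∀ x y, κ (e x) = κ (e y)

/-- `e` is a copy of `B` in `T`, and no vertex of it is isolated in `T`. -/
def CopyB {b L : ℕ} (B : SimpleGraph (Fin b)) (T : SimpleGraph (Fin L)) (e : Fin b → Fin L) :
    Prop :=
  Function.Injective e ∧ (∀ x y, B.Adj x y → T.Adj (e x) (e y)) ∧ ∀ x, ∃ y, T.Adj (e x) y

/-- The two properties of the graphs `T a`: (1) the copies of `B` in `T a` on which the vertex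
colouring `ψ₀` is constant, divided into the finitely many classes `cl`, have a big class; (2) big
classes contain copies which are homogeneous for given colourings of vertices and pairs. -/
structure Homog {b L : ℕ} (B : SimpleGraph (Fin b)) (Γ Q K₀ K : Type)
    (T : Γ → SimpleGraph (Fin L)) (K' : Γ → Type) : Prop where
  sel : ∀ (a : Γ) (ψ₀ : Fin L → K₀) (cl : (Fin b → Fin L) → Q), ∃ s : Q,
    BigC (fun e => CopyB B (T a) e ∧ (∀ x y, ψ₀ (e x) = ψ₀ (e y)) ∧ cl e = s) (K' a)
  hom : ∀ 𝒞 : Γ → (Fin b → Fin L) → Prop, (∀ a e, 𝒞 a e → CopyB B (T a) e) →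
    (∀ a, BigC (𝒞 a) (K' a)) →
    ∀ (ψ : Γ → Fin L → K) (χ : Γ → Fin L → Γ → Fin L → Bool), ∃ e : Γ → Fin b → Fin L, ∀ a,
      𝒞 a (e a) ∧ (∀ x y, ψ a (e a x) = ψ a (e a y)) ∧
      ∀ a', a ≠ a' → ∀ x y x' y', χ a (e a x) a' (e a' x') = χ a (e a y) a' (e a' y')
  ne : ∀ a, Nonempty (K' a)

/-- Row GRP.  Proof: as `MP3240S.groups` (S36/Rob.lean), by induction on the number of groups; the
new group gets `K' = K × (colours to all positions of the old groups)`, and its `T` is robust for
the colours `(Q → K') × K₀`. -/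
def GrpStatement : Prop :=
  ∀ (b g p : ℕ) (B : SimpleGraph (Fin b)), 2 ≤ p → LocCol B (2 * g ^ 2) p →
    ∀ (Γ Q K₀ K : Type) [Finite Γ] [Finite Q] [Nonempty Q] [Finite K₀] [Nonempty K₀] [Finite K]
      [Nonempty K], ∃ (L : ℕ) (T : Γ → SimpleGraph (Fin L)) (K' : Γ → Type),
        (∀ a, LocCol (T a) g p) ∧ Homog B Γ Q K₀ K T K'

/-- Row HB: the graph `B` of a world (`host 1 r` of H36/Host.lean; the first graph has no edges). -/
def HbStatement : Prop :=
  ∀ (N r g : ℕ), 1 ≤ r → ∃ (b : ℕ) (B : SimpleGraph (Fin b)), LocCol B g r ∧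
    ∀ c : Fin b → Fin b → Bool, (∀ x y, c x y = c y x) →
      ∃ A A', r + 1 ≤ A + A' ∧ Blow B c N A true ∧ Blow B c N A' false

/-- Row KW: the graph of the kinds (`robust_nat` for the complete graph on `Fin r`). -/
def KwStatement : Prop :=
  ∀ (r g : ℕ) (K : Type) [Finite K] [Nonempty K], 1 ≤ r →
    ∃ (q : ℕ) (W : SimpleGraph (Fin q)), LocCol W g r ∧
      ∀ κ : Fin q → K, ∃ e : Fin r → Fin q, (∀ j j', j ≠ j' → W.Adj (e j) (e j')) ∧
        ∀ j j', κ (e j) = κ (e j')

/-! ## The forced colours (no host) -/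

/-- Row KEY.  `r` copies `E j` of `B`, completely joined to each other, colours `η` between them,
monochromatic blow-ups with `ρ j b` parts inside; `(r + 1) h` hubs `φ a` joined to all of them,
colours `θ`.  Without a monochromatic `H`: `η` is constant, `ρ j b = 1`, `ρ j (!b) = r`, every hub
has colour `!b` on at most one copy, and every vertex that has colour `!b` on a copy is a hub.
Proof: unions of blow-ups along a clique of `η` of colour `b` (no blow-up with `r + 1` parts),
`weight_proof` (S36/Weight.lean); count the hubs: at most `h` have colour `!b` on the copy `j`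
(blow-up of `K_r` in colour `!b` + `h + 1` vertices joined to it contains `H`), at most `h` have
colour `b` on all copies; so all `r + 1` numbers are `h` and no hub is counted twice. -/
def KeyStatement : Prop :=
  ∀ (n r h b₀ : ℕ) (H : SimpleGraph (Fin n)) (_ : NData H r h) (B : SimpleGraph (Fin b₀))
    (V : Type) (G : SimpleGraph V) (c : V → V → Bool) (E : Fin r → Fin b₀ → V)
    (η : Fin r → Fin r → Bool) (ρ : Fin r → Bool → ℕ) (A : Type) [Fintype A] (φ : A → V)
    (θ : A → Fin r → Bool), 2 ≤ r → (∀ x y, c x y = c y x) → (∀ b, ¬ Emb H (cls G c b)) →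
    (∀ j, Function.Injective (E j)) → (∀ j j' x y, j ≠ j' → G.Adj (E j x) (E j' y)) →
    (∀ j j' x y, j ≠ j' → c (E j x) (E j' y) = η j j') →
    (∀ j x y, B.Adj x y → G.Adj (E j x) (E j y)) →
    (∀ j b, Blow B (fun x y => c (E j x) (E j y)) n (ρ j b) b) →
    (∀ j, r + 1 ≤ ρ j true + ρ j false) → Function.Injective φ →
    (∀ a j x, G.Adj (φ a) (E j x)) → (∀ a j x, c (φ a) (E j x) = θ a j) →
    (r + 1) * h ≤ Fintype.card A →
    ∃ b, (∀ j j', j ≠ j' → η j j' = b) ∧ (∀ j, ρ j b = 1 ∧ ρ j (!b) = r) ∧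
      (∀ a j j', θ a j = !b → θ a j' = !b → j = j') ∧
      ∀ s j, (∀ x, G.Adj s (E j x)) → (∀ x, c s (E j x) = !b) → ∃ a, s = φ a

/-- Row KEW: the part of KEY without hubs.  Proof: the union of the blow-ups of the `E j`, `j` in a
clique of `η` of colour `b`, has `∑ ρ j b` parts; `r + 1` parts would contain `H`
(`H36.Blow.copy`, `H` is `(r+1)`-colourable by `D.κ`); `MP3240S.weight_proof`. -/
def KewStatement : Prop :=
  ∀ (n r h b₀ : ℕ) (H : SimpleGraph (Fin n)) (_ : NData H r h) (B : SimpleGraph (Fin b₀))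
    (V : Type) (G : SimpleGraph V) (c : V → V → Bool) (E : Fin r → Fin b₀ → V)
    (η : Fin r → Fin r → Bool) (ρ : Fin r → Bool → ℕ), 2 ≤ r → (∀ x y, c x y = c y x) →
    (∀ b, ¬ Emb H (cls G c b)) →
    (∀ j, Function.Injective (E j)) → (∀ j j' x y, j ≠ j' → G.Adj (E j x) (E j' y)) →
    (∀ j j' x y, j ≠ j' → c (E j x) (E j' y) = η j j') →
    (∀ j x y, B.Adj x y → G.Adj (E j x) (E j y)) →
    (∀ j b, Blow B (fun x y => c (E j x) (E j y)) n (ρ j b) b) →
    (∀ j, r + 1 ≤ ρ j true + ρ j false) →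
    ∃ b, (∀ j j', j ≠ j' → η j j' = b) ∧ ∀ j, ρ j b = 1 ∧ ρ j (!b) = r

/-- Row KEC: the hubs.  (Then KEY = KEW + KEC.) -/
def KecStatement : Prop :=
  ∀ (n r h b₀ : ℕ) (H : SimpleGraph (Fin n)) (_ : NData H r h) (B : SimpleGraph (Fin b₀))
    (V : Type) (G : SimpleGraph V) (c : V → V → Bool) (E : Fin r → Fin b₀ → V) (b : Bool)
    (A : Type) [Fintype A] (φ : A → V) (θ : A → Fin r → Bool), 2 ≤ r →
    (∀ x y, c x y = c y x) → (∀ b, ¬ Emb H (cls G c b)) →
    (∀ j, Function.Injective (E j)) → (∀ j j' x y, j ≠ j' → G.Adj (E j x) (E j' y)) →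
    (∀ j j' x y, j ≠ j' → c (E j x) (E j' y) = b) →
    (∀ j x y, B.Adj x y → G.Adj (E j x) (E j y)) →
    (∀ j, Blow B (fun x y => c (E j x) (E j y)) n 1 b) →
    (∀ j, Blow B (fun x y => c (E j x) (E j y)) n r (!b)) →
    Function.Injective φ →
    (∀ a j x, G.Adj (φ a) (E j x)) → (∀ a j x, c (φ a) (E j x) = θ a j) →
    (r + 1) * h ≤ Fintype.card A →
    (∀ a j j', θ a j = !b → θ a j' = !b → j = j') ∧
      ∀ s j, (∀ x, G.Adj s (E j x)) → (∀ x, c s (E j x) = !b) → ∃ a, s = φ a

/-- Row EMR (embedding for RULE 1 and RULE 2).  In the graph `G` (one colour class): `r` sets of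
`n` vertices `E j`, completely joined to each other; `h` vertices `U` joined to all `E j x`; a
vertex `v` and sets `S j` of neighbours of `v` (either `S j` has at least `n` elements, or `v` is
joined to all `E j x`), every element of `S j` is joined to `U` and to the `E j' x`, `j' ≠ j`.
Then `G` contains `H`: `α` goes to `v`, the other vertices of class `none` to `U`, `N(α)` in class
`j` to `S j` if `S j` is large, everything else of class `j` to `E j`. -/
def EmrStatement : Prop :=
  ∀ (n r h : ℕ) (H : SimpleGraph (Fin n)) (_ : NData H r h) (V : Type) (G : SimpleGraph V)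
    (E : Fin r → Fin n → V) (U : Fin h → V) (v : V) (S : Fin r → Finset V),
    (∀ j, Function.Injective (E j)) → Function.Injective U →
    (∀ j j' x y, j ≠ j' → G.Adj (E j x) (E j' y)) → (∀ s j x, G.Adj (U s) (E j x)) →
    (∀ j, n ≤ (S j).card ∨ ∀ x, G.Adj v (E j x)) → (∀ j, ∀ a ∈ S j, G.Adj v a) →
    (∀ j, ∀ a ∈ S j, ∀ s, G.Adj (U s) a) → (∀ j j', j ≠ j' → ∀ a ∈ S j, ∀ x, G.Adj a (E j' x)) →
    (∀ j j', j ≠ j' → Disjoint (S j) (S j')) → (∀ j, ∀ a ∈ S j, ∀ j' x, a ≠ E j' x) →
    (∀ j x, v ≠ E j x) → (∀ s, v ≠ U s) → Emb H G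

/-! ## The host -/

/-- The vertices of the host: `u` the common hubs; for every index (`none` = the pool) and every
kind the private hubs `c` and the lows `l` of this world; `z` the free vertices of the gadgets. -/
inductive VN (n h q L : ℕ) (I M : Type) : Type
  | u : Fin h → VN n h q L I M
  | c : Option I → Fin q → Fin h → VN n h q L I M
  | l : Option I → Fin q → Fin L → VN n h q L I M
  | z : M → (Fin q → Fin L) → Fin n → VN n h q L I M

/-- The slots of the gadgets: slots of H43 (number `ν` of the blob: kind `kd ν`) and positions. -/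
abbrev SP (n N q L : ℕ) : Type := Slot n N × (Fin q → Fin L)

/-- The world (index, kind) and position of the low in a slot. -/
def low {n h N q L : ℕ} {I M : Type} (kd : Fin N → Fin q) (δ : M → SP n N q L → I) (m : M)
    (t : Slot n N) (ps : Fin q → Fin L) : VN n h q L I M :=
  .l (some (δ m (t, ps))) (kd t.2.2.1) (ps (kd t.2.2.1))

/-- The edges of the host, in one direction. `T (true, w)`: the pool. -/
def relN {n h N q L : ℕ} {I M : Type} (H : SimpleGraph (Fin n)) (x y : Fin n)
    (W : SimpleGraph (Fin q)) (T : Bool × Fin q → SimpleGraph (Fin L)) (kd : Fin N → Fin q)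
    (δ : M → SP n N q L → I) : VN n h q L I M → VN n h q L I M → Prop
  | .u _, .l _ _ _ => True
  | .c i w _, .l i' w' _ => (i = i' ∧ w = w') ∨ W.Adj w w'
  | .l i w t, .l i' w' t' => W.Adj w w' ∨ (i = i' ∧ w = w' ∧ (T (i.isNone, w)).Adj t t') ∨
      ∃ m ps s s', VN.l i w t = low (h := h) kd δ m s ps ∧
        VN.l i' w' t' = low (h := h) kd δ m s' ps ∧ blobAdj H x y s s'
  | .z m ps v, .l i w t => ∃ s, VN.l i w t = low (h := h) kd δ m s ps ∧ zAdj H x y v s
  | .z m ps v, .z m' ps' v' => m = m' ∧ ps = ps' ∧ H.Adj v v'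
  | _, _ => False

/-- The host. -/
def FN {n h N q L : ℕ} {I M : Type} (H : SimpleGraph (Fin n)) (x y : Fin n)
    (W : SimpleGraph (Fin q)) (T : Bool × Fin q → SimpleGraph (Fin L)) (kd : Fin N → Fin q)
    (δ : M → SP n N q L → I) : SimpleGraph (VN n h q L I M) :=
  SimpleGraph.fromRel (relN H x y W T kd δ)

/-- The red edges of the good colouring, in one direction. -/
def redN {n h q L : ℕ} {I M : Type} (W : SimpleGraph (Fin q)) :
    VN n h q L I M → VN n h q L I M → Prop
  | .u _, .l _ _ _ => True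
  | .c _ w _, .l _ w' _ => W.Adj w w'
  | .l _ w _, .l _ w' _ => W.Adj w w'
  | .z _ _ _, .z _ _ _ => True
  | _, _ => False

/-- The good colouring (`true` = red). -/
noncomputable def cN {n h q L : ℕ} {I M : Type} (W : SimpleGraph (Fin q))
    (a b : VN n h q L I M) : Bool := by
  classical exact decide (redN W a b ∨ redN W b a)

/-! ## The good colouring -/

/-- Row RDN: the red copies of `H` are the sets `z m ps`.  Proof: a copy without `z`'s is coloured
by the colours of the kinds (`LocCol W n r`), the `u`'s get the colour `none`; `Sig`. -/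
def RdnStatement : Prop :=
  ∀ (n h N q L r : ℕ) (H : SimpleGraph (Fin n)) (x y : Fin n) (W : SimpleGraph (Fin q))
    (T : Bool × Fin q → SimpleGraph (Fin L)) (kd : Fin N → Fin q) (I M : Type)
    (δ : M → SP n N q L → I), Sig H r h → H.Connected → LocCol W n r →
    ∀ f : Fin n → VN n h q L I M, Function.Injective f →
      (∀ i j, H.Adj i j → (cls (FN H x y W T kd δ) (cN W) true).Adj (f i) (f j)) →
      ∃ m ps, ∀ i, ∃ v, f i = .z m ps v

/-- Row GAN: no blue copy of `H` in the gadgets of one hyperedge.  Proof: as `bv1h_proof`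
(H43/Bv1h.lean), from `Bvh.core`. -/
def GanStatement : Prop :=
  ∀ (n h N q L : ℕ) (H : SimpleGraph (Fin n)) (x y : Fin n) (W : SimpleGraph (Fin q))
    (T : Bool × Fin q → SimpleGraph (Fin L)) (kd : Fin N → Fin q) (I M : Type)
    (δ : M → SP n N q L → I), 2 ≤ n → H.Adj x y → TwoC (ed H) → H.Connected →
    (∀ m, Function.Injective (δ m)) → Sparse (n * n) δ →
    ∀ (f : Fin n → VN n h q L I M) (m : M), Function.Injective f →
      (∀ i j, H.Adj i j → (cls (FN H x y W T kd δ) (cN W) false).Adj (f i) (f j)) →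
      ¬ ∀ i, (∃ ps v, f i = .z m ps v) ∨ ∃ t ps, f i = low kd δ m t ps

/-- Row BLN: no blue copy of `H`.  Proof: as `bv2_proof` (H43/Bv2.lean), with `Pc2Statement` for
the index set `I × Fin q` (the worlds), the hyperedge map `m t ↦ (δ m t, kind of t)` (it is sparse
because `δ` is) and GAN; a copy in a world is coloured by `LocCol (T a) n r`, its hubs get the
colour `none`; `Sig`. -/
def BlnStatement : Prop :=
  ∀ (n h N q L r : ℕ) (H : SimpleGraph (Fin n)) (x y : Fin n) (W : SimpleGraph (Fin q))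
    (T : Bool × Fin q → SimpleGraph (Fin L)) (kd : Fin N → Fin q) (I M : Type)
    (δ : M → SP n N q L → I), Sig H r h → 2 ≤ n → H.Adj x y → TwoC (ed H) → H.Connected →
    (∀ a, LocCol (T a) n r) → (∀ m, Function.Injective (δ m)) → Sparse (n * n) δ →
    ¬ Emb H (cls (FN (h := h) H x y W T kd δ) (cN W) false)

/-- Row NFN: the host is not Ramsey for `H'`.  Proof: as `nfv_proof` (H43/Nfv.lean). -/
def NfnStatement : Prop :=
  ∀ (n n' h N q L r : ℕ) (H : SimpleGraph (Fin n)) (H' : SimpleGraph (Fin n')) (x y : Fin n)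
    (W : SimpleGraph (Fin q)) (T : Bool × Fin q → SimpleGraph (Fin L)) (kd : Fin N → Fin q)
    (I M : Type) (δ : M → SP n N q L → I), Sig H r h → 2 ≤ n → H.Adj x y → TwoC (ed H) →
    H.Connected → LocCol W n r → (∀ a, LocCol (T a) n r) → (∀ m, Function.Injective (δ m)) →
    Sparse (n * n) δ → H'.Connected → Emb H H' → ¬ Emb H' H →
    ¬ Arr (FN (h := h) H x y W T kd δ) H'

/-! ## Colourings of the host without monochromatic `H` -/

/-- The number of special vertices in the applications. -/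
def sm (n r : ℕ) : ℕ := r * n + 1

/-- The colours of the vertices of the worlds in the homogenisation: colours to the hubs `u`, to
the private hubs of the worlds `(some i, w)`, `(none, w)`, and to the special vertices. -/
abbrev KN (n r h q : ℕ) : Type := Fin h ⊕ (Bool × Fin q × Fin h) ⊕ Fin (sm n r) → Bool

/-- The classes of copies of `B`: colours to the hubs `u`, numbers of parts of the blow-ups. -/
abbrev QN (r h : ℕ) : Type := (Fin h → Bool) × (Bool → Fin (r + 1))

/-- The copies of `B` in the world `(p, w)` of class `s`. -/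
def Cop {n h q L b₀ r : ℕ} {I M : Type} (B : SimpleGraph (Fin b₀))
    (T : Bool × Fin q → SimpleGraph (Fin L)) (c : VN n h q L I M → VN n h q L I M → Bool)
    (p : Option I) (w : Fin q) (s : QN r h) (e : Fin b₀ → Fin L) : Prop :=
  CopyB B (T (p.isNone, w)) e ∧ (∀ x k, c (.u k) (.l p w (e x)) = s.1 k) ∧
    ∀ b, Blow B (fun x y => c (.l p w (e x)) (.l p w (e y))) n (s.2 b) b

/-- Classes chosen for all worlds, and a position in each class. -/
structure Classes {n h q L b₀ : ℕ} {I M : Type} (r : ℕ) (B : SimpleGraph (Fin b₀))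
    (T : Bool × Fin q → SimpleGraph (Fin L)) (K' : Bool × Fin q → Type)
    (c : VN n h q L I M → VN n h q L I M → Bool) where
  s : Option I → Fin q → QN r h
  two : ∀ p w, r + 1 ≤ ((s p w).2 true : ℕ) + (s p w).2 false
  big : ∀ p w, BigC (Cop B T c p w (s p w)) (K' (p.isNone, w))
  ps : Option I → Fin q → Fin L
  hps : ∀ p w k, c (.u k) (.l p w (ps p w)) = (s p w).1 k

/-- Row CLA: classes exist. -/
def ClaStatement : Prop :=
  ∀ (n h N q L r b₀ : ℕ) (H : SimpleGraph (Fin n)) (_ : NData H r h) (x y : Fin n)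
    (W : SimpleGraph (Fin q)) (T : Bool × Fin q → SimpleGraph (Fin L))
    (K' : Bool × Fin q → Type) (kd : Fin N → Fin q) (I M : Type) (δ : M → SP n N q L → I)
    (B : SimpleGraph (Fin b₀)) (c : VN n h q L I M → VN n h q L I M → Bool), 1 ≤ r → 1 ≤ b₀ →
    Homog B (Bool × Fin q) (QN r h) (Fin h → Bool) (KN n r h q) T K' →
    (∀ c : Fin b₀ → Fin b₀ → Bool, (∀ x y, c x y = c y x) →
      ∃ A A', r + 1 ≤ A + A' ∧ Blow B c n A true ∧ Blow B c n A' false) →
    (∀ x y, c x y = c y x) → (∀ b, ¬ Emb H (cls (FN H x y W T kd δ) c b)) →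
    Nonempty (Classes r B T K' c)

/-- The level of a place. -/
def plc {I : Type} (i : I) (lv : Bool) : Option I := if lv then none else some i

/-- Homogeneous copies in all worlds of the index `i` and of the pool; `S` = special vertices. -/
structure Hst {n h q L b₀ : ℕ} {I M : Type} {r : ℕ} {B : SimpleGraph (Fin b₀)}
    {T : Bool × Fin q → SimpleGraph (Fin L)} {K' : Bool × Fin q → Type}
    {c : VN n h q L I M → VN n h q L I M → Bool} (Cs : Classes r B T K' c) (i : I)
    (S : Fin (sm n r) → VN n h q L I M) where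
  e : Bool → Fin q → Fin b₀ → Fin L
  cop : ∀ lv w, Cop B T c (plc i lv) w (Cs.s (plc i lv) w) (e lv w)
  hub : ∀ lv w lv' w' k x y, c (.c (plc i lv') w' k) (.l (plc i lv) w (e lv w x)) =
    c (.c (plc i lv') w' k) (.l (plc i lv) w (e lv w y))
  spe : ∀ lv w k x y, c (S k) (.l (plc i lv) w (e lv w x)) = c (S k) (.l (plc i lv) w (e lv w y))
  crs : ∀ lv w lv' w', w ≠ w' → ∀ x y x' y',
    c (.l (plc i lv) w (e lv w x)) (.l (plc i lv') w' (e lv' w' x')) =
      c (.l (plc i lv) w (e lv w y)) (.l (plc i lv') w' (e lv' w' y'))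

/-- Row HST. -/
def HstStatement : Prop :=
  ∀ (n h q L r b₀ : ℕ) (T : Bool × Fin q → SimpleGraph (Fin L)) (K' : Bool × Fin q → Type)
    (I M : Type) (B : SimpleGraph (Fin b₀)) (c : VN n h q L I M → VN n h q L I M → Bool),
    Homog B (Bool × Fin q) (QN r h) (Fin h → Bool) (KN n r h q) T K' →
    ∀ (Cs : Classes r B T K' c) (i : I) (S : Fin (sm n r) → VN n h q L I M),
      Nonempty (Hst Cs i S)

/-- Row FRC: KEY for the worlds `(plc i (ℓ j), K j)`. -/
def FrcStatement : Prop :=
  ∀ (n h N q L r b₀ : ℕ) (H : SimpleGraph (Fin n)) (_ : NData H r h) (x y : Fin n)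
    (W : SimpleGraph (Fin q)) (T : Bool × Fin q → SimpleGraph (Fin L))
    (K' : Bool × Fin q → Type) (kd : Fin N → Fin q) (I M : Type) (δ : M → SP n N q L → I)
    (B : SimpleGraph (Fin b₀)) (c : VN n h q L I M → VN n h q L I M → Bool), 2 ≤ r →
    (∀ x y, c x y = c y x) → (∀ b, ¬ Emb H (cls (FN H x y W T kd δ) c b)) →
    ∀ (Cs : Classes r B T K' c) (i : I) (S : Fin (sm n r) → VN n h q L I M) (Z : Hst Cs i S)
      (K : Fin r → Fin q) (ℓ : Fin r → Bool), (∀ j j', j ≠ j' → W.Adj (K j) (K j')) →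
      ∃ b, (∀ j j', j ≠ j' → ∀ a a', c (.l (plc i (ℓ j)) (K j) (Z.e (ℓ j) (K j) a))
          (.l (plc i (ℓ j')) (K j') (Z.e (ℓ j') (K j') a')) = b) ∧
        (∀ j, ((Cs.s (plc i (ℓ j)) (K j)).2 b : ℕ) = 1 ∧
          ((Cs.s (plc i (ℓ j)) (K j)).2 (!b) : ℕ) = r) ∧
        (∀ k j j', (Cs.s (plc i (ℓ j)) (K j)).1 k = !b →
          (Cs.s (plc i (ℓ j')) (K j')).1 k = !b → j = j') ∧
        ∀ s j, (∀ k, s ≠ .u k) → (∀ p w k, s ≠ .c p w k) →
          (∀ a, (FN H x y W T kd δ).Adj s (.l (plc i (ℓ j)) (K j) (Z.e (ℓ j) (K j) a))) →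
          ¬ ∀ a, c s (.l (plc i (ℓ j)) (K j) (Z.e (ℓ j) (K j) a)) = !b

/-- The kinds `K j` are pairwise adjacent and forced with colour `b` at the index `i` and in the
pool. -/
structure Fine {n h q L b₀ : ℕ} {I M : Type} {r : ℕ} {B : SimpleGraph (Fin b₀)}
    {T : Bool × Fin q → SimpleGraph (Fin L)} {K' : Bool × Fin q → Type}
    {c : VN n h q L I M → VN n h q L I M → Bool} (W : SimpleGraph (Fin q))
    (Cs : Classes r B T K' c) (i : I) (K : Fin r → Fin q) (b : Bool) : Prop where
  adj : ∀ j j', j ≠ j' → W.Adj (K j) (K j')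
  ui : ∀ j k, (Cs.s (some i) (K j)).1 k = b
  up : ∀ j k, (Cs.s none (K j)).1 k = b
  one : ∀ j, ((Cs.s none (K j)).2 b : ℕ) = 1

/-- Row FIN1 ((T2)): if the classes of the kinds `K j` agree, then `K` is fine.  Proof: FRC for the
levels constant `false`, constant `true`, and `true` except at one `j`. -/
def FineStatement : Prop :=
  ∀ (n h N q L r b₀ : ℕ) (H : SimpleGraph (Fin n)) (_ : NData H r h) (x y : Fin n)
    (W : SimpleGraph (Fin q)) (T : Bool × Fin q → SimpleGraph (Fin L))
    (K' : Bool × Fin q → Type) (kd : Fin N → Fin q) (I M : Type) (δ : M → SP n N q L → I)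
    (B : SimpleGraph (Fin b₀)) (c : VN n h q L I M → VN n h q L I M → Bool), 2 ≤ r →
    (∀ x y, c x y = c y x) → (∀ b, ¬ Emb H (cls (FN H x y W T kd δ) c b)) →
    ∀ (Cs : Classes r B T K' c) (i : I) (S : Fin (sm n r) → VN n h q L I M) (_ : Hst Cs i S)
      (K : Fin r → Fin q), (∀ j j', j ≠ j' → W.Adj (K j) (K j')) →
      (∀ j j', (Cs.s (some i) (K j)).1 = (Cs.s (some i) (K j')).1) →
      (∀ j j', (Cs.s none (K j)).1 = (Cs.s none (K j')).1) → ∃ b, Fine W Cs i K b

/-- Row RUL (RULES 1 and 2).  `v` is a free vertex or a low (not of the pool), `A j` consists of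
lows of kind `K j` (not of the pool), which have colour `b` to `v` and to all `u`. -/
def RulStatement : Prop :=
  ∀ (n h N q L r b₀ : ℕ) (H : SimpleGraph (Fin n)) (_ : NData H r h) (x y : Fin n)
    (W : SimpleGraph (Fin q)) (T : Bool × Fin q → SimpleGraph (Fin L))
    (K' : Bool × Fin q → Type) (kd : Fin N → Fin q) (I M : Type) (δ : M → SP n N q L → I)
    (B : SimpleGraph (Fin b₀)) (c : VN n h q L I M → VN n h q L I M → Bool), 2 ≤ r →
    (∀ x y, c x y = c y x) → (∀ b, ¬ Emb H (cls (FN H x y W T kd δ) c b)) →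
    ∀ (Cs : Classes r B T K' c), (∀ (i : I) (S : Fin (sm n r) → VN n h q L I M),
        Nonempty (Hst Cs i S)) →
      ∀ (i : I) (K : Fin r → Fin q) (b : Bool), Fine W Cs i K b →
      ∀ (v : VN n h q L I M) (A : Fin r → Finset (VN n h q L I M)),
        ((∃ m ps k, v = .z m ps k) ∨ ∃ i' w t, v = .l (some i') w t) →
        (∀ j, ∀ a ∈ A j, ∃ i' t, a = .l (some i') (K j) t) →
        (∀ j, ∀ a ∈ A j, ∀ k, c (.u k) a = b) →
        (∀ j, ∀ a ∈ A j, (FN H x y W T kd δ).Adj v a ∧ c v a = b) →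
        (∀ j, n ≤ (A j).card ∨ ∃ i' w t, v = .l (some i') w t ∧ W.Adj w (K j)) → False

/-- Row ARN: the host is Ramsey for `H`. -/
def ArnStatement : Prop :=
  ∀ (n h N q L r b₀ : ℕ) (H : SimpleGraph (Fin n)) (_ : NData H r h) (x y : Fin n)
    (W : SimpleGraph (Fin q)) (T : Bool × Fin q → SimpleGraph (Fin L))
    (K' : Bool × Fin q → Type) (kd : Fin N → Fin q) (cp : Fin q → Fin (2 * n) → Fin N)
    (I M : Type) [Finite I] [Finite M] (δ : M → SP n N q L → I) (B : SimpleGraph (Fin b₀)),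
    2 ≤ r → 1 ≤ b₀ → H.Adj x y → (∀ w a, kd (cp w a) = w) → (∀ w, Function.Injective (cp w)) →
    (∀ κ : Fin q → (Fin h → Bool) × (Fin h → Bool) ×
        (Fin n → Fin n → Fin n → Fin (2 * n) → Fin n → Bool),
      ∃ e : Fin r → Fin q, (∀ j j', j ≠ j' → W.Adj (e j) (e j')) ∧
        ∀ j j', κ (e j) = κ (e j')) →
    Homog B (Bool × Fin q) (QN r h) (Fin h → Bool) (KN n r h q) T K' →
    (∀ c : Fin b₀ → Fin b₀ → Bool, (∀ x y, c x y = c y x) →
      ∃ A A', r + 1 ≤ A + A' ∧ Blow B c n A true ∧ Blow B c n A' false) →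
    (∀ m, Function.Injective (δ m)) → Sparse (n * n) δ →
    (∀ (lab : I → Fin q → QN r h × Fin L) (bad : I → Finset M),
      (∀ i, (bad i).card ≤ q * n) →
      ∃ m, (∀ t t', lab (δ m t) = lab (δ m t')) ∧ ∀ t, m ∉ bad (δ m t)) →
    Arr (FN (h := h) H x y W T kd δ) H

/-- Row MNN: Theorem N. -/
def MnnStatement : Prop :=
  ∀ (n n' r h : ℕ) (H : SimpleGraph (Fin n)) (H' : SimpleGraph (Fin n')) (_ : NData H r h),
    2 ≤ r → Sig H r h → H.Connected → TwoC (ed H) → H'.Connected → Emb H H' → ¬ Emb H' H →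
    ∃ (m : ℕ) (F : SimpleGraph (Fin m)), Arr F H ∧ ¬ Arr F H'

/-- `H` has no cut vertex. -/
def NoCut {n : ℕ} (H : SimpleGraph (Fin n)) : Prop :=
  ∀ a, (H.induce {x | x ≠ a}).Connected

/-- Row CRN: the final form.  `κ` is a proper colouring of `H` with `k` colours, `H` has no proper
colouring with fewer colours, no colour class of a proper colouring with `k` colours is smaller
than the class of `α`, and `α` lies in no triangle. -/
def CrnStatement : Prop :=
  ∀ (n n' k : ℕ) (H : SimpleGraph (Fin n)) (H' : SimpleGraph (Fin n')) (κ : Fin n → Fin k)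
    (α : Fin n), 3 ≤ n → 3 ≤ k → NoCut H → (∀ i j, H.Adj i j → κ i ≠ κ j) →
    ¬ H.Colorable (k - 1) →
    (∀ κ' : Fin n → Fin k, (∀ i j, H.Adj i j → κ' i ≠ κ' j) → ∀ a,
      (univ.filter (fun x => κ x = κ α)).card ≤ (univ.filter (fun x => κ' x = a)).card) →
    (∀ i j, H.Adj α i → H.Adj α j → ¬ H.Adj i j) →
    H'.Connected → Emb H H' → ¬ Emb H' H →
    ∃ (m : ℕ) (F : SimpleGraph (Fin m)), Arr F H ∧ ¬ Arr F H'

end MP3240N
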