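import Pool.Agent.Lib.MP_3240be_co.LEAF.Sp

/-!
# MP_3240be_co: leaf lemma, row R8: tools for forests and for the property PS
-/

set_option autoImplicit false

namespace MP3240N49

open Finset MP3240LEAF

section peel
variable {V : Type} {G : V → V → Prop}

open Classical in
/-- The number of neighbours of `v` in `S`. -/
noncomputable def dg (G : V → V → Prop) (S : Finset V) (v : V) : ℕ := (S.filter (fun x => G v x)).card

theorem cnt_eq_sum (S : Finset V) : cnt G S = ∑ v ∈ S, dg G S v := by
  classical
  unfold cnt dg
  rw [Finset.card_filter, Finset.sum_product]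
  apply Finset.sum_congr rfl
  intro v _
  rw [Finset.card_filter]

open Classical in
/-- Ordered pairs from `T` to `T'`. -/
noncomputable def cr (G : V → V → Prop) (T T' : Finset V) : ℕ :=
  ((T ×ˢ T').filter (fun p : V × V => G p.1 p.2)).card

theorem cr_symm (hs : ∀ x y, G x y → G y x) (T T' : Finset V) : cr G T T' = cr G T' T := by
  classical
  unfold cr
  apply Finset.card_bij (fun p _ => (p.2, p.1))
  · intro p hp
    simp only [Finset.mem_filter, Finset.mem_product] at hp ⊢
    exact ⟨⟨hp.1.2, hp.1.1⟩, hs _ _ hp.2⟩
  · intro p _ q _ h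
    exact Prod.ext (Prod.ext_iff.1 h).2 (Prod.ext_iff.1 h).1
  · intro p hp
    simp only [Finset.mem_filter, Finset.mem_product] at hp
    refine ⟨(p.2, p.1), ?_, rfl⟩
    simp only [Finset.mem_filter, Finset.mem_product]
    exact ⟨⟨hp.1.2, hp.1.1⟩, hs _ _ hp.2⟩

theorem cnt_split [DecidableEq V] (hs : ∀ x y, G x y → G y x) {T T' : Finset V} (hd : Disjoint T T') :
    cnt G (T ∪ T') = cnt G T + 2 * cr G T T' + cnt G T' := by
  classical
  have h1 : cnt G (T ∪ T') = cr G (T ∪ T') (T ∪ T') := by
    unfold cnt cr
    rfl
  have e1 : ∀ A : Finset V, cr G (T ∪ T') A = cr G T A + cr G T' A := by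
    intro A
    unfold cr
    rw [← Finset.card_union_of_disjoint]
    · congr 1
      ext p
      simp only [Finset.mem_filter, Finset.mem_product, Finset.mem_union]
      tauto
    · rw [Finset.disjoint_left]
      intro p hp hp'
      simp only [Finset.mem_filter, Finset.mem_product] at hp hp'
      exact Finset.disjoint_left.1 hd hp.1.1 hp'.1.1
  have e2 : ∀ A : Finset V, cr G A (T ∪ T') = cr G A T + cr G A T' := by
    intro A
    rw [cr_symm hs, e1, cr_symm hs T, cr_symm hs T']
  have e3 : cr G T T = cnt G T := by
    unfold cnt cr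
    rfl
  have e4 : cr G T' T' = cnt G T' := by
    unfold cnt cr
    rfl
  rw [h1, e1, e2, e2, e3, e4, cr_symm hs T' T]
  ring

/-- Every nonempty set has a vertex of degree at most one. -/
theorem fo_of_peel (hi : ∀ x, ¬ G x x) (hs : ∀ x y, G x y → G y x)
    (h : ∀ S : Finset V, S.Nonempty → ∃ v ∈ S, dg G S v ≤ 1) : Fo G := by
  classical
  rw [fo_iff]
  suffices hh : ∀ (N : ℕ) (S : Finset V), S.card = N → S.Nonempty → cnt G S + 2 ≤ 2 * S.card from
    fun S => hh _ S rfl
  intro N
  induction N with
  | zero =>
    intro S hS hne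
    rw [Finset.card_eq_zero] at hS
    rw [hS] at hne
    exact absurd hne (by simp)
  | succ N ih =>
    intro S hS hne
    obtain ⟨v, hv, hdeg⟩ := h S hne
    have h1 : {v} ∪ S.erase v = S := by
      ext x
      simp only [Finset.mem_union, Finset.mem_singleton, Finset.mem_erase]
      constructor
      · rintro (rfl | h)
        · exact hv
        · exact h.2
      · intro hx
        by_cases hxv : x = v
        · exact Or.inl hxv
        · exact Or.inr ⟨hxv, hx⟩
    have h2 := cnt_split (G := G) hs (T := {v}) (T' := S.erase v) (by simp)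
    rw [h1] at h2
    have h3 : cnt G {v} = 0 := by
      unfold cnt
      rw [Finset.card_eq_zero, Finset.filter_eq_empty_iff]
      rintro ⟨x, y⟩ hp
      simp only [Finset.mem_product, Finset.mem_singleton] at hp
      rw [hp.1, hp.2]
      exact hi v
    have h4 : cr G {v} (S.erase v) ≤ dg G S v := by
      unfold cr dg
      refine Finset.card_le_card_of_injOn (fun p => p.2) ?_ ?_
      · intro p hp
        have hp' := Finset.mem_coe.1 hp
        simp only [Finset.mem_filter, Finset.mem_product, Finset.mem_singleton,
          Finset.mem_erase] at hp'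
        refine Finset.mem_coe.2 (Finset.mem_filter.2 ⟨hp'.1.2.2, ?_⟩)
        have := hp'.2
        rwa [hp'.1.1] at this
      · intro p hp q hq hpq
        have hp' := Finset.mem_coe.1 hp
        have hq' := Finset.mem_coe.1 hq
        simp only [Finset.mem_filter, Finset.mem_product, Finset.mem_singleton] at hp' hq'
        exact Prod.ext (hp'.1.1.trans hq'.1.1.symm) hpq
    have h5 := Finset.card_erase_of_mem hv
    rcases (S.erase v).eq_empty_or_nonempty with he | hne'
    · rw [he] at h2
      have h6 : cr G {v} (∅ : Finset V) = 0 := by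
        unfold cr
        simp
      rw [h3, h6, cnt_empty] at h2
      have := Finset.card_pos.2 hne
      omega
    · have h6 := ih (S.erase v) (by omega) hne'
      omega

/-- In a forest there is a vertex of degree at most one outside a given vertex or edge. -/
theorem peel_out (hF : Fo G) (hs : ∀ x y, G x y → G y x) (S : Finset V)
    (a b : V) (hab : a ∈ S → b ∈ S → a = b ∨ G a b) {v₀ : V} (h0 : v₀ ∈ S) (h0a : v₀ ≠ a)
    (h0b : v₀ ≠ b) : ∃ v ∈ S, v ≠ a ∧ v ≠ b ∧ dg G S v ≤ 1 := by
  classical
  by_contra hcon
  push Not at hcon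
  rw [fo_iff] at hF
  set T := S.filter (fun x => x ≠ a ∧ x ≠ b) with hT
  set R := S.filter (fun x => ¬ (x ≠ a ∧ x ≠ b)) with hR
  have hU : T ∪ R = S := Finset.filter_union_filter_not_eq _ _
  have hd : Disjoint T R := Finset.disjoint_filter_filter_not _ _ _
  have hTn : T.Nonempty := ⟨v₀, Finset.mem_filter.2 ⟨h0, h0a, h0b⟩⟩
  have h1 := cnt_split (G := G) hs hd
  rw [hU] at h1
  have h2 := hF T hTn
  have h3 := hF S ⟨v₀, h0⟩
  have h4 : T.card + R.card = S.card := by rw [← hU, Finset.card_union_of_disjoint hd]
  -- the degrees of the vertices of `T`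
  have h5 : 2 * T.card ≤ cnt G T + cr G T R := by
    have e1 : ∑ v ∈ T, dg G S v = cnt G T + cr G T R := by
      have e2 : ∀ v ∈ T, dg G S v = dg G T v + dg G R v := by
        intro v _
        unfold dg
        rw [← hU, Finset.filter_union, Finset.card_union_of_disjoint]
        exact Finset.disjoint_filter_filter hd
      rw [Finset.sum_congr rfl e2, Finset.sum_add_distrib, ← cnt_eq_sum]
      congr 1
      unfold dg cr
      rw [Finset.card_filter, Finset.sum_product]
      apply Finset.sum_congr rfl
      intro v _
      rw [Finset.card_filter]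
    rw [← e1]
    have e3 : ∑ _v ∈ T, 2 ≤ ∑ v ∈ T, dg G S v := by
      apply Finset.sum_le_sum
      intro v hv
      obtain ⟨hv1, hv2, hv3⟩ := Finset.mem_filter.1 hv
      exact hcon v hv1 hv2 hv3
    rw [Finset.sum_const, smul_eq_mul] at e3
    omega
  have hRs : R ⊆ {a, b} := by
    intro x hx
    obtain ⟨-, hx2⟩ := Finset.mem_filter.1 hx
    simp only [Finset.mem_insert, Finset.mem_singleton]
    by_contra hc
    push Not at hc
    exact hx2 hc
  have hR2 : R.card ≤ 2 := (Finset.card_le_card hRs).trans Finset.card_le_two
  by_cases h6 : R.card ≤ 1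
  · omega
  · have hne : a ≠ b := by
      rintro rfl
      have := Finset.card_le_card hRs
      simp at this
      omega
    have hReq : R = {a, b} := Finset.eq_of_subset_of_card_le hRs (by
      rw [Finset.card_pair hne]
      omega)
    have ha : a ∈ S := (Finset.mem_filter.1 (hReq ▸ (by simp : a ∈ ({a, b} : Finset V)))).1
    have hb : b ∈ S := (Finset.mem_filter.1 (hReq ▸ (by simp : b ∈ ({a, b} : Finset V)))).1
    have hG : G a b := (hab ha hb).resolve_left hne
    have h7 : 2 ≤ cnt G R := by
      unfold cnt
      have hp : ({(a, b), (b, a)} : Finset (V × V)).card = 2 := by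
        apply Finset.card_pair
        intro he
        exact hne (Prod.ext_iff.1 he).1
      rw [← hp]
      apply Finset.card_le_card
      intro p hp
      simp only [Finset.mem_insert, Finset.mem_singleton] at hp
      simp only [Finset.mem_filter, Finset.mem_product, hReq, Finset.mem_insert,
        Finset.mem_singleton]
      rcases hp with rfl | rfl
      · exact ⟨⟨Or.inl rfl, Or.inr rfl⟩, hG⟩
      · exact ⟨⟨Or.inr rfl, Or.inl rfl⟩, hs _ _ hG⟩
    omega

/-- Adding a vertex whose neighbours lie in different components. -/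
theorem fo_star_at (hi : ∀ x, ¬ G x x) (hs : ∀ x y, G x y → G y x) (g : V)
    (h0 : Fo (fun x y => G x y ∧ x ≠ g ∧ y ≠ g))
    (h : ∀ s s', G g s → G g s' → s ≠ s' → ∃ D : Set V, s ∈ D ∧ s' ∉ D ∧
      ∀ x y, x ∈ D → G x y → x ≠ g → y ≠ g → y ∈ D) : Fo G := by
  classical
  rw [fo_iff]
  suffices hh : ∀ (N : ℕ) (S : Finset V), S.card = N → S.Nonempty → cnt G S + 2 ≤ 2 * S.card from
    fun S => hh _ S rfl
  intro N
  induction N using Nat.strong_induction_on with
  | _ N ih =>
    intro S hS hne
    by_cases hg : g ∈ S
    · by_cases h2 : ∃ s ∈ S, ∃ s' ∈ S, G g s ∧ G g s' ∧ s ≠ s'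
      · obtain ⟨s, hs1, s', hs1', hgs, hgs', hss⟩ := h2
        obtain ⟨D, d1, d2, d3⟩ := h s s' hgs hgs' hss
        have hsg : s ≠ g := fun he => hi g (by rw [he] at hgs; exact hgs)
        have hsg' : s' ≠ g := fun he => hi g (by rw [he] at hgs'; exact hgs')
        set S1 := S.filter (fun x => x = g ∨ x ∈ D) with hS1
        set S2 := S.filter (fun x => x = g ∨ x ∉ D) with hS2
        have c1 : S1.card < S.card := Finset.card_lt_card (by
          refine ⟨Finset.filter_subset _ _, fun hsub => ?_⟩
          have := (Finset.mem_filter.1 (hsub hs1')).2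
          exact this.elim hsg' d2)
        have c2 : S2.card < S.card := Finset.card_lt_card (by
          refine ⟨Finset.filter_subset _ _, fun hsub => ?_⟩
          have := (Finset.mem_filter.1 (hsub hs1)).2
          exact this.elim hsg (fun h => h d1))
        have i1 := ih S1.card (by omega) S1 rfl ⟨g, Finset.mem_filter.2 ⟨hg, Or.inl rfl⟩⟩
        have i2 := ih S2.card (by omega) S2 rfl ⟨g, Finset.mem_filter.2 ⟨hg, Or.inl rfl⟩⟩
        have u1 : S1 ∪ S2 = S := by
          ext x
          simp only [hS1, hS2, Finset.mem_union, Finset.mem_filter]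
          tauto
        have u2 : S1 ∩ S2 = {g} := by
          ext x
          simp only [hS1, hS2, Finset.mem_inter, Finset.mem_filter, Finset.mem_singleton]
          constructor
          · rintro ⟨⟨_, h1⟩, _, h2⟩
            tauto
          · rintro rfl
            exact ⟨⟨hg, Or.inl rfl⟩, hg, Or.inl rfl⟩
        have u3 := Finset.card_union_add_card_inter S1 S2
        rw [u1, u2, Finset.card_singleton] at u3
        have u4 : cnt G S ≤ cnt G S1 + cnt G S2 := by
          unfold cnt
          rw [← Finset.card_union_add_card_inter]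
          refine le_trans (Finset.card_le_card ?_) (Nat.le_add_right _ _)
          rintro ⟨x, y⟩ hp
          simp only [Finset.mem_filter, Finset.mem_product, Finset.mem_union, hS1, hS2] at hp ⊢
          obtain ⟨⟨hx, hy⟩, hG⟩ := hp
          by_cases hxg : x = g
          · by_cases hyD : y ∈ D
            · exact Or.inl ⟨⟨⟨hx, Or.inl hxg⟩, hy, Or.inr hyD⟩, hG⟩
            · exact Or.inr ⟨⟨⟨hx, Or.inl hxg⟩, hy, Or.inr hyD⟩, hG⟩
          · by_cases hyg : y = g
            · by_cases hxD : x ∈ D
              · exact Or.inl ⟨⟨⟨hx, Or.inr hxD⟩, hy, Or.inl hyg⟩, hG⟩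
              · exact Or.inr ⟨⟨⟨hx, Or.inr hxD⟩, hy, Or.inl hyg⟩, hG⟩
            · by_cases hxD : x ∈ D
              · exact Or.inl ⟨⟨⟨hx, Or.inr hxD⟩, hy, Or.inr (d3 x y hxD hG hxg hyg)⟩, hG⟩
              · refine Or.inr ⟨⟨⟨hx, Or.inr hxD⟩, hy, Or.inr (fun hyD => hxD ?_)⟩, hG⟩
                exact d3 y x hyD (hs _ _ hG) hyg hxg
        omega
      · push Not at h2
        have h1 : {g} ∪ S.erase g = S := by
          ext x
          simp only [Finset.mem_union, Finset.mem_singleton, Finset.mem_erase]
          constructor
          · rintro (rfl | h)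
            · exact hg
            · exact h.2
          · intro hx
            by_cases hxv : x = g
            · exact Or.inl hxv
            · exact Or.inr ⟨hxv, hx⟩
        have h3 := cnt_split (G := G) hs (T := {g}) (T' := S.erase g) (by simp)
        rw [h1] at h3
        have h4 : cnt G {g} = 0 := by
          unfold cnt
          rw [Finset.card_eq_zero, Finset.filter_eq_empty_iff]
          rintro ⟨x, y⟩ hp
          simp only [Finset.mem_product, Finset.mem_singleton] at hp
          rw [hp.1, hp.2]
          exact hi g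
        have h5 : cr G {g} (S.erase g) ≤ 1 := by
          unfold cr
          rw [Finset.card_le_one]
          rintro ⟨x, y⟩ hp ⟨x', y'⟩ hp'
          simp only [Finset.mem_filter, Finset.mem_product, Finset.mem_singleton,
            Finset.mem_erase] at hp hp'
          obtain ⟨⟨rfl, hy⟩, hG⟩ := hp
          obtain ⟨⟨rfl, hy'⟩, hG'⟩ := hp'
          rw [h2 y hy.2 y' hy'.2 hG hG']
        have h6 := Finset.card_erase_of_mem hg
        rcases (S.erase g).eq_empty_or_nonempty with he | hne'
        · rw [he] at h3
          have h7 : cr G {g} (∅ : Finset V) = 0 := by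
            unfold cr
            simp
          rw [h4, h7, cnt_empty] at h3
          have := Finset.card_pos.2 hne
          omega
        · have h7 := fo_iff.1 h0 (S.erase g) hne'
          have h8 : cnt (fun x y => G x y ∧ x ≠ g ∧ y ≠ g) (S.erase g) = cnt G (S.erase g) := by
            unfold cnt
            congr 1
            ext p
            simp only [Finset.mem_filter, Finset.mem_product, Finset.mem_erase]
            tauto
          rw [h8] at h7
          omega
    · have h7 := fo_iff.1 h0 S hne
      have h8 : cnt (fun x y => G x y ∧ x ≠ g ∧ y ≠ g) S = cnt G S := by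
        unfold cnt
        congr 1
        ext p
        simp only [Finset.mem_filter, Finset.mem_product]
        constructor
        · rintro ⟨h1, h2, -⟩
          exact ⟨h1, h2⟩
        · rintro ⟨h1, h2⟩
          exact ⟨h1, h2, fun he => hg (he ▸ h1.1), fun he => hg (he ▸ h1.2)⟩
      rw [h8] at h7
      exact h7

end peel

end MP3240N49
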