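import Pool.Agent.Lib.MP_3240be_co.N49.Frp

/-!
# MP_3240be_co: leaf lemma, row R8: families of forest partitions of the used positions
-/

set_option autoImplicit false

namespace MP3240N49

open Finset MP3240LEAF

section
variable {n r : ℕ} {H : SimpleGraph (Fin n)} {P : Finset (Fin n)}

/-- The edges of `H` in `P` inside the classes of `f`. -/
def sm (H : SimpleGraph (Fin n)) (P : Finset (Fin n)) (f : Fin n → Fin r) (x y : Fin n) : Prop :=
  H.Adj x y ∧ x ∈ P ∧ y ∈ P ∧ f x = f y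

/-- The colourings whose classes induce forests in `H[P]`. -/
def RF (H : SimpleGraph (Fin n)) (P : Finset (Fin n)) : Set (Fin n → Fin r) := {f | Fo (sm H P f)}

theorem RF.congr {f f' : Fin n → Fin r} (h : ∀ x ∈ P, f x = f' x) (hf : f ∈ RF H P) :
    f' ∈ RF H P := by
  refine Fo.mono (G' := sm H P f) hf ?_
  rintro x y ⟨h1, h2, h3, h4⟩
  exact ⟨h1, h2, h3, by rw [h x h2, h y h3]; exact h4⟩

theorem RF.perm {f : Fin n → Fin r} (hf : f ∈ RF H P) (σ : Equiv.Perm (Fin r)) :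
    (fun x => σ (f x)) ∈ RF H P := by
  refine Fo.mono (G' := sm H P f) hf ?_
  rintro x y ⟨h1, h2, h3, h4⟩
  exact ⟨h1, h2, h3, σ.injective h4⟩

theorem RF.sub {f : Fin n → Fin r} {P' : Finset (Fin n)} (hf : f ∈ RF H P') (hP : P ⊆ P') :
    f ∈ RF H P := by
  refine Fo.mono (G' := sm H P' f) hf ?_
  rintro x y ⟨h1, h2, h3, h4⟩
  exact ⟨h1, hP h2, hP h3, h4⟩

/-- From the subtype to `Fin n`. -/
theorem fo_lift {G : Fin n → Fin n → Prop}
    (hG : Fo (fun x y : (P : Set (Fin n)) => G x.1 y.1)) (hP : ∀ x y, G x y → x ∈ P ∧ y ∈ P) :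
    Fo G := by
  classical
  rw [fo_iff] at hG ⊢
  intro S hS
  set T : Finset (P : Set (Fin n)) := S.subtype (fun x => x ∈ (P : Set (Fin n))) with hT
  have h1 : cnt G S ≤ cnt (fun x y : (P : Set (Fin n)) => G x.1 y.1) T := by
    unfold cnt
    refine Finset.card_le_card_of_surjOn (fun p => (p.1.1, p.2.1)) ?_
    rintro ⟨x, y⟩ hp
    have hp' := Finset.mem_coe.1 hp
    simp only [Finset.mem_filter, Finset.mem_product] at hp'
    obtain ⟨hx, hy⟩ := hP x y hp'.2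
    refine ⟨(⟨x, hx⟩, ⟨y, hy⟩), ?_, rfl⟩
    refine Finset.mem_coe.2 (Finset.mem_filter.2 ⟨Finset.mem_product.2 ⟨?_, ?_⟩, hp'.2⟩)
    · exact Finset.mem_subtype.2 hp'.1.1
    · exact Finset.mem_subtype.2 hp'.1.2
  have h2 : T.card ≤ S.card := by
    rw [hT, Finset.card_subtype]
    exact Finset.card_le_card (Finset.filter_subset _ _)
  rcases T.eq_empty_or_nonempty with h | h
  · rw [h, cnt_empty] at h1
    have := Finset.card_pos.2 hS
    omega
  · have := hG T h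
    omega

theorem RF.of_sub {k : ↥(P : Set (Fin n)) → Fin r} (c₀ : Fin r)
    (hk : Fo (fun x y => (H.induce (P : Set (Fin n))).Adj x y ∧ k x = k y)) :
    ∃ f ∈ RF (r := r) H P, ∀ x (hx : x ∈ P), f x = k ⟨x, hx⟩ := by
  classical
  have h0 : ∀ x (hx : x ∈ P), (fun x => if h : x ∈ P then k ⟨x, h⟩ else c₀) x = k ⟨x, hx⟩ := by
    intro x hx
    exact dif_pos hx
  refine ⟨fun x => if h : x ∈ P then k ⟨x, h⟩ else c₀, ?_, h0⟩
  apply fo_lift (P := P)
  · refine hk.mono ?_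
    rintro ⟨x, hx⟩ ⟨y, hy⟩ ⟨h1, h2, h3, h4⟩
    rw [h0 x h2, h0 y h3] at h4
    exact ⟨h1, h4⟩
  · rintro x y ⟨-, h1, h2, -⟩
    exact ⟨h1, h2⟩

variable (c₀ : Fin r) (hPS : PS r (H.induce (P : Set (Fin n))))

include c₀ hPS

theorem RF.ne : ∃ f, f ∈ RF (r := r) H P := by
  obtain ⟨k, hk⟩ := hPS.1.1
  obtain ⟨f, hf, -⟩ := RF.of_sub c₀ hk
  exact ⟨f, hf⟩

theorem RF.rel {u v : Fin n} (hu : u ∈ P) (hv : v ∈ P) (huv : H.Adj u v) (e : Bool) :
    ∃ f ∈ RF (r := r) H P, (f u = f v ↔ e = true) := by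
  obtain ⟨k, hk, hk2⟩ := hPS.1.2 ⟨u, hu⟩ ⟨v, hv⟩ huv e
  obtain ⟨f, hf, hf2⟩ := RF.of_sub c₀ hk
  refine ⟨f, hf, ?_⟩
  rw [hf2 u hu, hf2 v hv]
  exact hk2

/-- Separation along a path `y - x - w`. -/
theorem RF.sep {y x w : Fin n} (hy : y ∈ P) (hx : x ∈ P) (hw : w ∈ P) (hxy : H.Adj x y)
    (hxw : H.Adj x w) (hyw : y ≠ w) : ∃ f ∈ RF (r := r) H P, ∃ D : Set (Fin n), w ∈ D ∧ x ∉ D ∧
      y ∉ D ∧ ∀ a b, a ∈ D → sm H P f a b → b ∈ D := by
  obtain ⟨k, hk, D, d1, d2, d3, d4⟩ := hPS.2 ⟨y, hy⟩ ⟨x, hx⟩ ⟨w, hw⟩ hxy hxw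
    (fun h => hyw (Subtype.ext_iff.1 h))
  obtain ⟨f, hf, hf2⟩ := RF.of_sub c₀ hk
  refine ⟨f, hf, {a | ∃ h : a ∈ P, (⟨a, h⟩ : (P : Set (Fin n))) ∈ D}, ⟨hw, d1⟩, ?_, ?_, ?_⟩
  · rintro ⟨_, h⟩
    exact d2 h
  · rintro ⟨_, h⟩
    exact d3 h
  · rintro a b ⟨ha, haD⟩ ⟨h1, h2, h3, h4⟩
    refine ⟨h3, d4 ⟨a, ha⟩ ⟨b, h3⟩ haD h1 ?_⟩
    rw [← hf2 a h2, ← hf2 b h3]
    exact h4

omit c₀ hPS in
theorem exists_perm {a b c c' : Fin r} (h : a = b ↔ c = c') :
    ∃ σ : Equiv.Perm (Fin r), σ a = c ∧ σ b = c' := by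
  classical
  by_cases hab : a = b
  · have hc := h.1 hab
    subst hab
    subst hc
    exact ⟨Equiv.swap a c, Equiv.swap_apply_left _ _, Equiv.swap_apply_left _ _⟩
  · have hc : c ≠ c' := fun he => hab (h.2 he)
    refine ⟨(Equiv.swap a c).trans (Equiv.swap (Equiv.swap a c b) c'), ?_, ?_⟩
    · rw [Equiv.trans_apply, Equiv.swap_apply_left]
      apply Equiv.swap_apply_of_ne_of_ne _ hc
      intro he
      have h1 : Equiv.swap a c a = Equiv.swap a c b := by rw [Equiv.swap_apply_left]; exact he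
      exact hab ((Equiv.swap a c).injective h1)
    · rw [Equiv.trans_apply, Equiv.swap_apply_left]

/-- Prescribed colours at the ends of an edge of `H`. -/
theorem RF.mt {x y : Fin n} (hxy : H.Adj x y) (c c' : Fin r) :
    ∃ f ∈ RF (r := r) H P, f x = c ∧ f y = c' := by
  classical
  by_cases hx : x ∈ P
  · by_cases hy : y ∈ P
    · obtain ⟨f, hf, hf2⟩ := RF.rel c₀ hPS hx hy hxy (decide (c = c'))
      obtain ⟨σ, h1, h2⟩ := exists_perm (a := f x) (b := f y) (c := c) (c' := c')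
        (hf2.trans (by simp))
      exact ⟨_, RF.perm hf σ, h1, h2⟩
    · obtain ⟨f, hf⟩ := RF.ne c₀ hPS
      refine ⟨Function.update (fun z => Equiv.swap (f x) c (f z)) y c', ?_, ?_, ?_⟩
      · refine RF.congr ?_ (RF.perm hf (Equiv.swap (f x) c))
        intro z hz
        rw [Function.update_of_ne (fun h : z = y => hy (h ▸ hz))]
      · rw [Function.update_of_ne hxy.ne]
        exact Equiv.swap_apply_left _ _
      · rw [Function.update_self]
  · obtain ⟨f, hf⟩ := RF.ne c₀ hPS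
    by_cases hy : y ∈ P
    · refine ⟨Function.update (fun z => Equiv.swap (f y) c' (f z)) x c, ?_, ?_, ?_⟩
      · refine RF.congr ?_ (RF.perm hf (Equiv.swap (f y) c'))
        intro z hz
        rw [Function.update_of_ne (fun h : z = x => hx (h ▸ hz))]
      · rw [Function.update_self]
      · rw [Function.update_of_ne hxy.ne.symm]
        exact Equiv.swap_apply_left _ _
    · refine ⟨Function.update (Function.update f x c) y c', ?_, ?_, ?_⟩
      · refine RF.congr ?_ hf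
        intro z hz
        rw [Function.update_of_ne (fun h : z = y => hy (h ▸ hz)), Function.update_of_ne
          (fun h : z = x => hx (h ▸ hz))]
      · rw [Function.update_of_ne hxy.ne, Function.update_self]
      · rw [Function.update_self]

/-- `w` is separated from `x` and from `y` (if `y` is a position). -/
theorem RF.sep1 {y x w : Fin n} (hx : x ∈ P) (hw : w ∈ P) (hxy : H.Adj x y)
    (hxw : H.Adj x w) (hyw : y ≠ w) : ∃ f ∈ RF (r := r) H P, ∃ D : Set (Fin n), w ∈ D ∧ x ∉ D ∧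
      (y ∈ P → y ∉ D) ∧ ∀ a b, a ∈ D → sm H P f a b → b ∈ D := by
  by_cases hy : y ∈ P
  · obtain ⟨f, hf, D, d1, d2, d3, d4⟩ := RF.sep c₀ hPS hy hx hw hxy hxw hyw
    exact ⟨f, hf, D, d1, d2, fun _ => d3, d4⟩
  · obtain ⟨f, hf, h1⟩ := RF.rel c₀ hPS hx hw hxw false
    have h2 : f x ≠ f w := fun he => by simpa using h1.1 he
    refine ⟨f, hf, {a | f a = f w}, rfl, h2, fun h => absurd h hy, ?_⟩
    rintro a b (ha : f a = f w) ⟨_, _, _, h3⟩
    exact h3.symm.trans ha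

end

end MP3240N49
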